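import Pool.Agent.Work.MP_f896b9_an.Defs

open scoped ENNReal NNReal

namespace Pool.Agent.F896b9

universe u v

/-- A family of 1-Lipschitz functions, continuous in the parameter and separating pairs of
points up to the factor `D`, gives an embedding of distortion at most `D`. -/
theorem cX_le_of_family {K : Type v} [TopologicalSpace K] [CompactSpace K]
    {M : Type u} [MetricSpace M] (h : K → M → ℝ)
    (hlip : ∀ t x y, |h t x - h t y| ≤ dist x y)
    (hcont : ∀ z, Continuous (fun t => h t z)) (D : ℝ)
    (hsep : ∀ x y, x ≠ y → ∃ t, dist x y ≤ D * |h t x - h t y|) :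
    cX C(K, ℝ) M ≤ ENNReal.ofReal D := by
  let f : M → C(K, ℝ) := fun z => ⟨fun t => h t z, hcont z⟩
  have hf1 : ∀ x y, dist (f x) (f y) ≤ dist x y := by
    intro x y
    rw [ContinuousMap.dist_le dist_nonneg]
    intro t
    simpa [f, Real.dist_eq] using hlip t x y
  have hf2 : ∀ x y, x ≠ y → dist x y ≤ D * dist (f x) (f y) ∧ 0 < dist (f x) (f y) ∧ 0 < D := by
    intro x y hxy
    obtain ⟨t, ht⟩ := hsep x y hxy
    have hd : 0 < dist x y := dist_pos.2 hxy
    have h1 : |h t x - h t y| ≤ dist (f x) (f y) := by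
      have := ContinuousMap.dist_apply_le_dist (f := f x) (g := f y) t
      simpa [f, Real.dist_eq] using this
    have h0 : 0 ≤ |h t x - h t y| := abs_nonneg _
    have hD : 0 < D := by
      by_contra hD
      push Not at hD
      nlinarith [mul_nonpos_of_nonpos_of_nonneg hD h0]
    refine ⟨ht.trans (by gcongr), ?_, hD⟩
    by_contra hcon
    have : dist (f x) (f y) = 0 := le_antisymm (not_lt.1 hcon) dist_nonneg
    rw [this] at h1
    have : |h t x - h t y| = 0 := le_antisymm h1 h0
    rw [this] at ht
    simp at ht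
    exact hxy ht
  have hinj : Function.Injective f := by
    intro x y hxy
    by_contra hne
    have := (hf2 x y hne).2.1
    rw [hxy] at this
    simp at this
  refine (iInf₂_le f hinj).trans ?_
  unfold distortion
  have hA : lip f ≤ 1 := by
    unfold lip
    refine iSup_le fun x => iSup_le fun y => iSup_le fun hxy => ?_
    rw [edist_dist, edist_dist]
    refine ENNReal.div_le_of_le_mul ?_
    rw [one_mul]
    exact ENNReal.ofReal_le_ofReal (hf1 x y)
  have hB : lipInv f ≤ ENNReal.ofReal D := by
    unfold lipInv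
    refine iSup_le fun x => iSup_le fun y => iSup_le fun hxy => ?_
    obtain ⟨h1, h2, h3⟩ := hf2 x y hxy
    rw [edist_dist, edist_dist]
    refine ENNReal.div_le_of_le_mul ?_
    rw [← ENNReal.ofReal_mul h3.le]
    exact ENNReal.ofReal_le_ofReal h1
  calc lip f * lipInv f ≤ 1 * ENNReal.ofReal D := by gcongr
    _ = ENNReal.ofReal D := one_mul _

/-- If the distortion of an injection `f` defined on a space with two points is `< D`, then `f` is
bi-Lipschitz with real constants whose product is `< D`. -/
theorem exists_consts_of_distortion_lt {X : Type v} [MetricSpace X] {M : Type u} [MetricSpace M]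
    [Nontrivial M] {f : M → X} (hf : Function.Injective f) {D : ℝ}
    (h : distortion f < ENNReal.ofReal D) :
    ∃ L C : ℝ, 0 < L ∧ 0 < C ∧ L * C < D ∧ (∀ x y, dist (f x) (f y) ≤ L * dist x y) ∧
      ∀ x y, dist x y ≤ C * dist (f x) (f y) := by
  obtain ⟨a, b, hab⟩ := exists_pair_ne M
  have hL0 : lip f ≠ 0 := by
    intro h0
    have h1 : edist (f a) (f b) / edist a b ≤ lip f := by
      unfold lip
      exact le_iSup_of_le a (le_iSup_of_le b (le_iSup_of_le hab le_rfl))
    rw [h0] at h1
    have h2 := le_antisymm h1 bot_le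
    rw [ENNReal.div_eq_zero_iff] at h2
    rcases h2 with h2 | h2
    · exact hab (hf (edist_eq_zero.1 h2))
    · exact edist_ne_top _ _ h2
  have hC0 : lipInv f ≠ 0 := by
    intro h0
    have h1 : edist a b / edist (f a) (f b) ≤ lipInv f := by
      unfold lipInv
      exact le_iSup_of_le a (le_iSup_of_le b (le_iSup_of_le hab le_rfl))
    rw [h0] at h1
    have h2 := le_antisymm h1 bot_le
    rw [ENNReal.div_eq_zero_iff] at h2
    rcases h2 with h2 | h2
    · exact hab (edist_eq_zero.1 h2)
    · exact edist_ne_top _ _ h2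
  unfold distortion at h
  have hLt : lip f ≠ ∞ := by
    intro h1
    rw [h1, ENNReal.top_mul hC0] at h
    exact absurd h not_top_lt
  have hCt : lipInv f ≠ ∞ := by
    intro h1
    rw [h1, ENNReal.mul_top hL0] at h
    exact absurd h not_top_lt
  refine ⟨(lip f).toReal, (lipInv f).toReal, ENNReal.toReal_pos hL0 hLt,
    ENNReal.toReal_pos hC0 hCt, ?_, ?_, ?_⟩
  · rw [← ENNReal.toReal_mul]
    have hD : 0 < D := by
      by_contra hD
      rw [ENNReal.ofReal_of_nonpos (not_lt.1 hD)] at h
      exact absurd h (not_lt.2 bot_le)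
    rw [← ENNReal.toReal_ofReal hD.le]
    exact (ENNReal.toReal_lt_toReal (ENNReal.mul_ne_top hLt hCt) ENNReal.ofReal_ne_top).2 h
  · intro x y
    by_cases hxy : x = y
    · subst hxy; simp
    have h1 : edist (f x) (f y) / edist x y ≤ lip f := by
      unfold lip
      exact le_iSup_of_le x (le_iSup_of_le y (le_iSup_of_le hxy le_rfl))
    rw [ENNReal.div_le_iff (by simpa using hxy) (edist_ne_top _ _)] at h1
    have h2 := ENNReal.toReal_mono (ENNReal.mul_ne_top hLt (edist_ne_top _ _)) h1
    rw [ENNReal.toReal_mul] at h2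
    simpa [dist_edist] using h2
  · intro x y
    by_cases hxy : x = y
    · subst hxy; simp
    have h1 : edist x y / edist (f x) (f y) ≤ lipInv f := by
      unfold lipInv
      exact le_iSup_of_le x (le_iSup_of_le y (le_iSup_of_le hxy le_rfl))
    rw [ENNReal.div_le_iff (by simpa using fun h => hxy (hf h)) (edist_ne_top _ _)] at h1
    have h2 := ENNReal.toReal_mono (ENNReal.mul_ne_top hCt (edist_ne_top _ _)) h1
    rw [ENNReal.toReal_mul] at h2
    simpa [dist_edist] using h2

/-- To bound `cX X M` below by `D` it suffices to exclude bi-Lipschitz maps with product of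
constants `< D`. -/
theorem le_cX_of_forall {X : Type v} [MetricSpace X] {M : Type u} [MetricSpace M]
    [Nontrivial M] {D : ℝ}
    (h : ∀ (f : M → X) (L C : ℝ), 0 < L → 0 < C → L * C < D →
      (∀ x y, dist (f x) (f y) ≤ L * dist x y) →
      (∀ x y, dist x y ≤ C * dist (f x) (f y)) → False) :
    ENNReal.ofReal D ≤ cX X M := by
  refine le_iInf₂ fun f hf => ?_
  by_contra hcon
  obtain ⟨L, C, hL, hC, hLC, h1, h2⟩ := exists_consts_of_distortion_lt hf (not_le.1 hcon)
  exact h f L C hL hC hLC h1 h2

theorem one_le_cX {X : Type v} [MetricSpace X] {M : Type u} [MetricSpace M]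
    [Nontrivial M] : 1 ≤ cX X M := by
  rw [← ENNReal.ofReal_one]
  refine le_cX_of_forall fun f L C hL hC hLC h1 h2 => ?_
  obtain ⟨a, b, hab⟩ := exists_pair_ne M
  have hd : 0 < dist a b := dist_pos.2 hab
  have := h1 a b
  have h3 := h2 a b
  have h4 : dist a b ≤ C * (L * dist a b) := h3.trans (by gcongr)
  nlinarith

end Pool.Agent.F896b9
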