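import Pool.Agent.Work.MP_f896b9_an.Family

open Set Filter Topology
open scoped Ordinal
open scoped ENNReal NNReal

namespace Pool.Agent.F896b9

universe u v w

/-- The separation lemma for spaces `C(K)` with `K` countable and compact. -/
theorem two_le_cX_of_incompatible {K : Type v} [TopologicalSpace K] [CompactSpace K] [Countable K]
    {M : Type u} [MetricSpace M] {Z : Type} (z : Z → M) {ι : Type w} [Uncountable ι]
    (P Q : ι → Set Z) (hP : ∀ a, (P a).Nonempty) (hQ : ∀ a, (Q a).Nonempty)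
    (h1 : ∀ a, ∀ P0 Q0 : Finset Z, ↑P0 ⊆ P a → ↑Q0 ⊆ Q a →
      ∃ x y : M, (∀ i ∈ P0, dist x (z i) ≤ 1) ∧ (∀ j ∈ Q0, dist y (z j) ≤ 1) ∧ 4 ≤ dist x y)
    (h2 : ∀ a b, a ≠ b → (P a ∩ Q b).Nonempty ∨ (P b ∩ Q a).Nonempty) :
    2 ≤ cX C(K, ℝ) M := by
  classical
  obtain ⟨a0⟩ : Nonempty ι := by
    by_contra hcon
    rw [not_nonempty_iff] at hcon
    exact not_countable (α := ι) inferInstance
  have : Nontrivial M := by
    obtain ⟨x, y, -, -, h⟩ := h1 a0 ∅ ∅ (by simp) (by simp)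
    refine ⟨x, y, fun hxy => ?_⟩
    rw [hxy, dist_self] at h
    linarith
  have h2' : (2 : ℝ≥0∞) = ENNReal.ofReal 2 := by norm_num
  rw [h2']
  refine le_cX_of_forall fun f L C hL hC hLC hf1 hf2 => ?_
  set η : ℝ := 4 / C - 2 * L with hη
  have hη0 : 0 < η := by
    have : 2 * L < 4 / C := by
      rw [lt_div_iff₀ hC]
      nlinarith
    linarith
  -- a single pair
  have hpair : ∀ (P0 Q0 : Finset Z) (x y : M) (t : K), (∀ i ∈ P0, dist x (z i) ≤ 1) →
      (∀ j ∈ Q0, dist y (z j) ≤ 1) → 4 / C ≤ f x t - f y t →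
      ∀ i ∈ P0, ∀ j ∈ Q0, η ≤ f (z i) t - f (z j) t := by
    intro P0 Q0 x y t hx hy ht i hi j hj
    have e1 : |f x t - f (z i) t| ≤ L := by
      have := ContinuousMap.dist_apply_le_dist (f := f x) (g := f (z i)) t
      rw [Real.dist_eq] at this
      exact this.trans ((hf1 _ _).trans (by nlinarith [hx i hi]))
    have e2 : |f y t - f (z j) t| ≤ L := by
      have := ContinuousMap.dist_apply_le_dist (f := f y) (g := f (z j)) t
      rw [Real.dist_eq] at this
      exact this.trans ((hf1 _ _).trans (by nlinarith [hy j hj]))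
    rw [abs_le] at e1 e2
    linarith [e1.1, e1.2, e2.1, e2.2]
  have hpair' : ∀ (P0 Q0 : Finset Z) (x y : M) (t : K), (∀ i ∈ P0, dist x (z i) ≤ 1) →
      (∀ j ∈ Q0, dist y (z j) ≤ 1) → 4 / C ≤ f y t - f x t →
      ∀ i ∈ P0, ∀ j ∈ Q0, η ≤ f (z j) t - f (z i) t := by
    intro P0 Q0 x y t hx hy ht i hi j hj
    exact hpair Q0 P0 y x t hy hx ht j hj i hi
  -- finite sets
  have hfin : ∀ a, ∀ P0 Q0 : Finset Z, ↑P0 ⊆ P a → ↑Q0 ⊆ Q a → ∃ t : K,
      (∀ i ∈ P0, ∀ j ∈ Q0, η ≤ f (z i) t - f (z j) t) ∨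
      (∀ i ∈ P0, ∀ j ∈ Q0, η ≤ f (z j) t - f (z i) t) := by
    intro a P0 Q0 hP0 hQ0
    obtain ⟨x, y, hx, hy, hxy⟩ := h1 a P0 Q0 hP0 hQ0
    have hd : 4 / C ≤ dist (f x) (f y) := by
      rw [div_le_iff₀ hC, mul_comm]
      exact hxy.trans (hf2 x y)
    obtain ⟨t, hd⟩ : ∃ t, 4 / C ≤ |f x t - f y t| := by
      by_contra hcon
      push Not at hcon
      have := (ContinuousMap.dist_lt_iff (f := f x) (g := f y)
        (show 0 < 4 / C by positivity)).2 (fun t => by rw [Real.dist_eq]; exact hcon t)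
      linarith
    refine ⟨t, ?_⟩
    rcases le_abs.1 hd with h | h
    · exact Or.inl (hpair P0 Q0 x y t hx hy (by simpa using h))
    · exact Or.inr (hpair' P0 Q0 x y t hx hy (by linarith))
  -- infinite sets
  have hinf : ∀ a, ∃ t : K, (∀ i ∈ P a, ∀ j ∈ Q a, η ≤ f (z i) t - f (z j) t) ∨
      (∀ i ∈ P a, ∀ j ∈ Q a, η ≤ f (z j) t - f (z i) t) := by
    intro a
    by_contra hcon
    push Not at hcon
    let Tp : (P a × Q a) → Set K := fun q => {t | η ≤ f (z q.1) t - f (z q.2) t}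
    let Tm : (P a × Q a) → Set K := fun q => {t | η ≤ f (z q.2) t - f (z q.1) t}
    have hTp : ∀ q, IsClosed (Tp q) := fun q =>
      isClosed_le continuous_const ((f (z q.1)).continuous.sub (f (z q.2)).continuous)
    have hTm : ∀ q, IsClosed (Tm q) := fun q =>
      isClosed_le continuous_const ((f (z q.2)).continuous.sub (f (z q.1)).continuous)
    obtain ⟨s, hs⟩ := isCompact_univ.elim_finite_subfamily_closed Tp hTp (by
      rw [Set.eq_empty_iff_forall_notMem]
      rintro t ⟨-, ht⟩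
      rw [mem_iInter] at ht
      obtain ⟨⟨i, hi, j, hj, hij⟩, -⟩ := hcon t
      have := ht ⟨⟨i, hi⟩, ⟨j, hj⟩⟩
      exact absurd hij (not_lt.2 this))
    obtain ⟨s', hs'⟩ := isCompact_univ.elim_finite_subfamily_closed Tm hTm (by
      rw [Set.eq_empty_iff_forall_notMem]
      rintro t ⟨-, ht⟩
      rw [mem_iInter] at ht
      obtain ⟨-, ⟨i, hi, j, hj, hij⟩⟩ := hcon t
      have := ht ⟨⟨i, hi⟩, ⟨j, hj⟩⟩
      exact absurd hij (not_lt.2 this))
    let P0 : Finset Z := (s ∪ s').image (fun q => (q.1 : Z))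
    let Q0 : Finset Z := (s ∪ s').image (fun q => (q.2 : Z))
    obtain ⟨t, ht⟩ := hfin a P0 Q0 (by
      intro i hi
      simp only [P0, Finset.coe_image, mem_image] at hi
      obtain ⟨q, -, rfl⟩ := hi
      exact q.1.2) (by
      intro i hi
      simp only [Q0, Finset.coe_image, mem_image] at hi
      obtain ⟨q, -, rfl⟩ := hi
      exact q.2.2)
    rcases ht with ht | ht
    · rw [Set.eq_empty_iff_forall_notMem] at hs
      refine hs t ⟨mem_univ _, ?_⟩
      rw [mem_iInter₂]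
      intro q hq
      exact ht q.1 (Finset.mem_image.2 ⟨q, Finset.mem_union_left _ hq, rfl⟩)
        q.2 (Finset.mem_image.2 ⟨q, Finset.mem_union_left _ hq, rfl⟩)
    · rw [Set.eq_empty_iff_forall_notMem] at hs'
      refine hs' t ⟨mem_univ _, ?_⟩
      rw [mem_iInter₂]
      intro q hq
      exact ht q.1 (Finset.mem_image.2 ⟨q, Finset.mem_union_right _ hq, rfl⟩)
        q.2 (Finset.mem_image.2 ⟨q, Finset.mem_union_right _ hq, rfl⟩)
  -- rational threshold
  have hthr : ∀ (A B : Set Z) (g : Z → ℝ), A.Nonempty → B.Nonempty →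
      (∀ i ∈ A, ∀ j ∈ B, η ≤ g i - g j) → ∃ c : ℚ, (∀ i ∈ A, (c : ℝ) < g i) ∧
        ∀ j ∈ B, g j < (c : ℝ) := by
    intro A B g ⟨i0, hi0⟩ hB h
    have hbdd : BddAbove (g '' B) := by
      refine ⟨g i0, ?_⟩
      rintro _ ⟨j, hj, rfl⟩
      linarith [h i0 hi0 j hj]
    obtain ⟨c, hc1, hc2⟩ := exists_rat_btwn (show sSup (g '' B) < sSup (g '' B) + η by linarith)
    refine ⟨c, ?_, ?_⟩
    · intro i hi
      have : sSup (g '' B) ≤ g i - η := by
        refine csSup_le (hB.image g) ?_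
        rintro _ ⟨j, hj, rfl⟩
        linarith [h i hi j hj]
      linarith
    · intro j hj
      exact (le_csSup hbdd (mem_image_of_mem g hj)).trans_lt hc1
  have hdata : ∀ a, ∃ q : K × ℚ × Bool,
      (q.2.2 = true → (∀ i ∈ P a, (q.2.1 : ℝ) < f (z i) q.1) ∧ ∀ j ∈ Q a, f (z j) q.1 < q.2.1) ∧
      (q.2.2 = false → (∀ i ∈ Q a, (q.2.1 : ℝ) < f (z i) q.1) ∧
        ∀ j ∈ P a, f (z j) q.1 < q.2.1) := by
    intro a
    obtain ⟨t, ht | ht⟩ := hinf a
    · obtain ⟨c, hc1, hc2⟩ := hthr (P a) (Q a) (fun i => f (z i) t) (hP a) (hQ a) ht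
      exact ⟨⟨t, c, true⟩, fun _ => ⟨hc1, hc2⟩, fun h => by simp at h⟩
    · obtain ⟨c, hc1, hc2⟩ := hthr (Q a) (P a) (fun i => f (z i) t) (hQ a) (hP a)
        (fun i hi j hj => ht j hj i hi)
      exact ⟨⟨t, c, false⟩, fun h => by simp at h, fun _ => ⟨hc1, hc2⟩⟩
  choose q hq1 hq2 using hdata
  have hinj : Function.Injective q := by
    intro a b hab
    by_contra hne
    cases hs : (q a).2.2 with
    | true =>
      have h3 := hq1 a hs
      have hs' : (q b).2.2 = true := by rw [← hab]; exact hs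
      have h4 := hq1 b hs'
      rw [← hab] at h4
      rcases h2 a b hne with ⟨i, hi, hi'⟩ | ⟨i, hi, hi'⟩
      · exact absurd (h3.1 i hi) (not_lt.2 (h4.2 i hi').le)
      · exact absurd (h4.1 i hi) (not_lt.2 (h3.2 i hi').le)
    | false =>
      have h3 := hq2 a hs
      have hs' : (q b).2.2 = false := by rw [← hab]; exact hs
      have h4 := hq2 b hs'
      rw [← hab] at h4
      rcases h2 a b hne with ⟨i, hi, hi'⟩ | ⟨i, hi, hi'⟩
      · exact absurd (h3.2 i hi) (not_lt.2 (h4.1 i hi').le)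
      · exact absurd (h4.2 i hi) (not_lt.2 (h3.1 i hi').le)
  have : Countable ι := hinj.countable
  exact not_countable this

/-- For a countable ordinal `γ` the interval `[0, γ]` is countable. -/
theorem countable_Icc {γ : Ordinal.{0}} (hγ : γ < Ordinal.omega 1) :
    Countable (Set.Icc (0 : Ordinal.{0}) γ) := by
  have h1 : Order.succ γ < Ordinal.omega 1 := (Cardinal.isSuccLimit_omega 1).succ_lt hγ
  have h2 : Cardinal.mk (Iio (Order.succ γ)) ≤ Cardinal.aleph0 := by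
    rw [Cardinal.mk_Iio_ordinal, Cardinal.lift_le_aleph0]
    rw [Cardinal.lt_omega_iff_card_lt] at h1
    exact Cardinal.lt_aleph_one_iff.1 h1
  have h3 : Countable (Iio (Order.succ γ)) := Cardinal.mk_le_aleph0_iff.1 h2
  have h4 : Set.Icc (0 : Ordinal.{0}) γ ⊆ Iio (Order.succ γ) := fun x hx => Order.lt_succ_of_le hx.2
  exact (Set.Countable.mono h4 h3)

theorem omega_opow_lt {α : Ordinal.{0}} (hα : α < Ordinal.omega 1) :
    ω ^ α < Ordinal.omega 1 :=
  Ordinal.isPrincipal_opow_omega 1 Ordinal.omega0_lt_omega_one hα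

theorem countable_Icc_opow {α : Ordinal.{0}} (hα : α < Ordinal.omega 1) :
    Countable (Set.Icc (0 : Ordinal.{0}) (ω ^ α)) := countable_Icc (omega_opow_lt hα)

end Pool.Agent.F896b9
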