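import Pool.Agent.Work.MP_f896b9_an.Renorm
import Pool.Agent.Work.MP_f896b9_an.LowerCountable

open scoped ENNReal
open TopologicalSpace

namespace Pool.Agent.F896b9

section L1

variable {V : Type}

theorem l1_sum_le (w : lp (fun _ : V => ℝ) 1) (F : Finset V) : ∑ v ∈ F, |w v| ≤ ‖w‖ := by
  have := lp.sum_rpow_le_norm_rpow (p := 1) (by simp) w F
  simpa using this

theorem l1_summable (w : lp (fun _ : V => ℝ) 1) : Summable (fun v => |w v|) := by
  have := (lp.memℓp w).summable (by simp)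
  simpa using this

theorem l1_norm (w : lp (fun _ : V => ℝ) 1) : ‖w‖ = ∑' v, |w v| := by
  have := lp.norm_eq_tsum_rpow (p := 1) (by simp) w
  simpa using this

/-- `ℓ_1` has cotype 2. -/
theorem l1_cotype {n : ℕ} (x : Fin n → lp (fun _ : V => ℝ) 1) :
    ∑ i, ‖x i‖ ^ 2 ≤ (16 / 9) ^ 2 * radSq x := by
  set σ := Real.sqrt (∑ i, ‖x i‖ ^ 2) with hσ
  have hσ0 : 0 ≤ σ := Real.sqrt_nonneg _
  have hσ2 : σ ^ 2 = ∑ i, ‖x i‖ ^ 2 := Real.sq_sqrt (Finset.sum_nonneg fun i _ => sq_nonneg _)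
  set T : ℝ := (∑ ε : Fin n → ℤˣ, ‖∑ i, sg (ε i) • x i‖) / 2 ^ n with hT
  have hT0 : 0 ≤ T := by positivity
  have h2n : (0 : ℝ) < 2 ^ n := by positivity
  -- pointwise bound
  have hpt : ∀ v, ∑ i, ‖x i‖ * |x i v| ≤
      σ * ((16 / 9) / 2 ^ n * ∑ ε : Fin n → ℤˣ, |∑ i, sg (ε i) * x i v|) := by
    intro v
    have h1 : ∑ i, ‖x i‖ * |x i v| ≤ Real.sqrt (∑ i, ‖x i‖ ^ 2) * Real.sqrt (∑ i, |x i v| ^ 2) :=
      Real.sum_mul_le_sqrt_mul_sqrt _ _ _
    have h2 := khintchine n (fun i => x i v)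
    simp only [sq_abs] at h1
    refine h1.trans ?_
    rw [← hσ]
    refine mul_le_mul_of_nonneg_left ?_ hσ0
    rw [div_mul_eq_mul_div, le_div_iff₀ h2n]
    nlinarith
  have hsum1 : ∀ i, HasSum (fun v => ‖x i‖ * |x i v|) (‖x i‖ ^ 2) := by
    intro i
    have := (l1_summable (x i)).hasSum.mul_left ‖x i‖
    rwa [← l1_norm, ← sq] at this
  have hsum2 : HasSum (fun v => ∑ i, ‖x i‖ * |x i v|) (∑ i, ‖x i‖ ^ 2) :=
    hasSum_sum fun i _ => hsum1 i
  have hsum3 : ∀ ε : Fin n → ℤˣ, HasSum (fun v => |∑ i, sg (ε i) * x i v|)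
      ‖∑ i, sg (ε i) • x i‖ := by
    intro ε
    have h1 := l1_summable (∑ i, sg (ε i) • x i)
    have h2 := h1.hasSum
    rw [← l1_norm] at h2
    convert h2 using 2 with v
    congr 1
    rw [lp.coeFn_sum, Finset.sum_apply]
    rfl
  have hsum4 : HasSum (fun v => σ * ((16 / 9) / 2 ^ n *
      ∑ ε : Fin n → ℤˣ, |∑ i, sg (ε i) * x i v|)) (σ * ((16 / 9) / 2 ^ n *
      ∑ ε : Fin n → ℤˣ, ‖∑ i, sg (ε i) • x i‖)) :=
    ((hasSum_sum fun ε _ => hsum3 ε).mul_left _).mul_left _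
  have h5 := hasSum_le hpt hsum2 hsum4
  rw [← hσ2] at h5
  have h6 : σ ^ 2 ≤ σ * (16 / 9 * T) := by
    refine h5.trans (le_of_eq ?_)
    rw [hT]
    ring
  have h7 : σ ≤ 16 / 9 * T := by
    rcases hσ0.eq_or_lt with h0 | h0
    · rw [← h0]; positivity
    · rw [sq] at h6
      exact le_of_mul_le_mul_left h6 h0
  have h8 : T ^ 2 ≤ radSq x := avg_sq_le (fun ε => ‖∑ i, sg (ε i) • x i‖)
  rw [← hσ2]
  calc σ ^ 2 ≤ (16 / 9 * T) ^ 2 := by gcongr
    _ = (16 / 9) ^ 2 * T ^ 2 := by ring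
    _ ≤ _ := by gcongr

end L1

section CotSpace

/-- index set for the points -/
abbrev ZC : Type := ℕ × Bool
/-- index set for the functionals -/
abbrev IC : Type := Finset ZC × Finset ZC

theorem funC_bound (i : IC) (v : lp (fun _ : VV ZC IC => ℝ) 1) :
    |fun2 (fun i : IC => i.1) (fun i : IC => i.2) 1 i v| ≤ 4 * ‖v‖ := by
  classical
  rw [fun2_apply]
  have key : ∀ F : Finset ZC, ∑ a ∈ F, |v (Sum.inl a)| + |v (Sum.inr (i, true))| +
      |v (Sum.inr (i, false))| ≤ ‖v‖ := by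
    intro F
    have h1 := l1_sum_le v ((F.map Function.Embedding.inl) ∪
      {Sum.inr (i, true), Sum.inr (i, false)})
    rw [Finset.sum_union (by
      rw [Finset.disjoint_left]
      intro a ha hb
      simp only [Finset.mem_map, Function.Embedding.inl_apply] at ha
      obtain ⟨b, -, rfl⟩ := ha
      simp at hb), Finset.sum_map, Finset.sum_pair (by simp)] at h1
    simp only [Function.Embedding.inl_apply] at h1
    linarith
  have h1 := key i.1
  have h2 := key i.2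
  have h3 : |∑ a ∈ i.1, v (Sum.inl a)| ≤ ∑ a ∈ i.1, |v (Sum.inl a)| :=
    Finset.abs_sum_le_sum_abs _ _
  have h4 : |∑ a ∈ i.2, v (Sum.inl a)| ≤ ∑ a ∈ i.2, |v (Sum.inl a)| :=
    Finset.abs_sum_le_sum_abs _ _
  rw [abs_le] at h3 h4 ⊢
  have h5 := le_abs_self (v (Sum.inr (i, true)))
  have h6 := neg_abs_le (v (Sum.inr (i, true)))
  have h7 := le_abs_self (v (Sum.inr (i, false)))
  have h8 := neg_abs_le (v (Sum.inr (i, false)))
  constructor <;> linarith [h3.1, h3.2, h4.1, h4.2]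

/-- the cotype 2 space -/
noncomputable def EC : BanachSp :=
  ⟨ren (fun2 (fun i : IC => i.1) (fun i : IC => i.2) 1)⟩

theorem EC_mem : EC ∈ COT := by
  refine ⟨?_, 2, le_rfl, ?_⟩
  · have : SeparableSpace (lp (fun _ : VV ZC IC => ℝ) 1) := lp_separable (by simp)
    exact ren_separable 4 funC_bound (by norm_num)
  · refine ⟨4 * (16 / 9), ?_⟩
    intro n x
    change Fin n → ren (fun2 (fun i : IC => i.1) (fun i : IC => i.2) 1) at x
    have h1 : ∑ i, ‖x i‖ ^ 2 ≤ 16 * ∑ i, ‖(x i).1.2‖ ^ 2 := by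
      rw [Finset.mul_sum]
      refine Finset.sum_le_sum fun i _ => ?_
      have := ren_norm_le' 4 funC_bound (by norm_num) (x i)
      calc ‖x i‖ ^ 2 ≤ (4 * ‖(x i).1.2‖) ^ 2 := by gcongr
        _ = _ := by ring
    have h2 := l1_cotype (fun i => (x i).1.2)
    have h3 : radSq (fun i => (x i).1.2) ≤ radSq x := by
      unfold radSq
      gcongr with ε _
      have h4 : ∑ i, (((ε i : ℤˣ) : ℤ) : ℝ) • (x i).1.2 =
          (∑ i, (((ε i : ℤˣ) : ℤ) : ℝ) • x i : ren _).1.2 := by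
        rw [Submodule.coe_sum, Prod.snd_sum]
        rfl
      rw [h4]
      exact ren_norm_snd_le _
    have h5 : ∑ i, ‖x i‖ ^ 2 ≤ (4 * (16 / 9)) ^ 2 * radSq x := by
      calc _ ≤ 16 * ∑ i, ‖(x i).1.2‖ ^ 2 := h1
        _ ≤ 16 * ((16 / 9) ^ 2 * radSq x) := by
          gcongr
          exact h2.trans (by gcongr)
        _ = _ := by ring
    have h6 : ∑ i, ‖x i‖ ^ (2 : ℝ) = ∑ i, ‖x i‖ ^ 2 := by
      refine Finset.sum_congr rfl fun i _ => ?_
      exact Real.rpow_two _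
    change (∑ i, ‖x i‖ ^ (2 : ℝ)) ^ (1 / 2 : ℝ) ≤ 4 * (16 / 9) * (radSq x) ^ (1 / 2 : ℝ)
    rw [h6, ← Real.sqrt_eq_rpow, ← Real.sqrt_eq_rpow]
    calc Real.sqrt (∑ i, ‖x i‖ ^ 2) ≤ Real.sqrt ((4 * (16 / 9)) ^ 2 * radSq x) :=
          Real.sqrt_le_sqrt h5
      _ = _ := by
        rw [Real.sqrt_mul (by positivity), Real.sqrt_sq (by positivity)]

theorem uncountable_set_nat : Uncountable (Set ℕ) := by
  rw [uncountable_iff_not_countable]
  intro h
  obtain ⟨f, hf⟩ := h.exists_injective_nat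
  exact Function.cantor_injective f hf

theorem two_le_cX_EC {K : Type*} [TopologicalSpace K] [CompactSpace K] [Countable K] :
    2 ≤ cX C(K, ℝ) EC.carrier := by
  classical
  let z : ZC → EC.carrier := fun a =>
    toRen (ψ := fun2 (fun i : IC => i.1) (fun i : IC => i.2) 1) 4 funC_bound (hv 1 (Sum.inl a))
  let P : Set ℕ → Set ZC := fun S => {a | (a.1 ∈ S ∧ a.2 = true) ∨ (a.1 ∉ S ∧ a.2 = false)}
  have := uncountable_set_nat
  refine two_le_cX_of_incompatible (ι := Set ℕ) z P (fun S => (P S)ᶜ) ?_ ?_ ?_ ?_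
  · intro S
    by_cases h : 0 ∈ S
    · exact ⟨(0, true), Or.inl ⟨h, rfl⟩⟩
    · exact ⟨(0, false), Or.inr ⟨h, rfl⟩⟩
  · intro S
    by_cases h : 0 ∈ S
    · refine ⟨(0, false), ?_⟩
      simp [P, h]
    · refine ⟨(0, true), ?_⟩
      simp [P, h]
  · intro S P0 Q0 hP hQ
    have hd : ∀ a ∈ P0, a ∉ Q0 := fun a ha hb => hQ hb (hP ha)
    exact ⟨_, _, config (A := fun i : IC => i.1) (B := fun i : IC => i.2) (p := 1) 4
      funC_bound (P0, Q0) hd⟩
  · intro S S' hne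
    have : ∃ n, (n ∈ S ∧ n ∉ S') ∨ (n ∈ S' ∧ n ∉ S) := by
      by_contra hcon
      push Not at hcon
      exact hne (Set.ext fun n => ⟨(hcon n).1, (hcon n).2⟩)
    obtain ⟨n, h | h⟩ := this
    · refine Or.inl ⟨(n, true), Or.inl ⟨h.1, rfl⟩, ?_⟩
      simp [P, h.2]
    · refine Or.inr ⟨(n, true), Or.inl ⟨h.1, rfl⟩, ?_⟩
      simp [P, h.2]

end CotSpace

end Pool.Agent.F896b9
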