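import Mathlib

/-!
Definitions for MP_f896b9_an: distortion, the classes of separable Banach spaces of nontrivial
type, of nontrivial cotype and of separable superreflexive spaces, and the spaces `C([0, γ])`.
-/

open scoped ENNReal NNReal

namespace Pool.Agent.F896b9

universe u v

/-- The Lipschitz constant `Lip f` of a map between metric spaces, an element of `[0, ∞]`:
the supremum of `d (f x, f y) / d (x, y)` over the pairs `x ≠ y`. -/
noncomputable def lip {M : Type u} {X : Type v} [MetricSpace M] [MetricSpace X]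
    (f : M → X) : ℝ≥0∞ :=
  ⨆ (x : M) (y : M) (_ : x ≠ y), edist (f x) (f y) / edist x y

/-- The Lipschitz constant `Lip (f⁻¹)` of the inverse of an injection between metric spaces:
the supremum of `d (x, y) / d (f x, f y)` over the pairs `x ≠ y`. -/
noncomputable def lipInv {M : Type u} {X : Type v} [MetricSpace M] [MetricSpace X]
    (f : M → X) : ℝ≥0∞ :=
  ⨆ (x : M) (y : M) (_ : x ≠ y), edist x y / edist (f x) (f y)

/-- The distortion `dist f = Lip f * Lip f⁻¹`. -/
noncomputable def distortion {M : Type u} {X : Type v} [MetricSpace M] [MetricSpace X]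
    (f : M → X) : ℝ≥0∞ :=
  lip f * lipInv f

/-- `cX X M = inf {dist f : f : M → X injective}`. -/
noncomputable def cX (X : Type v) [MetricSpace X] (M : Type u) [MetricSpace M] : ℝ≥0∞ :=
  ⨅ (f : M → X) (_ : Function.Injective f), distortion f

/-- A bundled real Banach space. -/
structure BanachSp where
  /-- the underlying type -/
  carrier : Type
  [nacg : NormedAddCommGroup carrier]
  [ns : NormedSpace ℝ carrier]
  [complete : CompleteSpace carrier]

attribute [instance] BanachSp.nacg BanachSp.ns BanachSp.complete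

/-- `cClass X 𝒞 = sup {cX X M : M ∈ 𝒞}` for a class `𝒞` of Banach spaces, each regarded as a
metric space with its norm metric. -/
noncomputable def cClass (X : Type v) [MetricSpace X] (𝒞 : Set BanachSp) : ℝ≥0∞ :=
  ⨆ (E : BanachSp) (_ : E ∈ 𝒞), cX X E.carrier

/-- The Rademacher average `𝔼 ‖∑ ε_i x_i‖²` over all choices of signs `ε_i = ±1`. -/
noncomputable def radSq {E : Type u} [NormedAddCommGroup E] [NormedSpace ℝ E] {n : ℕ}
    (x : Fin n → E) : ℝ :=
  (∑ ε : Fin n → ℤˣ, ‖∑ i, (((ε i : ℤˣ) : ℤ) : ℝ) • x i‖ ^ 2) / 2 ^ n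

/-- `E` has Rademacher type `p`: there is `T` with
`(𝔼 ‖∑ ε_i x_i‖²)^{1/2} ≤ T (∑ ‖x_i‖^p)^{1/p}` for all finite families `x_i` in `E`. -/
def HasType (E : Type u) [NormedAddCommGroup E] [NormedSpace ℝ E] (p : ℝ) : Prop :=
  ∃ T : ℝ, ∀ (n : ℕ) (x : Fin n → E), (radSq x) ^ (1 / 2 : ℝ) ≤ T * (∑ i, ‖x i‖ ^ p) ^ (1 / p)

/-- `E` has Rademacher cotype `q`: there is `T` with
`(∑ ‖x_i‖^q)^{1/q} ≤ T (𝔼 ‖∑ ε_i x_i‖²)^{1/2}` for all finite families `x_i` in `E`. -/
def HasCotype (E : Type u) [NormedAddCommGroup E] [NormedSpace ℝ E] (q : ℝ) : Prop :=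
  ∃ T : ℝ, ∀ (n : ℕ) (x : Fin n → E), (∑ i, ‖x i‖ ^ q) ^ (1 / q) ≤ T * (radSq x) ^ (1 / 2 : ℝ)

/-- `Y` is finitely representable in `E`: for every `ε > 0`, every finite-dimensional subspace
`F` of `Y` admits a linear map `T : F → E` with `‖y‖ ≤ ‖T y‖ ≤ (1 + ε) ‖y‖` on `F`. -/
def FinRep (Y : Type u) [NormedAddCommGroup Y] [NormedSpace ℝ Y]
    (E : Type v) [NormedAddCommGroup E] [NormedSpace ℝ E] : Prop :=
  ∀ ε : ℝ, 0 < ε → ∀ F : Submodule ℝ Y, FiniteDimensional ℝ F →
    ∃ T : F →ₗ[ℝ] E, ∀ y : F, ‖y‖ ≤ ‖T y‖ ∧ ‖T y‖ ≤ (1 + ε) * ‖y‖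

/-- `Y` is reflexive: the canonical map of `Y` into its bidual is onto. -/
def Reflexive (Y : Type u) [NormedAddCommGroup Y] [NormedSpace ℝ Y] : Prop :=
  Function.Surjective (NormedSpace.inclusionInDoubleDual ℝ Y)

/-- `E` is superreflexive: every Banach space finitely representable in `E` is reflexive. -/
def Superreflexive (E : Type) [NormedAddCommGroup E] [NormedSpace ℝ E] : Prop :=
  ∀ Y : BanachSp, FinRep Y.carrier E → Reflexive Y.carrier

/-- Separable Banach spaces with nontrivial type: type `p` for some `1 < p ≤ 2`. -/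
def TYP : Set BanachSp :=
  {E | TopologicalSpace.SeparableSpace E.carrier ∧ ∃ p : ℝ, 1 < p ∧ p ≤ 2 ∧ HasType E.carrier p}

/-- Separable Banach spaces with nontrivial cotype: cotype `q` for some `2 ≤ q < ∞`. -/
def COT : Set BanachSp :=
  {E | TopologicalSpace.SeparableSpace E.carrier ∧ ∃ q : ℝ, 2 ≤ q ∧ HasCotype E.carrier q}

/-- Separable superreflexive Banach spaces. -/
def SR : Set BanachSp :=
  {E | TopologicalSpace.SeparableSpace E.carrier ∧ Superreflexive E.carrier}

/-- `C([0, γ])`, the real continuous functions on the ordinal interval `[0, γ]` (order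
topology), with the sup norm. -/
abbrev COrd (γ : Ordinal.{0}) : Type 1 := C(Set.Icc (0 : Ordinal.{0}) γ, ℝ)

end Pool.Agent.F896b9
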