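import Pool.Agent.Work.MP_f896b9_an.Defs

open Ordinal Set Filter Topology

namespace Pool.Agent.F896b9

/-- Left subtraction of a fixed ordinal is continuous. -/
theorem continuous_sub_left (a : Ordinal.{0}) : Continuous (fun ξ : Ordinal.{0} => ξ - a) := by
  rw [OrderTopology.continuous_iff]
  intro b
  constructor
  · have : (fun ξ : Ordinal.{0} => ξ - a) ⁻¹' Ioi b = Ioi (a + b) := by
      ext ξ
      simp only [mem_preimage, mem_Ioi]
      exact lt_sub
    rw [this]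
    exact isOpen_Ioi
  · rcases eq_or_ne b 0 with rfl | hb
    · have : (fun ξ : Ordinal.{0} => ξ - a) ⁻¹' Iio 0 = ∅ := by
        ext ξ
        simp
      rw [this]
      exact isOpen_empty
    · have : (fun ξ : Ordinal.{0} => ξ - a) ⁻¹' Iio b = Iio (a + b) := by
        ext ξ
        simp only [mem_preimage, mem_Iio]
        constructor
        · intro h
          exact (le_add_sub ξ a).trans_lt (by gcongr)
        · intro h
          rcases le_total a ξ with h1 | h1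
          · rw [← Ordinal.add_sub_cancel_of_le h1] at h
            exact (add_lt_add_iff_left a).1 h
          · rw [Ordinal.sub_eq_zero_iff_le.2 h1]
            exact pos_iff_ne_zero.2 hb
      rw [this]
      exact isOpen_Iio

/-- Every ordinal strictly between `0` and `ω^(k+1)` lies in a block
`(ω^k * l, ω^k * (l+1)]`. -/
theorem exists_block (k : ℕ) {ξ : Ordinal.{0}} (h0 : ξ ≠ 0) (h1 : ξ < ω ^ (k + 1)) :
    ∃ l : ℕ, (ω : Ordinal.{0}) ^ k * l < ξ ∧ ξ ≤ ω ^ k * ((l + 1 : ℕ) : Ordinal.{0}) := by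
  classical
  rw [pow_succ, lt_mul_iff_of_isSuccLimit isSuccLimit_omega0] at h1
  obtain ⟨c, hc, hξ⟩ := h1
  obtain ⟨n, rfl⟩ := lt_omega0.1 hc
  have hex : ∃ n : ℕ, ξ ≤ ω ^ k * (n : Ordinal.{0}) := ⟨n, hξ.le⟩
  have hm := Nat.find_spec hex
  have hm' := fun m (hm : m < Nat.find hex) => Nat.find_min hex hm
  rcases Nat.eq_zero_or_pos (Nat.find hex) with h | h
  · rw [h] at hm
    simp at hm
    exact absurd hm h0
  · refine ⟨Nat.find hex - 1, not_le.1 (hm' _ (by omega)), ?_⟩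
    rwa [Nat.sub_add_cancel h]

theorem block_unique {k l l' : ℕ} {ξ : Ordinal.{0}} (h : (ω : Ordinal.{0}) ^ k * l < ξ)
    (h' : ξ ≤ ω ^ k * ((l' + 1 : ℕ) : Ordinal.{0})) : l ≤ l' := by
  have h1 := h.trans_le h'
  have h2 : ((l : ℕ) : Ordinal.{0}) < ((l' + 1 : ℕ) : Ordinal.{0}) := by
    by_contra hcon
    exact absurd h1 (not_lt.2 (mul_le_mul_right (not_lt.1 hcon) (ω ^ k)))
  have h3 : l < l' + 1 := by exact_mod_cast h2
  omega

theorem block_lt {k l : ℕ} :
    (ω : Ordinal.{0}) ^ k * ((l + 1 : ℕ) : Ordinal.{0}) < ω ^ (k + 1) := by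
  rw [pow_succ]
  exact mul_lt_mul_of_pos_left (natCast_lt_omega0 _) (pow_pos omega0_pos k)

/-- A continuous family indexed by the ordinals which only depends on the ordinal in
`[1, ω^k]`. -/
structure OrdFam {T : Type*} [TopologicalSpace T] (k : ℕ) (h : Ordinal.{0} → T) : Prop where
  cont : Continuous h
  zero : h 0 = h 1
  const : ∀ ξ, ω ^ k ≤ ξ → h ξ = h (ω ^ k)

theorem OrdFam.of_const {T : Type*} [TopologicalSpace T] (k : ℕ) (p : T) :
    OrdFam k (fun _ : Ordinal.{0} => p) :=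
  ⟨continuous_const, rfl, fun _ _ => rfl⟩

theorem OrdFam.comp {T S : Type*} [TopologicalSpace T] [TopologicalSpace S] {k : ℕ}
    {h : Ordinal.{0} → T} (hh : OrdFam k h) {φ : T → S} (hφ : Continuous φ) :
    OrdFam k (fun ξ => φ (h ξ)) :=
  ⟨hφ.comp hh.cont, by rw [hh.zero], fun ξ hξ => by rw [hh.const ξ hξ]⟩

/-- Gluing a sequence of families which converges to a point. -/
theorem OrdFam.glue {T : Type*} [TopologicalSpace T] {k : ℕ} (h : ℕ → Ordinal.{0} → T)
    (hh : ∀ l, OrdFam k (h l)) (p : T)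
    (hlim : ∀ U ∈ 𝓝 p, ∀ᶠ l in atTop, ∀ ξ, h l ξ ∈ U) :
    ∃ g : Ordinal.{0} → T, OrdFam (k + 1) g ∧ (∀ l ξ, ∃ ξ', g ξ' = h l ξ) ∧
      (∃ ξ', g ξ' = p) ∧ ∀ ξ', g ξ' = p ∨ ∃ l ξ, g ξ' = h l ξ := by
  classical
  let P : Ordinal.{0} → ℕ → Prop := fun ξ l =>
    (ω : Ordinal.{0}) ^ k * l < ξ ∧ ξ ≤ ω ^ k * ((l + 1 : ℕ) : Ordinal.{0})
  let g : Ordinal.{0} → T := fun ξ =>
    if H : ∃ l, P ξ l then h (Classical.choose H) (ξ - ω ^ k * (Classical.choose H : ℕ))
    else if ξ = 0 then h 0 1 else p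
  have hPu : ∀ ξ l l', P ξ l → P ξ l' → l = l' := fun ξ l l' h1 h2 =>
    le_antisymm (block_unique h1.1 h2.2) (block_unique h2.1 h1.2)
  have hg1 : ∀ ξ l, P ξ l → g ξ = h l (ξ - ω ^ k * (l : ℕ)) := by
    intro ξ l hl
    have H : ∃ l, P ξ l := ⟨l, hl⟩
    have := hPu _ _ _ (Classical.choose_spec H) hl
    simp only [g, dif_pos H]
    rw [this]
  have hP0 : ¬ ∃ l, P 0 l := by
    rintro ⟨l, hl, -⟩
    exact absurd hl (not_lt.2 bot_le)
  have hg0 : g 0 = h 0 1 := by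
    simp only [g, dif_neg hP0]
    simp
  have hPt : ∀ ξ, ω ^ (k + 1) ≤ ξ → ¬ ∃ l, P ξ l := by
    rintro ξ hξ ⟨l, -, hl⟩
    exact absurd (hl.trans_lt block_lt) (not_lt.2 hξ)
  have hωpos : ∀ j : ℕ, (0 : Ordinal.{0}) < ω ^ j := fun j => pow_pos omega0_pos j
  have hgt : ∀ ξ, ω ^ (k + 1) ≤ ξ → g ξ = p := by
    intro ξ hξ
    have : ξ ≠ 0 := (lt_of_lt_of_le (hωpos _) hξ).ne'
    simp only [g, dif_neg (hPt ξ hξ), if_neg this]
  have hcase : ∀ ξ, ξ = 0 ∨ ω ^ (k + 1) ≤ ξ ∨ ∃ l, P ξ l := by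
    intro ξ
    by_cases h0 : ξ = 0
    · exact Or.inl h0
    · rcases le_or_gt (ω ^ (k + 1)) ξ with h1 | h1
      · exact Or.inr (Or.inl h1)
      · exact Or.inr (Or.inr (exists_block k h0 h1))
  have hone : (1 : Ordinal.{0}) ≤ ω ^ k := Order.one_le_iff_pos.2 (hωpos k)
  have hP1 : P 1 0 := by
    constructor
    · simp
    · simpa using hone
  refine ⟨g, ⟨?_, ?_, ?_⟩, ?_, ?_, ?_⟩
  · -- continuity
    rw [continuous_iff_continuousAt]
    intro ξ
    rcases hcase ξ with rfl | hξ | ⟨l, hl⟩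
    · have : ({0} : Set Ordinal.{0}) ∈ 𝓝 (0 : Ordinal.{0}) := by
        have h1 : Iio (1 : Ordinal.{0}) ∈ 𝓝 (0 : Ordinal.{0}) :=
          isOpen_Iio.mem_nhds (by simp)
        have h2 : Iio (1 : Ordinal.{0}) = {0} := by
          ext x; simp
        rwa [h2] at h1
      intro U hU
      rw [Filter.mem_map]
      refine Filter.mem_of_superset this ?_
      intro x hx
      rw [mem_singleton_iff] at hx
      subst hx
      exact mem_of_mem_nhds (s := U) hU
    · intro U hU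
      rw [hgt ξ hξ] at hU
      obtain ⟨L, hL⟩ := eventually_atTop.1 (hlim U hU)
      have hm : Ioi ((ω : Ordinal.{0}) ^ k * ((L + 1 : ℕ) : Ordinal.{0})) ∈ 𝓝 ξ :=
        isOpen_Ioi.mem_nhds (lt_of_lt_of_le block_lt hξ)
      rw [Filter.mem_map]
      refine Filter.mem_of_superset hm ?_
      intro x hx
      rcases hcase x with rfl | hx1 | ⟨l, hl⟩
      · exact absurd (show (ω : Ordinal.{0}) ^ k * ((L + 1 : ℕ) : Ordinal.{0}) < 0 from hx)
          (not_lt.2 bot_le)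
      · show g x ∈ U
        rw [hgt x hx1]
        exact mem_of_mem_nhds hU
      · show g x ∈ U
        rw [hg1 x l hl]
        refine hL l ?_ _
        have := block_unique (l := L + 1) (l' := l) (k := k) hx hl.2
        omega
    · have hm : Ioc ((ω : Ordinal.{0}) ^ k * (l : Ordinal.{0}))
          (ω ^ k * ((l + 1 : ℕ) : Ordinal.{0})) ∈ 𝓝 ξ := by
        have : Ioc ((ω : Ordinal.{0}) ^ k * (l : Ordinal.{0}))
          (ω ^ k * ((l + 1 : ℕ) : Ordinal.{0})) = Ioo (ω ^ k * (l : Ordinal.{0}))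
            (Order.succ (ω ^ k * ((l + 1 : ℕ) : Ordinal.{0}))) := by
          ext x; simp
        rw [this]
        exact isOpen_Ioo.mem_nhds ⟨hl.1, Order.lt_succ_of_le hl.2⟩
      have hc : ContinuousAt (fun x => h l (x - ω ^ k * (l : ℕ))) ξ :=
        ((hh l).cont.comp (continuous_sub_left _)).continuousAt
      refine hc.congr ?_
      filter_upwards [hm] with x hx
      exact (hg1 x l hx).symm
  · rw [hg0, hg1 1 0 hP1]
    simp
  · intro ξ hξ
    rw [hgt ξ hξ, hgt _ le_rfl]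
  · intro l ξ
    -- reduce to `ξ ∈ [1, ω^k]`
    have key : ∀ η, 1 ≤ η → η ≤ ω ^ k → ∃ ξ', g ξ' = h l η := by
      intro η h1 h2
      refine ⟨ω ^ k * (l : ℕ) + η, ?_⟩
      have hP : P (ω ^ k * (l : ℕ) + η) l := by
        constructor
        · exact lt_add_of_pos_right _ (Order.one_le_iff_pos.1 h1)
        · rw [Nat.cast_succ, mul_add_one]
          gcongr
      rw [hg1 _ _ hP]
      rw [Ordinal.add_sub_cancel]
    rcases eq_or_ne ξ 0 with rfl | h0
    · rw [(hh l).zero]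
      exact key 1 le_rfl hone
    · rcases le_total ξ (ω ^ k) with h1 | h1
      · exact key ξ (Order.one_le_iff_pos.2 (pos_iff_ne_zero.2 h0)) h1
      · rw [(hh l).const ξ h1]
        exact key _ hone le_rfl
  · exact ⟨ω ^ (k + 1), hgt _ le_rfl⟩
  · intro ξ
    rcases hcase ξ with rfl | hξ | ⟨l, hl⟩
    · exact Or.inr ⟨0, 1, hg0⟩
    · exact Or.inl (hgt ξ hξ)
    · exact Or.inr ⟨l, _, hg1 ξ l hl⟩

/-- Gluing a countable collection of families which converges to a point. -/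
theorem OrdFam.glue_countable {T : Type*} [TopologicalSpace T] {k : ℕ} {ι : Type*} [Countable ι]
    (h : ι → Ordinal.{0} → T) (hh : ∀ i, OrdFam k (h i)) (p : T)
    (hlim : ∀ U ∈ 𝓝 p, ∀ᶠ i in cofinite, ∀ ξ, h i ξ ∈ U) :
    ∃ g : Ordinal.{0} → T, OrdFam (k + 1) g ∧ (∀ i ξ, ∃ ξ', g ξ' = h i ξ) ∧
      (∃ ξ', g ξ' = p) ∧ ∀ ξ', g ξ' = p ∨ ∃ i ξ, g ξ' = h i ξ := by
  classical
  obtain ⟨e, he⟩ := Countable.exists_injective_nat ι
  let h' : ℕ → Ordinal.{0} → T := fun l =>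
    if H : ∃ i, e i = l then h (Classical.choose H) else fun _ => p
  have h'1 : ∀ i, h' (e i) = h i := by
    intro i
    have H : ∃ j, e j = e i := ⟨i, rfl⟩
    have : Classical.choose H = i := he (Classical.choose_spec H)
    simp only [h', dif_pos H, this]
  have h'2 : ∀ l, (¬ ∃ i, e i = l) → h' l = fun _ => p := by
    intro l hl
    simp only [h', dif_neg hl]
  have h'3 : ∀ l, OrdFam k (h' l) := by
    intro l
    by_cases H : ∃ i, e i = l
    · obtain ⟨i, rfl⟩ := H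
      rw [h'1]
      exact hh i
    · rw [h'2 l H]
      exact OrdFam.of_const k p
  obtain ⟨g, hg, hg1, hg2, hg3⟩ := OrdFam.glue h' h'3 p (by
    intro U hU
    have hfin : {i | ¬ ∀ ξ, h i ξ ∈ U}.Finite := hlim U hU
    rw [← Nat.cofinite_eq_atTop]
    refine (hfin.image e).subset ?_
    intro l hl
    by_cases H : ∃ i, e i = l
    · obtain ⟨i, rfl⟩ := H
      refine ⟨i, ?_, rfl⟩
      simpa [h'1] using hl
    · exfalso
      apply hl
      intro ξ
      rw [h'2 l H]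
      exact mem_of_mem_nhds hU)
  refine ⟨g, hg, ?_, hg2, ?_⟩
  · intro i ξ
    obtain ⟨ξ', h1⟩ := hg1 (e i) ξ
    exact ⟨ξ', by rw [h1, h'1]⟩
  · intro ξ'
    rcases hg3 ξ' with h1 | ⟨l, ξ, h1⟩
    · exact Or.inl h1
    · by_cases H : ∃ i, e i = l
      · obtain ⟨i, rfl⟩ := H
        exact Or.inr ⟨i, ξ, by rw [h1, h'1]⟩
      · rw [h'2 l H] at h1
        exact Or.inl h1

end Pool.Agent.F896b9
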