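import Pool.Agent.Work.MP_f896b9_an.Basic
import Pool.Agent.Work.MP_f896b9_an.Ordinals

open Ordinal Set Filter Topology
open scoped ENNReal NNReal

namespace Pool.Agent.F896b9

universe u

/-- An ordinal family of 1-Lipschitz functions on `M` separating the points up to `D` embeds `M`
into `C([0, γ])` for all `γ ≥ ω^k`. -/
theorem cX_COrd_le {k : ℕ} {γ : Ordinal.{0}} (hγ : ω ^ k ≤ γ) {M : Type u} [MetricSpace M]
    (h : Ordinal.{0} → M → ℝ) (hh : OrdFam k h)
    (hlip : ∀ ξ x y, |h ξ x - h ξ y| ≤ dist x y) (D : ℝ)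
    (hsep : ∀ x y, x ≠ y → ∃ ξ, dist x y ≤ D * |h ξ x - h ξ y|) :
    cX (COrd γ) M ≤ ENNReal.ofReal D := by
  refine cX_le_of_family (K := Set.Icc (0 : Ordinal.{0}) γ) (fun t => h t.1)
    (fun t => hlip t.1) ?_ D ?_
  · intro z
    exact ((continuous_apply z).comp hh.cont).comp continuous_subtype_val
  · intro x y hxy
    obtain ⟨ξ, hξ⟩ := hsep x y hxy
    rcases le_total ξ (ω ^ k) with h1 | h1
    · exact ⟨⟨ξ, bot_le, h1.trans hγ⟩, hξ⟩
    · rw [hh.const ξ h1] at hξ
      exact ⟨⟨ω ^ k, bot_le, hγ⟩, hξ⟩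

/-- Pointwise criterion for the convergence hypothesis of the gluing lemma. -/
theorem pi_limit_criterion {ι : Type*} {M : Type u} (h : ι → Ordinal.{0} → M → ℝ) (p : M → ℝ)
    (F : Filter ι)
    (hlim : ∀ w, ∀ δ > 0, ∀ᶠ i in F, ∀ ξ, |h i ξ w - p w| < δ) :
    ∀ U ∈ 𝓝 p, ∀ᶠ i in F, ∀ ξ, h i ξ ∈ U := by
  have ht : Tendsto (fun q : ι × Ordinal.{0} => h q.1 q.2) (comap Prod.fst F) (𝓝 p) := by
    rw [tendsto_pi_nhds]
    intro w
    rw [Metric.tendsto_nhds]
    intro δ hδ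
    rw [eventually_comap]
    filter_upwards [hlim w δ hδ] with i hi
    rintro ⟨j, ξ⟩ rfl
    simpa [Real.dist_eq] using hi ξ
  intro U hU
  have := ht hU
  rw [mem_map, mem_comap] at this
  obtain ⟨t, ht1, ht2⟩ := this
  filter_upwards [ht1] with i hi ξ
  exact ht2 (show (i, ξ) ∈ Prod.fst ⁻¹' t from hi)

/-- symmetric clipping of `u` at level `κ ≥ 0`. -/
noncomputable def clip (u κ : ℝ) : ℝ := max (-κ) (min u κ)

theorem clip_lip {u κ u' κ' : ℝ} {d : ℝ} (h1 : |u - u'| ≤ d) (h2 : |κ - κ'| ≤ d) :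
    |clip u κ - clip u' κ'| ≤ d := by
  unfold clip
  have := abs_max_sub_max_le_max (-κ) (min u κ) (-κ') (min u' κ')
  have h3 := abs_min_sub_min_le_max u κ u' κ'
  refine this.trans (max_le ?_ (h3.trans (max_le h1 h2)))
  rwa [show -κ - -κ' = -(κ - κ') by ring, abs_neg]

theorem clip_abs_le {u κ : ℝ} (hκ : 0 ≤ κ) : |clip u κ| ≤ κ := by
  unfold clip
  rw [abs_le]
  exact ⟨le_max_left _ _, max_le (by linarith) (min_le_right _ _)⟩

theorem clip_abs_le' {u κ : ℝ} (hκ : 0 ≤ κ) : |clip u κ| ≤ |u| := by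
  unfold clip
  rw [abs_le]
  constructor
  · rcases le_total u κ with h | h
    · rw [min_eq_left h]
      exact (neg_abs_le u).trans (le_max_right _ _)
    · rw [min_eq_right h]
      exact (neg_nonpos.2 (abs_nonneg u)).trans (hκ.trans (le_max_right _ _))
  · refine max_le ?_ ((min_le_left _ _).trans (le_abs_self u))
    linarith [abs_nonneg u]

theorem clip_eq {u κ : ℝ} (h : |u| ≤ κ) : clip u κ = u := by
  unfold clip
  rw [abs_le] at h
  rw [min_eq_left h.2, max_eq_right h.1]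

theorem clip_mono {u u' κ : ℝ} (h : u ≤ u') : clip u κ ≤ clip u' κ := by
  unfold clip
  exact max_le_max le_rfl (min_le_min h le_rfl)

theorem clip_sub_le {u κ d : ℝ} (hd : 0 ≤ d) (hκ : 0 ≤ κ) (h : |u| ≤ κ + d) :
    |clip u κ - u| ≤ d := by
  unfold clip
  rw [abs_le] at h ⊢
  rcases le_total u κ with h1 | h1
  · rw [min_eq_left h1]
    rcases le_total (-κ) u with h2 | h2
    · rw [max_eq_right h2]; constructor <;> linarith
    · rw [max_eq_left h2]; constructor <;> linarith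
  · rw [min_eq_right h1, max_eq_right (by linarith)]
    constructor <;> linarith

end Pool.Agent.F896b9
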