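import Pool.Agent.Work.MP_f896b9_an.Semi

namespace Pool.Agent.F896b9

/-- Grouping vectors of comparable size: from the estimate for families of bounded vectors to
type `16/15`. -/
theorem type_of_est {V : Type} [AddCommGroup V] [Module ℝ V] (p : Seminorm ℝ V) {C : ℝ}
    (hC : 0 ≤ C)
    (hest : ∀ (n : ℕ) (x : Fin n → V) (G : Finset (Fin n)), (∀ i, i ∉ G → x i = 0) →
      ∀ h : ℝ, 0 ≤ h → (∀ i, p (x i) ≤ h) → ∀ d : ℕ,
      ∑ ε : Fin n → ℤˣ, p (∑ i, sg (ε i) • x i) ^ 2 ≤
        2 ^ n * (C * ((G.card : ℝ) ^ 2 / 4 ^ d + 4 ^ (7 * d)) * h ^ 2)) :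
    ∀ (n : ℕ) (x : Fin n → V), ((∑ ε : Fin n → ℤˣ, p (∑ i, sg (ε i) • x i) ^ 2) / 2 ^ n) ^
      (1 / 2 : ℝ) ≤ Real.sqrt (4 * (C * (4 ^ 16 + 1))) *
        (∑ i, p (x i) ^ (16 / 15 : ℝ)) ^ (1 / (16 / 15 : ℝ)) := by
  classical
  intro n x
  have h2n : (0 : ℝ) < 2 ^ n := by positivity
  set q : ℝ := 16 / 15 with hq
  have hqp : 0 < q := by norm_num [hq]
  have hsgabs : ∀ e : ℤˣ, |sg e| = 1 := by
    intro e
    rcases Int.units_eq_one_or e with rfl | rfl <;> simp [sg]
  have hpsg : ∀ (e : ℤˣ) (v : V), p (sg e • v) = p v := by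
    intro e v
    rw [map_smul_eq_mul, Real.norm_eq_abs, hsgabs, one_mul]
  have hpsum : ∀ (v : Fin n → V) (s : Finset (Fin n)), p (∑ i ∈ s, v i) ≤ ∑ i ∈ s, p (v i) := by
    intro v s
    induction s using Finset.induction_on with
    | empty => simp
    | insert a s ha ih =>
      rw [Finset.sum_insert ha, Finset.sum_insert ha]
      exact (map_add_le_add p _ _).trans (by linarith)
  -- the normalised case
  have hnorm : ∀ y : Fin n → V, ∑ i, p (y i) ^ q ≤ 1 →
      ∑ ε : Fin n → ℤˣ, p (∑ i, sg (ε i) • y i) ^ 2 ≤ 2 ^ n * (4 * (C * (4 ^ 16 + 1))) := by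
    intro y hy
    set β : ℝ := (1 / 2) ^ 15 with hβ
    have hβ0 : 0 < β := by positivity
    have hβ1 : β < 1 := by norm_num [hβ]
    have hterm : ∀ i, p (y i) ^ q ≤ 1 := fun i =>
      (Finset.single_le_sum (f := fun i => p (y i) ^ q)
        (fun i _ => Real.rpow_nonneg (apply_nonneg p _) _) (Finset.mem_univ i)).trans hy
    have hle1 : ∀ i, p (y i) ≤ 1 := by
      intro i
      by_contra hcon
      push Not at hcon
      have := Real.one_lt_rpow hcon hqp
      linarith [hterm i]
    have hlev : ∀ i, 0 < p (y i) → ∃ k : ℕ, β ^ (k + 1) < p (y i) ∧ p (y i) ≤ β ^ k := by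
      intro i hi
      have hex : ∃ k : ℕ, β ^ (k + 1) < p (y i) := by
        obtain ⟨k, hk⟩ := exists_pow_lt_of_lt_one hi hβ1
        refine ⟨k, ?_⟩
        rw [pow_succ]
        have : 0 < β ^ k := by positivity
        nlinarith
      refine ⟨Nat.find hex, Nat.find_spec hex, ?_⟩
      rcases Nat.eq_zero_or_pos (Nat.find hex) with h | h
      · rw [h, pow_zero]; exact hle1 i
      · have h2 : Nat.find hex - 1 < Nat.find hex := by omega
        have := Nat.find_min hex h2
        have h3 : Nat.find hex - 1 + 1 = Nat.find hex := by omega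
        rw [h3] at this
        exact not_lt.1 this
    let lev : Fin n → ℕ := fun i => if hi : 0 < p (y i) then Classical.choose (hlev i hi) else 0
    have hlev1 : ∀ i, 0 < p (y i) → β ^ (lev i + 1) < p (y i) ∧ p (y i) ≤ β ^ (lev i) := by
      intro i hi
      simp only [lev, dif_pos hi]
      exact Classical.choose_spec (hlev i hi)
    let G : ℕ → Finset (Fin n) := fun k =>
      Finset.univ.filter (fun i => 0 < p (y i) ∧ lev i = k)
    let K : ℕ := (Finset.univ.sup lev) + 1
    have hlevK : ∀ i, lev i < K := fun i =>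
      Nat.lt_succ_of_le (Finset.le_sup (f := lev) (Finset.mem_univ i))
    -- cardinality of the groups
    have hcard : ∀ k, ((G k).card : ℝ) ≤ 2 ^ (16 * (k + 1)) := by
      intro k
      have e1 : ∀ i ∈ G k, (1 / 2 : ℝ) ^ (16 * (k + 1)) ≤ p (y i) ^ q := by
        intro i hi
        simp only [G, Finset.mem_filter, Finset.mem_univ, true_and] at hi
        obtain ⟨hi1, rfl⟩ := hi
        have h1 := (hlev1 i hi1).1
        have h2 : (β ^ (lev i + 1)) ^ q ≤ p (y i) ^ q :=
          Real.rpow_le_rpow (by positivity) h1.le hqp.le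
        refine le_trans (le_of_eq ?_) h2
        rw [hβ, ← pow_mul, ← Real.rpow_natCast, ← Real.rpow_natCast, ← Real.rpow_mul (by norm_num)]
        congr 1
        rw [hq]
        push_cast
        ring
      have e2 : ∑ i ∈ G k, (1 / 2 : ℝ) ^ (16 * (k + 1)) ≤ 1 := by
        refine (Finset.sum_le_sum e1).trans (le_trans ?_ hy)
        exact Finset.sum_le_sum_of_subset_of_nonneg (Finset.subset_univ _)
          (fun i _ _ => Real.rpow_nonneg (apply_nonneg p _) _)
      rw [Finset.sum_const, nsmul_eq_mul, one_div_pow, mul_one_div,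
        div_le_one (by positivity)] at e2
      exact e2
    let yk : ℕ → Fin n → V := fun k i => if i ∈ G k then y i else 0
    have hgroup : ∀ k, ∑ ε : Fin n → ℤˣ, p (∑ i, sg (ε i) • yk k i) ^ 2 ≤
        2 ^ n * (C * (4 ^ 16 + 1) * (1 / 4) ^ k) := by
      intro k
      have h1 := hest n (yk k) (G k) (fun i hi => by simp only [yk, if_neg hi]) (β ^ k)
        (by positivity) (fun i => by
          simp only [yk]
          split_ifs with hi
          · simp only [G, Finset.mem_filter, Finset.mem_univ, true_and] at hi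
            obtain ⟨hi1, rfl⟩ := hi
            exact (hlev1 i hi1).2
          · rw [map_zero]; positivity) (2 * k)
      refine h1.trans (mul_le_mul_of_nonneg_left ?_ h2n.le)
      have h2 : ((G k).card : ℝ) ^ 2 ≤ (2 ^ (16 * (k + 1))) ^ 2 := by
        have := hcard k
        gcongr
      have h3 : (β ^ k) ^ 2 = 1 / 4 ^ (15 * k) := by
        rw [hβ, ← pow_mul, ← pow_mul, one_div_pow, show 15 * (k * 2) = 2 * (15 * k) by ring,
          pow_mul]
        norm_num
      have h4 : ((2 : ℝ) ^ (16 * (k + 1))) ^ 2 = 4 ^ 16 * 4 ^ (16 * k) := by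
        rw [← pow_mul, ← pow_add, show 16 * (k + 1) * 2 = 2 * (16 + 16 * k) by ring, pow_mul]
        norm_num
      have h5 : ((G k).card : ℝ) ^ 2 / 4 ^ (2 * k) + 4 ^ (7 * (2 * k)) ≤
          4 ^ 16 * 4 ^ (14 * k) + 4 ^ (14 * k) := by
        refine add_le_add ?_ (le_of_eq (by congr 1; ring))
        rw [div_le_iff₀ (by positivity), mul_assoc, ← pow_add]
        refine h2.trans (le_of_eq ?_)
        rw [h4]
        congr 2
        ring
      calc C * (((G k).card : ℝ) ^ 2 / 4 ^ (2 * k) + 4 ^ (7 * (2 * k))) * (β ^ k) ^ 2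
          ≤ C * (4 ^ 16 * 4 ^ (14 * k) + 4 ^ (14 * k)) * (β ^ k) ^ 2 := by gcongr
        _ = C * (4 ^ 16 + 1) * (1 / 4) ^ k := by
          rw [h3, one_div_pow]
          rw [show (4 : ℝ) ^ (15 * k) = 4 ^ (14 * k) * 4 ^ k by rw [← pow_add]; congr 1; ring]
          field_simp
    have hdecomp : ∀ ε : Fin n → ℤˣ, p (∑ i, sg (ε i) • y i) ≤
        ∑ k ∈ Finset.range K, p (∑ i, sg (ε i) • yk k i) := by
      intro ε
      have e1 : ∑ i, sg (ε i) • y i = ∑ k ∈ Finset.range K, (∑ i, sg (ε i) • yk k i) +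
          ∑ i ∈ Finset.univ.filter (fun i => ¬ 0 < p (y i)), sg (ε i) • y i := by
        rw [Finset.sum_comm, Finset.sum_filter, ← Finset.sum_add_distrib]
        refine Finset.sum_congr rfl fun i _ => ?_
        rw [← Finset.smul_sum]
        by_cases hi : 0 < p (y i)
        · rw [if_neg (not_not.2 hi), add_zero]
          congr 1
          rw [Finset.sum_eq_single_of_mem (lev i) (Finset.mem_range.2 (hlevK i))]
          · simp [yk, G, hi]
          · intro k _ hk
            have : i ∉ G k := by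
              simp only [G, Finset.mem_filter, Finset.mem_univ, true_and, not_and]
              intro _ h
              exact hk h.symm
            simp only [yk, if_neg this]
        · rw [if_pos hi]
          have : ∑ k ∈ Finset.range K, yk k i = 0 := by
            refine Finset.sum_eq_zero fun k _ => ?_
            have : i ∉ G k := by
              simp only [G, Finset.mem_filter, Finset.mem_univ, true_and, not_and]
              intro h
              exact absurd h hi
            simp only [yk, if_neg this]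
          rw [this, smul_zero, zero_add]
      have e2 : p (∑ i ∈ Finset.univ.filter (fun i => ¬ 0 < p (y i)), sg (ε i) • y i) ≤ 0 := by
        refine (hpsum _ _).trans (le_of_eq (Finset.sum_eq_zero fun i hi => ?_))
        simp only [Finset.mem_filter, Finset.mem_univ, true_and, not_lt] at hi
        rw [hpsg]
        exact le_antisymm hi (apply_nonneg p _)
      rw [e1]
      refine (map_add_le_add p _ _).trans ?_
      have e3 : ∀ (f : ℕ → V) (s : Finset ℕ), p (∑ k ∈ s, f k) ≤ ∑ k ∈ s, p (f k) := by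
        intro f s
        induction s using Finset.induction_on with
        | empty => simp
        | insert a s ha ih =>
          rw [Finset.sum_insert ha, Finset.sum_insert ha]
          exact (map_add_le_add p _ _).trans (by linarith)
      have := e3 (fun k => ∑ i, sg (ε i) • yk k i) (Finset.range K)
      linarith
    have hsq : ∀ ε : Fin n → ℤˣ, p (∑ i, sg (ε i) • y i) ^ 2 ≤
        2 * ∑ k ∈ Finset.range K, 2 ^ k * p (∑ i, sg (ε i) • yk k i) ^ 2 := by
      intro ε
      have e1 := Finset.sum_sq_le_sum_mul_sum_of_sq_le_mul (Finset.range K)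
        (r := fun k => p (∑ i, sg (ε i) • yk k i)) (f := fun k => (1 / 2 : ℝ) ^ k)
        (g := fun k => 2 ^ k * p (∑ i, sg (ε i) • yk k i) ^ 2) (fun k _ => by positivity)
        (fun k _ => by positivity) (fun k _ => by
          rw [← mul_assoc, ← mul_pow]; norm_num)
      have e2 : ∑ k ∈ Finset.range K, (1 / 2 : ℝ) ^ k ≤ 2 := by
        have h1 := (summable_geometric_of_lt_one (r := (1 / 2 : ℝ)) (by norm_num)
          (by norm_num)).sum_le_tsum (Finset.range K) (fun k _ => by positivity)
        rw [tsum_geometric_of_lt_one (by norm_num) (by norm_num)] at h1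
        refine h1.trans (le_of_eq (by norm_num))
      calc p (∑ i, sg (ε i) • y i) ^ 2 ≤
          (∑ k ∈ Finset.range K, p (∑ i, sg (ε i) • yk k i)) ^ 2 := by
            have := hdecomp ε
            gcongr
        _ ≤ _ := e1
        _ ≤ _ := by gcongr
    calc ∑ ε : Fin n → ℤˣ, p (∑ i, sg (ε i) • y i) ^ 2
        ≤ ∑ ε : Fin n → ℤˣ, 2 * ∑ k ∈ Finset.range K, 2 ^ k * p (∑ i, sg (ε i) • yk k i) ^ 2 :=
          Finset.sum_le_sum fun ε _ => hsq ε
      _ = 2 * ∑ k ∈ Finset.range K, 2 ^ k *
          ∑ ε : Fin n → ℤˣ, p (∑ i, sg (ε i) • yk k i) ^ 2 := by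
          rw [← Finset.mul_sum, Finset.sum_comm]
          congr 1
          refine Finset.sum_congr rfl fun k _ => ?_
          rw [Finset.mul_sum]
      _ ≤ 2 * ∑ k ∈ Finset.range K, 2 ^ k * (2 ^ n * (C * (4 ^ 16 + 1) * (1 / 4) ^ k)) := by
          gcongr with k _
          exact hgroup k
      _ = 2 ^ n * (2 * (C * (4 ^ 16 + 1))) * ∑ k ∈ Finset.range K, (1 / 2 : ℝ) ^ k := by
          rw [Finset.mul_sum, Finset.mul_sum]
          refine Finset.sum_congr rfl fun k _ => ?_
          have : (2 : ℝ) ^ k * (1 / 4) ^ k = (1 / 2) ^ k := by rw [← mul_pow]; norm_num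
          rw [← this]
          ring
      _ ≤ 2 ^ n * (2 * (C * (4 ^ 16 + 1))) * 2 := by
          have h1 := (summable_geometric_of_lt_one (r := (1 / 2 : ℝ)) (by norm_num)
            (by norm_num)).sum_le_tsum (Finset.range K) (fun k _ => by positivity)
          rw [tsum_geometric_of_lt_one (by norm_num) (by norm_num)] at h1
          have h2 : (1 - (1 / 2 : ℝ))⁻¹ = 2 := by norm_num
          rw [h2] at h1
          gcongr
      _ = _ := by ring
  -- the general case
  set s : ℝ := ∑ i, p (x i) ^ q with hs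
  have hs0 : 0 ≤ s := Finset.sum_nonneg fun i _ => Real.rpow_nonneg (apply_nonneg p _) _
  rcases hs0.eq_or_lt with h0 | h0
  · have hx0 : ∀ i, p (x i) = 0 := by
      intro i
      have h1 := (Finset.sum_eq_zero_iff_of_nonneg
        (fun i _ => Real.rpow_nonneg (apply_nonneg p (x i)) q)).1 h0.symm i (Finset.mem_univ i)
      exact (Real.rpow_eq_zero (apply_nonneg p _) hqp.ne').1 h1
    have h1 : ∀ ε : Fin n → ℤˣ, p (∑ i, sg (ε i) • x i) ^ 2 = 0 := by
      intro ε
      have h2 : p (∑ i, sg (ε i) • x i) ≤ 0 := by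
        refine (hpsum _ _).trans (le_of_eq (Finset.sum_eq_zero fun i _ => ?_))
        rw [hpsg, hx0]
      rw [le_antisymm h2 (apply_nonneg p _)]
      norm_num
    rw [Finset.sum_congr rfl (fun ε _ => h1 ε), Finset.sum_const_zero, zero_div,
      Real.zero_rpow (by norm_num), ← h0]
    positivity
  · set σ : ℝ := s ^ (1 / q) with hσ
    have hσ0 : 0 < σ := Real.rpow_pos_of_pos h0 _
    have hσq : σ ^ q = s := by
      rw [hσ, ← Real.rpow_mul hs0, one_div_mul_cancel hqp.ne', Real.rpow_one]
    have h1 := hnorm (fun i => σ⁻¹ • x i) (by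
      have : ∀ i, p (σ⁻¹ • x i) ^ q = s⁻¹ * p (x i) ^ q := by
        intro i
        rw [map_smul_eq_mul, Real.norm_eq_abs, abs_of_pos (inv_pos.2 hσ0),
          Real.mul_rpow (inv_pos.2 hσ0).le (apply_nonneg p _), Real.inv_rpow hσ0.le, hσq]
      rw [Finset.sum_congr rfl (fun i _ => this i), ← Finset.mul_sum, ← hs,
        inv_mul_cancel₀ h0.ne'])
    have h2 : ∀ ε : Fin n → ℤˣ, p (∑ i, sg (ε i) • (σ⁻¹ • x i)) ^ 2 =
        (σ ^ 2)⁻¹ * p (∑ i, sg (ε i) • x i) ^ 2 := by
      intro ε
      have : ∑ i, sg (ε i) • (σ⁻¹ • x i) = σ⁻¹ • ∑ i, sg (ε i) • x i := by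
        rw [Finset.smul_sum]
        refine Finset.sum_congr rfl fun i _ => ?_
        rw [smul_comm]
      rw [this, map_smul_eq_mul, Real.norm_eq_abs, abs_of_pos (inv_pos.2 hσ0), mul_pow, inv_pow]
    rw [Finset.sum_congr rfl (fun ε _ => h2 ε), ← Finset.mul_sum,
      inv_mul_le_iff₀ (by positivity)] at h1
    rw [← Real.sqrt_eq_rpow]
    have h3 : (∑ ε : Fin n → ℤˣ, p (∑ i, sg (ε i) • x i) ^ 2) / 2 ^ n ≤
        (4 * (C * (4 ^ 16 + 1))) * σ ^ 2 := by
      rw [div_le_iff₀ h2n]
      linarith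
    refine (Real.sqrt_le_sqrt h3).trans (le_of_eq ?_)
    rw [Real.sqrt_mul (by positivity), Real.sqrt_sq hσ0.le]

end Pool.Agent.F896b9
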