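import Pool.Agent.Work.MP_f896b9_an.Ulim

open Filter Topology
open scoped InnerProductSpace

namespace Pool.Agent.F896b9

/-- type synonym -/
def Syn (Y : Type) : Type := Y

instance (Y : Type) [AddCommGroup Y] : AddCommGroup (Syn Y) := inferInstanceAs (AddCommGroup Y)
instance (Y : Type) [AddCommGroup Y] [Module ℝ Y] : Module ℝ (Syn Y) :=
  inferInstanceAs (Module ℝ Y)

/-- The identity as a linear equivalence. -/
def toSyn (Y : Type) [AddCommGroup Y] [Module ℝ Y] : Y ≃ₗ[ℝ] Syn Y := LinearEquiv.refl ℝ Y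

/-- A Banach space whose norm is equivalent to a Hilbertian norm is reflexive. -/
theorem reflexive_of_bilin {Y : Type} [NormedAddCommGroup Y] [NormedSpace ℝ Y] [CompleteSpace Y]
    (B : Y → Y → ℝ) (hadd : ∀ x y z, B (x + y) z = B x z + B y z)
    (hsmul : ∀ (c : ℝ) x y, B (c • x) y = c * B x y) (hsymm : ∀ x y, B x y = B y x)
    {m M : ℝ} (hm : 0 < m) (hlow : ∀ x, m * ‖x‖ ^ 2 ≤ B x x) (hup : ∀ x, B x x ≤ M * ‖x‖ ^ 2) :
    Reflexive Y := by
  let core : InnerProductSpace.Core ℝ (Syn Y) :=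
    { inner := fun x y => B ((toSyn Y).symm x) ((toSyn Y).symm y)
      conj_inner_symm := fun x y => by simpa using hsymm _ _
      re_inner_nonneg := fun x => by
        have := hlow ((toSyn Y).symm x)
        have h2 : 0 ≤ m * ‖(toSyn Y).symm x‖ ^ 2 := by positivity
        simpa using h2.trans this
      add_left := fun x y z => by
        change B ((toSyn Y).symm (x + y)) _ = _
        rw [map_add]
        exact hadd _ _ _
      smul_left := fun x y r => by
        change B ((toSyn Y).symm (r • x)) _ = _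
        rw [map_smul]
        exact (hsmul r _ _).trans (by simp)
      definite := fun x hx => by
        have := hlow ((toSyn Y).symm x)
        have h1 : B ((toSyn Y).symm x) ((toSyn Y).symm x) = 0 := hx
        have h2 : ‖(toSyn Y).symm x‖ ^ 2 ≤ 0 := by
          by_contra hcon
          push Not at hcon
          nlinarith
        have h3 : ‖(toSyn Y).symm x‖ = 0 := by nlinarith [norm_nonneg ((toSyn Y).symm x)]
        exact norm_eq_zero.1 h3 }
  let _ : NormedAddCommGroup (Syn Y) := core.toNormedAddCommGroup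
  let _ : InnerProductSpace ℝ (Syn Y) := InnerProductSpace.ofCore core.toCore
  let e := toSyn Y
  have hB : ∀ x y : Y, ⟪e x, e y⟫_ℝ = B x y := fun x y => rfl
  have hn : ∀ x : Y, ‖e x‖ ^ 2 = B x x := fun x => by
    rw [← real_inner_self_eq_norm_sq]
    exact hB x x
  have hM : 0 ≤ M ∨ ∀ x : Y, x = 0 := by
    by_contra hcon
    push Not at hcon
    obtain ⟨h1, x, hx⟩ := hcon
    have h2 := (hlow x).trans (hup x)
    have h3 : 0 < ‖x‖ ^ 2 := by positivity
    nlinarith
  have hup' : ∀ x : Y, ‖e x‖ ≤ Real.sqrt (|M|) * ‖x‖ := by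
    intro x
    have h1 : ‖e x‖ ^ 2 ≤ (Real.sqrt (|M|) * ‖x‖) ^ 2 := by
      rw [hn, mul_pow, Real.sq_sqrt (abs_nonneg _)]
      exact (hup x).trans (by gcongr; exact le_abs_self M)
    exact le_of_sq_le_sq h1 (by positivity)
  have hlow' : ∀ x : Syn Y, ‖e.symm x‖ ≤ Real.sqrt (1 / m) * ‖x‖ := by
    intro x
    have h1 : ‖e.symm x‖ ^ 2 ≤ (Real.sqrt (1 / m) * ‖x‖) ^ 2 := by
      rw [mul_pow, Real.sq_sqrt (by positivity)]
      have h2 := hn (e.symm x)
      rw [LinearEquiv.apply_symm_apply] at h2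
      rw [h2, div_mul_eq_mul_div, le_div_iff₀ hm, one_mul, mul_comm]
      exact hlow _
    exact le_of_sq_le_sq h1 (by positivity)
  let E : Y ≃L[ℝ] Syn Y := e.toContinuousLinearEquivOfBounds _ _ hup' hlow'
  have hE : ∀ x, E x = e x := fun x => rfl
  have : CompleteSpace (Syn Y) :=
    (completeSpace_congr (e := E.toEquiv) E.isUniformEmbedding).1 inferInstance
  intro ξ
  -- the functional `y ↦ ξ (B y ·)`
  let F : Syn Y →L[ℝ] StrongDual ℝ Y :=
    ((ContinuousLinearMap.compL ℝ Y (Syn Y) ℝ).flip (E : Y →L[ℝ] Syn Y)).comp (innerSL ℝ)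
  have hF : ∀ (y : Syn Y) (x : Y), F y x = ⟪y, E x⟫_ℝ := fun y x => rfl
  let g : StrongDual ℝ (Syn Y) := ξ.comp F
  let u : Syn Y := (InnerProductSpace.toDual ℝ (Syn Y)).symm g
  refine ⟨E.symm u, ?_⟩
  ext φ
  rw [NormedSpace.dual_def]
  let v : Syn Y := (InnerProductSpace.toDual ℝ (Syn Y)).symm (φ.comp (E.symm : Syn Y →L[ℝ] Y))
  have hφ : φ = F v := by
    ext x
    rw [hF]
    simp only [v]
    rw [InnerProductSpace.toDual_symm_apply]
    simp
  have h1 : ξ φ = ⟪u, v⟫_ℝ := by
    have : ξ φ = g v := by rw [hφ]; rfl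
    rw [this]
    simp only [u]
    rw [InnerProductSpace.toDual_symm_apply]
  have h2 : φ (E.symm u) = ⟪v, u⟫_ℝ := by
    rw [hφ, hF]
    simp
  rw [h1, h2, real_inner_comm]

/-- A space with an equivalent Hilbertian norm is superreflexive. -/
theorem superreflexive_of_hilbertian {E : Type} [NormedAddCommGroup E] [NormedSpace ℝ E]
    {H : Type} [NormedAddCommGroup H] [InnerProductSpace ℝ H] (w : E →ₗ[ℝ] H) (C : ℝ)
    (h1 : ∀ x, ‖w x‖ ≤ ‖x‖) (h2 : ∀ x, ‖x‖ ≤ C * ‖w x‖) : Superreflexive E := by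
  classical
  intro Y hY
  have hch : ∀ s : Finset Y.carrier, ∃ T : Y.carrier →ₗ[ℝ] E,
      ∀ y ∈ Submodule.span ℝ (s : Set Y.carrier), ‖y‖ ≤ ‖T y‖ ∧ ‖T y‖ ≤ 2 * ‖y‖ := by
    intro s
    obtain ⟨T, hT⟩ := hY 1 one_pos (Submodule.span ℝ (s : Set Y.carrier)) inferInstance
    obtain ⟨T', hT'⟩ := LinearMap.exists_extend T
    refine ⟨T', fun y hy => ?_⟩
    have h3 := hT ⟨y, hy⟩
    have h4 : T' y = T ⟨y, hy⟩ := by
      rw [← hT']
      rfl
    rw [h4]
    refine ⟨h3.1, h3.2.trans (le_of_eq ?_)⟩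
    norm_num
  choose T hT using hch
  let 𝒰 : Ultrafilter (Finset Y.carrier) := Ultrafilter.of atTop
  have h𝒰 : (𝒰 : Filter (Finset Y.carrier)) ≤ atTop := Ultrafilter.of_le _
  have hev : ∀ y : Y.carrier, ∀ᶠ s in (𝒰 : Filter (Finset Y.carrier)),
      ‖y‖ ≤ ‖T s y‖ ∧ ‖T s y‖ ≤ 2 * ‖y‖ := by
    intro y
    refine h𝒰 ?_
    filter_upwards [eventually_ge_atTop ({y} : Finset Y.carrier)] with s hs
    refine hT s y (Submodule.subset_span ?_)
    exact hs (Finset.mem_singleton_self y)
  let b : Y.carrier → Y.carrier → Finset Y.carrier → ℝ := fun x y s => ⟪w (T s x), w (T s y)⟫_ℝ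
  have hbd : ∀ x y, ∀ᶠ s in (𝒰 : Filter (Finset Y.carrier)), |b x y s| ≤ 4 * (‖x‖ * ‖y‖) := by
    intro x y
    filter_upwards [hev x, hev y] with s hx hy
    refine (abs_real_inner_le_norm _ _).trans ?_
    have e1 := (h1 (T s x)).trans hx.2
    have e2 := (h1 (T s y)).trans hy.2
    calc ‖w (T s x)‖ * ‖w (T s y)‖ ≤ (2 * ‖x‖) * (2 * ‖y‖) := by gcongr
      _ = _ := by ring
  have hlim : ∀ x y, Tendsto (b x y) 𝒰 (𝓝 (ulim 𝒰 (b x y))) := fun x y => tendsto_ulim (hbd x y)
  -- positivity of `C`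
  by_cases hC : 0 < C
  · refine reflexive_of_bilin (fun x y => ulim 𝒰 (b x y)) ?_ ?_ ?_ (m := 1 / C ^ 2) (M := 4)
      (by positivity) ?_ ?_
    · intro x y z
      refine ulim_eq ?_
      have := (hlim x z).add (hlim y z)
      refine this.congr fun s => ?_
      simp only [b]
      rw [map_add, map_add, inner_add_left]
    · intro c x y
      refine ulim_eq ?_
      have := (hlim x y).const_mul c
      refine this.congr fun s => ?_
      simp only [b]
      rw [map_smul, map_smul, real_inner_smul_left]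
    · intro x y
      refine ulim_eq ?_
      refine (hlim y x).congr fun s => ?_
      simp only [b]
      rw [real_inner_comm]
    · intro x
      refine ge_of_tendsto (hlim x x) ?_
      filter_upwards [hev x] with s hs
      simp only [b]
      rw [real_inner_self_eq_norm_sq]
      have h3 := hs.1.trans (h2 (T s x))
      rw [div_mul_eq_mul_div, one_mul, div_le_iff₀ (by positivity)]
      calc ‖x‖ ^ 2 ≤ (C * ‖w (T s x)‖) ^ 2 := by gcongr
        _ = _ := by ring
    · intro x
      refine le_of_tendsto (hlim x x) ?_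
      filter_upwards [hev x] with s hs
      simp only [b]
      rw [real_inner_self_eq_norm_sq]
      have h3 := (h1 (T s x)).trans hs.2
      calc ‖w (T s x)‖ ^ 2 ≤ (2 * ‖x‖) ^ 2 := by gcongr
        _ = _ := by ring
  · -- then `Y` is trivial
    have hE : ∀ x : E, ‖x‖ = 0 := by
      intro x
      have h3 := h2 x
      have h4 : C * ‖w x‖ ≤ 0 := mul_nonpos_of_nonpos_of_nonneg (not_lt.1 hC) (norm_nonneg _)
      exact le_antisymm (h3.trans h4) (norm_nonneg _)
    have hY0 : ∀ y : Y.carrier, ‖y‖ = 0 := by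
      intro y
      obtain ⟨s, hs⟩ := (hev y).exists
      have := hs.1
      rw [hE] at this
      exact le_antisymm this (norm_nonneg _)
    refine reflexive_of_bilin (fun _ _ => 0) (by simp) (by simp) (by simp) (m := 1) (M := 1)
      one_pos ?_ ?_
    · intro x; rw [hY0]; simp
    · intro x; rw [hY0]; simp

end Pool.Agent.F896b9
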