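import Pool.Agent.Work.MP_f896b9_an.Family

open Set Filter Topology
open scoped Ordinal
open scoped ENNReal NNReal

namespace Pool.Agent.F896b9

universe u

namespace KL

variable {M : Type u} [MetricSpace M] (z : ℕ → M) (ε : ℝ)

/-- capped distance to a point of the dense sequence -/
noncomputable def cap (r : ℝ) (x : M) (i : ℕ) : ℝ := min (dist x (z i)) (2 * r)

/-- discretised vector of capped distances -/
noncomputable def ty (r : ℝ) (N : ℕ) (x : M) : Fin (N + 2) → Fin (⌊2 / ε⌋₊ + 1) :=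
  fun i => Fin.ofNat (⌊2 / ε⌋₊ + 1) ⌊cap z r x i / (ε * r)⌋₊

theorem ty_eq {z : ℕ → M} {ε : ℝ} (hε : 0 < ε) {r : ℝ} (hr : 0 < r) {N : ℕ} {x x' : M}
    (h : ty z ε r N x = ty z ε r N x') {i : ℕ} (hi : i ≤ N + 1) :
    |cap z r x i - cap z r x' i| ≤ ε * r := by
  have h1 := congrFun h ⟨i, by omega⟩
  have hεr : 0 < ε * r := mul_pos hε hr
  have hb : ∀ y : M, ⌊cap z r y i / (ε * r)⌋₊ < ⌊2 / ε⌋₊ + 1 := by
    intro y
    refine Nat.lt_succ_of_le (Nat.floor_le_floor ?_)
    rw [div_le_div_iff₀ hεr hε]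
    have : cap z r y i ≤ 2 * r := min_le_right _ _
    nlinarith
  have h2 : ⌊cap z r x i / (ε * r)⌋₊ = ⌊cap z r x' i / (ε * r)⌋₊ := by
    have h3 := congrArg Fin.val h1
    simp only [ty, Fin.ofNat] at h3
    rwa [Nat.mod_eq_of_lt (hb x), Nat.mod_eq_of_lt (hb x')] at h3
  have hc : ∀ y : M, 0 ≤ cap z r y i := fun y => le_min dist_nonneg (by linarith)
  have e1 := Nat.floor_le (div_nonneg (hc x) hεr.le)
  have e2 := Nat.lt_floor_add_one (cap z r x i / (ε * r))
  have e3 := Nat.floor_le (div_nonneg (hc x') hεr.le)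
  have e4 := Nat.lt_floor_add_one (cap z r x' i / (ε * r))
  rw [h2] at e1 e2
  rw [le_div_iff₀ hεr] at e1 e3
  rw [div_lt_iff₀ hεr] at e2 e4
  rw [abs_le]
  constructor <;> nlinarith

/-- the set of points of a given discretised vector -/
def U (r : ℝ) (N : ℕ) (p : Fin (N + 2) → Fin (⌊2 / ε⌋₊ + 1)) : Set M := {x | ty z ε r N x = p}

/-- `ρ = r / 2 - 2 ε r` -/
noncomputable def rho (r : ℝ) : ℝ := r / 2 - 2 * ε * r

/-- `a` -/
noncomputable def aa (r : ℝ) (N : ℕ) (p : Fin (N + 2) → Fin (⌊2 / ε⌋₊ + 1)) : ℝ :=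
  min (rho ε r) ((Finset.range (N + 1)).inf' (Finset.nonempty_range_iff.2 N.succ_ne_zero)
    (fun i => Metric.infDist (z i) (U z ε r N p)))

/-- being an active parameter -/
def act (r : ℝ) (N : ℕ) (p q : Fin (N + 2) → Fin (⌊2 / ε⌋₊ + 1)) : Prop :=
  ∀ i ≤ N, rho ε r - aa z ε r N p ≤ Metric.infDist (z i) (U z ε r N q)

open Classical in
/-- the separating function -/
noncomputable def ff (r : ℝ) (N : ℕ) (p q : Fin (N + 2) → Fin (⌊2 / ε⌋₊ + 1)) (w : M) : ℝ :=
  if act z ε r N p q then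
    max (aa z ε r N p - Metric.infDist w (U z ε r N p))
      (min 0 (Metric.infDist w (U z ε r N q) - (rho ε r - aa z ε r N p)))
  else 0

/-- the clipped separating function -/
noncomputable def gg (r : ℝ) (N : ℕ) (p q : Fin (N + 2) → Fin (⌊2 / ε⌋₊ + 1)) (w : M) : ℝ :=
  clip (ff z ε r N p q w) (max 0 (min r (dist w (z 0) - ε * r)))

theorem infDist_lip (s : Set M) (w w' : M) :
    |Metric.infDist w s - Metric.infDist w' s| ≤ dist w w' := by
  have h1 : Metric.infDist w s ≤ Metric.infDist w' s + dist w w' :=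
    Metric.infDist_le_infDist_add_dist
  have h2 : Metric.infDist w' s ≤ Metric.infDist w s + dist w' w :=
    Metric.infDist_le_infDist_add_dist
  rw [dist_comm w' w] at h2
  rw [abs_le]
  constructor <;> linarith

theorem ff_lip (r : ℝ) (N : ℕ) (p q : Fin (N + 2) → Fin (⌊2 / ε⌋₊ + 1)) (w w' : M) :
    |ff z ε r N p q w - ff z ε r N p q w'| ≤ dist w w' := by
  unfold ff
  split_ifs with h
  · refine (abs_max_sub_max_le_max _ _ _ _).trans (max_le ?_ ?_)
    · rw [show aa z ε r N p - Metric.infDist w (U z ε r N p) -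
        (aa z ε r N p - Metric.infDist w' (U z ε r N p)) =
        -(Metric.infDist w (U z ε r N p) - Metric.infDist w' (U z ε r N p)) by ring, abs_neg]
      exact infDist_lip _ _ _
    · refine (abs_min_sub_min_le_max _ _ _ _).trans (max_le (by simp) ?_)
      rw [sub_sub_sub_cancel_right]
      exact infDist_lip _ _ _
  · simp

theorem ff_zero (r : ℝ) (N : ℕ) (p q : Fin (N + 2) → Fin (⌊2 / ε⌋₊ + 1)) {i : ℕ} (hi : i ≤ N) :
    ff z ε r N p q (z i) = 0 := by
  unfold ff
  split_ifs with h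
  · have h1 := h i hi
    have h2 : aa z ε r N p ≤ Metric.infDist (z i) (U z ε r N p) :=
      (min_le_right _ _).trans (Finset.inf'_le _ (by simpa using Nat.lt_succ_of_le hi))
    rw [min_eq_left (by linarith), max_eq_right (by linarith)]
  · rfl

theorem ff_abs_le (r : ℝ) (N : ℕ) (p q : Fin (N + 2) → Fin (⌊2 / ε⌋₊ + 1)) (w : M) {i : ℕ}
    (hi : i ≤ N) : |ff z ε r N p q w| ≤ dist w (z i) := by
  have := ff_lip z ε r N p q w (z i)
  rwa [ff_zero z ε r N p q hi, sub_zero] at this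

theorem gg_lip (r : ℝ) (N : ℕ) (p q : Fin (N + 2) → Fin (⌊2 / ε⌋₊ + 1)) (w w' : M) :
    |gg z ε r N p q w - gg z ε r N p q w'| ≤ dist w w' := by
  unfold gg
  refine clip_lip (ff_lip z ε r N p q w w') ?_
  refine (abs_max_sub_max_le_max _ _ _ _).trans (max_le (by simp) ?_)
  refine (abs_min_sub_min_le_max _ _ _ _).trans (max_le (by simp) ?_)
  rw [sub_sub_sub_cancel_right]
  exact abs_dist_sub_le _ _ _

variable {z ε}

/-- The separation property. -/
theorem sep (hz : DenseRange z) (hε : 0 < ε) (hε' : ε < 1 / 8) {r : ℝ} (hr : 0 < r) {x y : M}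
    (h1 : r ≤ dist x y) :
    ∃ (N : ℕ) (p q : Fin (N + 2) → Fin (⌊2 / ε⌋₊ + 1)),
      r / 2 - 4 * ε * r ≤ |gg z ε r N p q x - gg z ε r N p q y| := by
  classical
  have hεr : 0 < ε * r := mul_pos hε hr
  have hεr' : ε * r < r / 8 := by nlinarith
  let A : ℕ → Prop := fun N => ∀ i ≤ N, ∀ j ≤ N, r / 2 ≤ dist x (z i) + dist y (z j)
  have hA0 : A 0 := by
    intro i hi j hj
    obtain rfl : i = 0 := by omega
    obtain rfl : j = 0 := by omega
    have := dist_triangle_right x y (z 0)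
    linarith
  have hAex : ∃ N, ¬ A N := by
    obtain ⟨i, hi⟩ := hz.exists_dist_lt x (show 0 < r / 8 by linarith)
    obtain ⟨j, hj⟩ := hz.exists_dist_lt y (show 0 < r / 8 by linarith)
    refine ⟨max i j, fun h => ?_⟩
    have := h i (le_max_left _ _) j (le_max_right _ _)
    linarith
  have hN := Nat.find_spec hAex
  obtain ⟨N, hNeq⟩ : ∃ N, Nat.find hAex = N + 1 := by
    rcases Nat.eq_zero_or_pos (Nat.find hAex) with h | h
    · rw [h] at hN; exact absurd hA0 hN
    · exact ⟨Nat.find hAex - 1, by omega⟩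
  have hAN : A N := by
    by_contra hcon
    have := Nat.find_min' hAex hcon
    omega
  rw [hNeq] at hN
  simp only [A] at hN
  push Not at hN
  obtain ⟨i0, hi0, j0, hj0, hij⟩ := hN
  set p := ty z ε r N x with hp
  set q := ty z ε r N y with hq
  refine ⟨N, p, q, ?_⟩
  have hxU : x ∈ U z ε r N p := rfl
  have hyU : y ∈ U z ε r N q := rfl
  have hρ : 0 < rho ε r := by unfold rho; nlinarith
  have hle : ∀ (x₀ : M) (p₀) (_ : ty z ε r N x₀ = p₀) (i) (_ : i ≤ N),
      cap z r x₀ i - ε * r ≤ Metric.infDist (z i) (U z ε r N p₀) := by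
    intro x₀ p₀ hx₀ i hi
    rw [Metric.le_infDist ⟨x₀, hx₀⟩]
    intro x' hx'
    have h2 : ty z ε r N x₀ = ty z ε r N x' := by
      rw [hx₀]
      exact hx'.symm
    have h3 := ty_eq hε hr h2 (i := i) (by omega)
    have h4 : cap z r x' i ≤ dist (z i) x' := by
      rw [dist_comm]; exact min_le_left _ _
    rw [abs_le] at h3
    linarith [h3.2]
  -- activity
  have hact : act z ε r N p q := by
    intro i hi
    rcases min_choice (rho ε r) ((Finset.range (N + 1)).inf' (Finset.nonempty_range_iff.2 N.succ_ne_zero)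
      (fun i => Metric.infDist (z i) (U z ε r N p))) with h | h
    · have : aa z ε r N p = rho ε r := h
      rw [this, sub_self]
      exact Metric.infDist_nonneg
    · obtain ⟨j, hj, hj'⟩ := Finset.exists_mem_eq_inf' (Finset.nonempty_range_iff.2 N.succ_ne_zero)
        (fun i => Metric.infDist (z i) (U z ε r N p))
      have h2 : aa z ε r N p = Metric.infDist (z j) (U z ε r N p) := h.trans hj'
      rw [h2]
      have hjN : j ≤ N := by simpa [Nat.lt_succ_iff] using hj
      have h3 := hle x p rfl j hjN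
      have h4 := hle y q rfl i hi
      have h5 := hAN j hjN i hi
      have h6 : r / 2 ≤ cap z r x j + cap z r y i := by
        unfold cap
        rcases le_total (dist x (z j)) (2 * r) with h7 | h7 <;>
        rcases le_total (dist y (z i)) (2 * r) with h8 | h8
        · rw [min_eq_left h7, min_eq_left h8]; exact h5
        · rw [min_eq_right h8]
          have : 0 ≤ min (dist x (z j)) (2 * r) := le_min dist_nonneg (by linarith)
          linarith
        · rw [min_eq_right h7]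
          have : 0 ≤ min (dist y (z i)) (2 * r) := le_min dist_nonneg (by linarith)
          linarith
        · rw [min_eq_right h7, min_eq_right h8]; linarith
      unfold rho
      linarith
  have ha0 : 0 ≤ aa z ε r N p := by
    refine le_min hρ.le ?_
    rw [Finset.le_inf'_iff]
    intro i _
    exact Metric.infDist_nonneg
  have haρ : aa z ε r N p ≤ rho ε r := min_le_left _ _
  have hfx : ff z ε r N p q x = aa z ε r N p := by
    unfold ff
    rw [if_pos hact, Metric.infDist_zero_of_mem hxU, sub_zero]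
    exact max_eq_left ((min_le_left _ _).trans ha0)
  have hyx : rho ε r ≤ Metric.infDist y (U z ε r N p) := by
    rw [Metric.le_infDist ⟨x, hxU⟩]
    intro x' hx'
    have h2 : ty z ε r N x = ty z ε r N x' := by
      rw [← hp]; exact hx'.symm
    have hsum : dist x (z i0) < r / 4 ∨ dist y (z j0) < r / 4 := by
      by_contra hcon
      push Not at hcon
      linarith [hcon.1, hcon.2]
    rcases hsum with h3 | h3
    · have h4 := ty_eq hε hr h2 (i := i0) hi0
      rw [abs_le] at h4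
      have h5 : cap z r x i0 ≤ dist x (z i0) := min_le_left _ _
      have h6 : cap z r x' i0 ≤ dist x (z i0) + ε * r := by linarith [h4.1]
      have h7 : dist x' (z i0) ≤ dist x (z i0) + ε * r := by
        unfold cap at h6
        rcases min_le_iff.1 h6 with h8 | h8
        · exact h8
        · linarith
      have h8 := dist_triangle y x' (z i0)
      have h9 := dist_triangle_right x y (z i0)
      unfold rho
      nlinarith
    · have h4 := ty_eq hε hr h2 (i := j0) hj0
      rw [abs_le] at h4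
      have h9 := dist_triangle_right x y (z j0)
      have h5 : r - dist y (z j0) ≤ cap z r x j0 := by
        unfold cap
        refine le_min (by linarith) ?_
        have : 0 ≤ dist y (z j0) := dist_nonneg
        linarith
      have h6 : cap z r x' j0 ≤ dist x' (z j0) := min_le_left _ _
      have h7 := dist_triangle x' y (z j0)
      rw [dist_comm x' y] at h7
      unfold rho
      nlinarith [h4.2]
  have hfy : ff z ε r N p q y = -(rho ε r - aa z ε r N p) := by
    unfold ff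
    rw [if_pos hact, Metric.infDist_zero_of_mem hyU, zero_sub, min_eq_right (by linarith)]
    exact max_eq_right (by linarith)
  have hx0 : aa z ε r N p ≤ dist x (z 0) := by
    have h2 := ff_abs_le z ε r N p q x (i := 0) (by omega)
    rw [hfx, abs_of_nonneg ha0] at h2
    exact h2
  have hy0 : rho ε r - aa z ε r N p ≤ dist y (z 0) := by
    have h2 := ff_abs_le z ε r N p q y (i := 0) (by omega)
    rw [hfy, abs_neg, abs_of_nonneg (by linarith)] at h2
    exact h2
  have hρr : rho ε r ≤ r := by unfold rho; nlinarith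
  have hgx : |gg z ε r N p q x - aa z ε r N p| ≤ ε * r := by
    unfold gg
    rw [hfx]
    refine clip_sub_le hεr.le (le_max_left _ _) ?_
    rw [abs_of_nonneg ha0]
    have : min r (dist x (z 0) - ε * r) ≤ max 0 (min r (dist x (z 0) - ε * r)) := le_max_right _ _
    have h3 : aa z ε r N p - ε * r ≤ min r (dist x (z 0) - ε * r) :=
      le_min (by linarith) (by linarith)
    linarith
  have hgy : |gg z ε r N p q y - (-(rho ε r - aa z ε r N p))| ≤ ε * r := by
    unfold gg
    rw [hfy]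
    refine clip_sub_le hεr.le (le_max_left _ _) ?_
    rw [abs_neg, abs_of_nonneg (by linarith)]
    have : min r (dist y (z 0) - ε * r) ≤ max 0 (min r (dist y (z 0) - ε * r)) := le_max_right _ _
    have h3 : rho ε r - aa z ε r N p - ε * r ≤ min r (dist y (z 0) - ε * r) :=
      le_min (by linarith) (by linarith)
    linarith
  rw [abs_le] at hgx hgy
  have h10 : r / 2 - 4 * ε * r ≤ gg z ε r N p q x - gg z ε r N p q y := by
    have : rho ε r = r / 2 - 2 * ε * r := rfl
    nlinarith [hgx.1, hgx.2, hgy.1, hgy.2]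
  exact h10.trans (le_abs_self _)

/-- The family tends to zero pointwise. -/
theorem tends (hz : DenseRange z) (hε : 0 < ε) (w : M) {δ : ℝ} (hδ : 0 < δ) :
    {i : ℤ × (Σ N : ℕ, (Fin (N + 2) → Fin (⌊2 / ε⌋₊ + 1)) × (Fin (N + 2) → Fin (⌊2 / ε⌋₊ + 1))) |
      ¬ |gg z ε ((1 + ε) ^ i.1) i.2.1 i.2.2.1 i.2.2.2 w| < δ}.Finite := by
  have h1ε : (1 : ℝ) < 1 + ε := by linarith
  have hpos : ∀ n : ℤ, 0 < (1 + ε) ^ n := fun n => zpow_pos (by linarith) n
  obtain ⟨n1, hn1⟩ := pow_unbounded_of_one_lt (dist w (z 0) / ε) h1ε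
  obtain ⟨n0, hn0⟩ := pow_unbounded_of_one_lt (1 / δ) h1ε
  obtain ⟨i0, hi0⟩ := hz.exists_dist_lt w hδ
  let emb : (Σ N : Fin (i0 + 1), (Fin ((N : ℕ) + 2) → Fin (⌊2 / ε⌋₊ + 1)) ×
      (Fin ((N : ℕ) + 2) → Fin (⌊2 / ε⌋₊ + 1))) →
      (Σ N : ℕ, (Fin (N + 2) → Fin (⌊2 / ε⌋₊ + 1)) × (Fin (N + 2) → Fin (⌊2 / ε⌋₊ + 1))) :=
    fun a => ⟨(a.1 : ℕ), a.2⟩
  have hfin : ((Set.Icc (-(n0 : ℤ)) n1) ×ˢ (Set.range emb)).Finite :=
    (Set.finite_Icc _ _).prod (Set.finite_range _)
  refine hfin.subset ?_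
  rintro ⟨n, N, p, q⟩ h
  simp only [mem_setOf_eq, not_lt] at h
  have hκ : (0 : ℝ) ≤ max 0 (min ((1 + ε) ^ n) (dist w (z 0) - ε * (1 + ε) ^ n)) := le_max_left _ _
  have hA : |gg z ε ((1 + ε) ^ n) N p q w| ≤
      max 0 (min ((1 + ε) ^ n) (dist w (z 0) - ε * (1 + ε) ^ n)) := clip_abs_le hκ
  have hB : |gg z ε ((1 + ε) ^ n) N p q w| ≤ |ff z ε ((1 + ε) ^ n) N p q w| := clip_abs_le' hκ
  have hC : δ ≤ min ((1 + ε) ^ n) (dist w (z 0) - ε * (1 + ε) ^ n) := by
    rcases le_max_iff.1 (h.trans hA) with h2 | h2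
    · linarith
    · exact h2
  refine Set.mk_mem_prod ⟨?_, ?_⟩ ?_
  · have h2 := hC.trans (min_le_left _ _)
    by_contra hcon
    push Not at hcon
    have h3 : (1 + ε) ^ n ≤ (1 + ε) ^ (-(n0 : ℤ)) := zpow_le_zpow_right₀ h1ε.le hcon.le
    rw [zpow_neg, zpow_natCast] at h3
    have h4 : ((1 + ε) ^ n0)⁻¹ < δ := by
      rw [inv_lt_comm₀ (pow_pos (by linarith) _) hδ, inv_eq_one_div]
      exact hn0
    linarith
  · have h2 := hC.trans (min_le_right _ _)
    by_contra hcon
    push Not at hcon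
    have h3 : (1 + ε) ^ (n1 : ℤ) ≤ (1 + ε) ^ n := zpow_le_zpow_right₀ h1ε.le hcon.le
    rw [zpow_natCast] at h3
    rw [div_lt_iff₀ hε] at hn1
    nlinarith
  · have hNi : N < i0 + 1 := by
      by_contra hcon
      have h2 := ff_abs_le z ε ((1 + ε) ^ n) N p q w (i := i0) (by omega)
      linarith
    exact ⟨⟨⟨N, hNi⟩, p, q⟩, rfl⟩

end KL

/-- The upper bound 2 (Kalton and Lancien) for every separable metric space. -/
theorem cX_COrd_le_two {γ : Ordinal.{0}} (hγ : ω ≤ γ) (M : Type u) [MetricSpace M] [Nonempty M]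
    [TopologicalSpace.SeparableSpace M] : cX (COrd γ) M ≤ 2 := by
  obtain ⟨z, hz⟩ := TopologicalSpace.exists_dense_seq M
  have key : ∀ ε : ℝ, 0 < ε → ε < 1 / 8 →
      cX (COrd γ) M ≤ ENNReal.ofReal ((1 + ε) / (1 / 2 - 4 * ε)) := by
    intro ε hε hε'
    obtain ⟨g, hg, hg1, hg2, hg3⟩ := OrdFam.glue_countable (k := 0)
      (ι := ℤ × (Σ N : ℕ, (Fin (N + 2) → Fin (⌊2 / ε⌋₊ + 1)) × (Fin (N + 2) → Fin (⌊2 / ε⌋₊ + 1))))
      (fun i _ => KL.gg z ε ((1 + ε) ^ i.1) i.2.1 i.2.2.1 i.2.2.2)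
      (fun i => OrdFam.of_const 0 _) (fun _ => (0 : ℝ)) (by
        refine pi_limit_criterion _ _ _ ?_
        intro w δ hδ
        have := KL.tends hz hε w hδ
        refine this.subset ?_
        intro i hi
        simp only [mem_compl_iff, mem_setOf_eq] at hi ⊢
        intro h
        apply hi
        intro _
        simpa using h)
    refine cX_COrd_le (k := 0 + 1) (by simpa using hγ) g hg ?_ _ ?_
    · intro ξ x y
      rcases hg3 ξ with h | ⟨i, ξ', h⟩
      · rw [h]; simp
      · rw [h]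
        exact KL.gg_lip z ε _ _ _ _ x y
    · intro x y hxy
      have hd : 0 < dist x y := dist_pos.2 hxy
      obtain ⟨n, hn1, hn2⟩ := exists_mem_Ico_zpow hd (show 1 < 1 + ε by linarith)
      have hr : 0 < (1 + ε) ^ n := zpow_pos (by linarith) n
      obtain ⟨N, p, q, h⟩ := KL.sep hz hε hε' hr hn1
      obtain ⟨ξ', hξ'⟩ := hg1 ⟨n, N, p, q⟩ 0
      refine ⟨ξ', ?_⟩
      rw [hξ']
      have h2 : 0 < 1 / 2 - 4 * ε := by linarith
      rw [div_mul_eq_mul_div, le_div_iff₀ h2]
      rw [zpow_add_one₀ (by linarith)] at hn2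
      have h3 : (1 + ε) ^ n * (1 / 2 - 4 * ε) ≤
          |KL.gg z ε ((1 + ε) ^ n) N p q x - KL.gg z ε ((1 + ε) ^ n) N p q y| := by
        linarith
      calc dist x y * (1 / 2 - 4 * ε) ≤ ((1 + ε) ^ n * (1 + ε)) * (1 / 2 - 4 * ε) := by
            gcongr
        _ = (1 + ε) * ((1 + ε) ^ n * (1 / 2 - 4 * ε)) := by ring
        _ ≤ _ := by gcongr
  have hlim : Tendsto (fun ε : ℝ => ENNReal.ofReal ((1 + ε) / (1 / 2 - 4 * ε))) (𝓝[>] 0)
      (𝓝 (ENNReal.ofReal ((1 + 0) / (1 / 2 - 4 * 0)))) := by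
    refine ENNReal.tendsto_ofReal ?_
    refine tendsto_nhdsWithin_of_tendsto_nhds ?_
    have : ContinuousAt (fun ε : ℝ => (1 + ε) / (1 / 2 - 4 * ε)) 0 := by
      refine ContinuousAt.div (by fun_prop) (by fun_prop) (by norm_num)
    exact this
  have h2 : ENNReal.ofReal ((1 + 0) / (1 / 2 - 4 * 0)) = 2 := by norm_num
  rw [h2] at hlim
  refine ge_of_tendsto hlim ?_
  filter_upwards [Ioo_mem_nhdsGT (show (0 : ℝ) < 1 / 8 by norm_num)] with ε hε
  exact key ε hε.1 hε.2

end Pool.Agent.F896b9
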