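import Pool.Agent.Work.MP_f896b9_an.Family

open Set Filter Topology
open scoped Ordinal
open scoped ENNReal NNReal

namespace Pool.Agent.F896b9

universe u v

/-- A rank notion for subsets of a topological space: `Small 0 S` says `S = ∅` and
`Small (n+1) S` says that off every open set containing a certain finite set, `S` has
`Small n`. -/
def Small {K : Type v} [TopologicalSpace K] : ℕ → Set K → Prop
  | 0, S => S = ∅
  | n + 1, S => ∃ F : Set K, F.Finite ∧ ∀ U, IsOpen U → F ⊆ U → Small n (S \ U)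

theorem Small.mono {K : Type v} [TopologicalSpace K] {n : ℕ} {S S' : Set K} (h : Small n S)
    (hS : S' ⊆ S) : Small n S' := by
  induction n generalizing S S' with
  | zero =>
    change S = ∅ at h
    change S' = ∅
    rw [h] at hS
    exact subset_empty_iff.1 hS
  | succ n ih =>
    obtain ⟨F, hF, h⟩ := h
    exact ⟨F, hF, fun U hU hFU => ih (h U hU hFU) (sdiff_subset_sdiff_left hS)⟩

theorem Small.union {K : Type v} [TopologicalSpace K] {n : ℕ} {S S' : Set K} (h : Small n S)
    (h' : Small n S') : Small n (S ∪ S') := by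
  induction n generalizing S S' with
  | zero =>
    change S = ∅ at h
    change S' = ∅ at h'
    change S ∪ S' = ∅
    rw [h, h', union_empty]
  | succ n ih =>
    obtain ⟨F, hF, h⟩ := h
    obtain ⟨F', hF', h'⟩ := h'
    refine ⟨F ∪ F', hF.union hF', fun U hU hFU => ?_⟩
    rw [union_sdiff_distrib]
    exact ih (h U hU (subset_union_left.trans hFU)) (h' U hU (subset_union_right.trans hFU))

theorem Small.empty {K : Type v} [TopologicalSpace K] (n : ℕ) : Small n (∅ : Set K) := by
  induction n with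
  | zero => rfl
  | succ n ih => exact ⟨∅, finite_empty, fun U _ _ => by simpa using ih⟩

theorem Small.of_finite {K : Type v} [TopologicalSpace K] (n : ℕ) {S : Set K} (hS : S.Finite) :
    Small (n + 1) S :=
  ⟨S, hS, fun U _ h => by rw [sdiff_eq_empty.2 h]; exact Small.empty n⟩

theorem small_Icc_mul {k : ℕ} (h : ∀ a : Ordinal.{0}, Small (k + 1) (Icc a (a + ω ^ k)))
    (a : Ordinal.{0}) (N : ℕ) : Small (k + 1) (Icc a (a + ω ^ k * (N : Ordinal.{0}))) := by
  induction N with
  | zero =>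
    refine Small.of_finite k ?_
    simp
  | succ N ih =>
    refine (ih.union (h (a + ω ^ k * (N : Ordinal.{0})))).mono ?_
    intro x hx
    rcases le_total x (a + ω ^ k * (N : Ordinal.{0})) with h1 | h1
    · exact Or.inl ⟨hx.1, h1⟩
    · refine Or.inr ⟨h1, ?_⟩
      have := hx.2
      rwa [Nat.cast_succ, mul_add_one, ← add_assoc] at this

theorem small_Icc (k : ℕ) (a : Ordinal.{0}) : Small (k + 1) (Icc a (a + ω ^ k)) := by
  induction k generalizing a with
  | zero =>
    refine Small.of_finite 0 ?_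
    refine (Set.toFinite {a, a + 1}).subset ?_
    intro x hx
    rw [pow_zero] at hx
    rcases hx.1.eq_or_lt with h | h
    · exact Or.inl h.symm
    · exact Or.inr (le_antisymm hx.2 (Order.add_one_le_of_lt h))
  | succ k ih =>
    refine ⟨{a + ω ^ (k + 1)}, finite_singleton _, fun U hU hFU => ?_⟩
    have hb : a + ω ^ (k + 1) ∈ U := hFU rfl
    have hpos : a < a + ω ^ (k + 1) := lt_add_of_pos_right a (pow_pos Ordinal.omega0_pos _)
    obtain ⟨c, hc, hcU⟩ := exists_Ioc_subset_of_mem_nhds (hU.mem_nhds hb) ⟨a, hpos⟩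
    obtain ⟨m, hm⟩ : ∃ m : ℕ, c < a + ω ^ k * (m : Ordinal.{0}) := by
      rcases lt_or_ge c a with h | h
      · exact ⟨0, by simpa using h⟩
      · rw [← Ordinal.add_sub_cancel_of_le h, add_lt_add_iff_left, pow_succ,
          Ordinal.lt_mul_iff_of_isSuccLimit Ordinal.isSuccLimit_omega0] at hc
        obtain ⟨d, hd, hd'⟩ := hc
        obtain ⟨m, rfl⟩ := Ordinal.lt_omega0.1 hd
        refine ⟨m, ?_⟩
        rw [← Ordinal.add_sub_cancel_of_le h, add_lt_add_iff_left]
        exact hd'
    refine (small_Icc_mul ih a m).mono ?_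
    rintro x ⟨hx, hxU⟩
    refine ⟨hx.1, ?_⟩
    by_contra hcon
    push Not at hcon
    exact hxU (hcU ⟨hm.trans hcon, hx.2⟩)

theorem Small.preimage_val {K : Type v} [TopologicalSpace K] {C : Set K} (hC : IsClosed C) {n : ℕ}
    {S : Set K} (h : Small n S) : Small n ((↑) ⁻¹' S : Set C) := by
  induction n generalizing S with
  | zero =>
    change S = ∅ at h
    change ((↑) ⁻¹' S : Set C) = ∅
    rw [h, preimage_empty]
  | succ n ih =>
    obtain ⟨F, hF, h⟩ := h
    refine ⟨(↑) ⁻¹' F, hF.preimage Subtype.val_injective.injOn, fun U hU hFU => ?_⟩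
    obtain ⟨V, hV, rfl⟩ := isOpen_induced_iff.1 hU
    refine (ih (h (V ∪ Cᶜ) (hV.union hC.isOpen_compl) ?_)).mono ?_
    · intro x hx
      by_cases hxC : x ∈ C
      · exact Or.inl (hFU (show (⟨x, hxC⟩ : C) ∈ (↑) ⁻¹' F from hx))
      · exact Or.inr hxC
    · rintro ⟨x, hxC⟩ ⟨hx1, hx2⟩
      refine ⟨hx1, ?_⟩
      rintro (h3 | h3)
      · exact hx2 h3
      · exact h3 hxC

/-- `[0, ω^k]` has rank `k + 1`. -/
theorem small_univ_Icc (k : ℕ) :
    Small (k + 1) (univ : Set (Set.Icc (0 : Ordinal.{0}) (ω ^ k))) := by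
  have h := (small_Icc k 0).preimage_val (C := Set.Icc (0 : Ordinal.{0}) (ω ^ k)) isClosed_Icc
  rw [_root_.zero_add] at h
  refine h.mono ?_
  intro x _
  exact x.2

/-- Pigeonhole along the levels. -/
theorem exists_pairs {K : Type v} [TopologicalSpace K] {n : ℕ} {S : Set K} (hS : Small n S)
    (g : Fin n → ℕ → K → ℝ) (hg : ∀ m i, Continuous (g m i)) (B : ℝ)
    (hB : ∀ m i j t, |g m i t - g m j t| ≤ B) {η : ℝ} (hη : 0 < η) :
    ∃ i j : Fin n → ℕ, (∀ m, i m ≠ j m) ∧ ∀ t ∈ S, ∃ m, |g m (i m) t - g m (j m) t| < η := by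
  induction n generalizing S with
  | zero =>
    change S = ∅ at hS
    subst hS
    exact ⟨fun _ => 0, fun _ => 0, fun m => m.elim0, fun t ht => absurd ht (notMem_empty t)⟩
  | succ n ih =>
    obtain ⟨F, hF, h⟩ := hS
    have hFf : Finite F := hF
    -- pigeonhole
    let q : ℕ → F → Set.Icc (⌊-B / η⌋) (⌊B / η⌋) := fun i t =>
      ⟨⌊(g 0 i t - g 0 0 t) / η⌋, by
        have := abs_le.1 (hB 0 i 0 t)
        constructor
        · exact Int.floor_le_floor (by gcongr; exact this.1)
        · exact Int.floor_le_floor (by gcongr; exact this.2)⟩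
    obtain ⟨i0, j0, hij, hq⟩ := Finite.exists_ne_map_eq_of_infinite q
    have hclose : ∀ t ∈ F, |g 0 i0 t - g 0 j0 t| < η := by
      intro t ht
      have h1 := congrArg Subtype.val (congrFun hq ⟨t, ht⟩)
      change ⌊(g 0 i0 t - g 0 0 t) / η⌋ = ⌊(g 0 j0 t - g 0 0 t) / η⌋ at h1
      have h2 := Int.abs_sub_lt_one_of_floor_eq_floor h1
      rw [← sub_div, sub_sub_sub_cancel_right, abs_div, abs_of_pos hη, div_lt_one hη] at h2
      exact h2
    let U : Set K := {t | |g 0 i0 t - g 0 j0 t| < η}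
    have hU : IsOpen U := isOpen_lt (((hg 0 i0).sub (hg 0 j0)).abs) continuous_const
    obtain ⟨i, j, hne, hlt⟩ := ih (h U hU hclose) (fun m => g m.succ) (fun m => hg m.succ)
      (fun m => hB m.succ)
    refine ⟨Fin.cons i0 i, Fin.cons j0 j, ?_, ?_⟩
    · intro m
      refine Fin.cases ?_ ?_ m
      · simpa using hij
      · intro m
        simpa using hne m
    · intro t ht
      by_cases htU : t ∈ U
      · exact ⟨0, htU⟩
      · obtain ⟨m, hm⟩ := hlt t ⟨ht, htU⟩
        exact ⟨m.succ, by simpa using hm⟩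

/-- Lower bound for compact spaces of finite rank. -/
theorem two_le_cX_of_levels {K : Type v} [TopologicalSpace K] [CompactSpace K] {n : ℕ}
    (hK : Small n (univ : Set K)) {M : Type u} [MetricSpace M] (z : Fin n → ℕ → M) (B : ℝ)
    (hB : ∀ m i j, dist (z m i) (z m j) ≤ B)
    (h : ∀ i j : Fin n → ℕ, (∀ m, i m ≠ j m) → ∃ x y : M, (∀ m, dist x (z m (i m)) ≤ 1) ∧
      (∀ m, dist y (z m (j m)) ≤ 1) ∧ 4 ≤ dist x y) :
    2 ≤ cX C(K, ℝ) M := by
  have : Nontrivial M := by
    obtain ⟨x, y, -, -, h⟩ := h (fun _ => 0) (fun _ => 1) (fun _ => by norm_num)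
    refine ⟨x, y, fun hxy => ?_⟩
    rw [hxy, dist_self] at h
    linarith
  have h2' : (2 : ℝ≥0∞) = ENNReal.ofReal 2 := by norm_num
  rw [h2']
  refine le_cX_of_forall fun f L C hL hC hLC hf1 hf2 => ?_
  set η : ℝ := 4 / C - 2 * L with hη
  have hη0 : 0 < η := by
    have : 2 * L < 4 / C := by
      rw [lt_div_iff₀ hC]
      nlinarith
    linarith
  have hLip : ∀ a b t, |f a t - f b t| ≤ L * dist a b := by
    intro a b t
    have := ContinuousMap.dist_apply_le_dist (f := f a) (g := f b) t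
    rw [Real.dist_eq] at this
    exact this.trans (hf1 a b)
  obtain ⟨i, j, hne, hlt⟩ := exists_pairs hK (fun m i t => f (z m i) t)
    (fun m i => (f (z m i)).continuous) (L * B)
    (fun m i j t => (hLip _ _ t).trans (by gcongr; exact hB m i j)) hη0
  obtain ⟨x, y, hx, hy, hxy⟩ := h i j hne
  obtain ⟨t, ht⟩ : ∃ t, 4 / C ≤ |f x t - f y t| := by
    by_contra hcon
    push Not at hcon
    have h1 := (ContinuousMap.dist_lt_iff (f := f x) (g := f y)
      (show 0 < 4 / C by positivity)).2 (fun t => by rw [Real.dist_eq]; exact hcon t)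
    have hd : 4 / C ≤ dist (f x) (f y) := by
      rw [div_le_iff₀ hC, mul_comm]
      exact hxy.trans (hf2 x y)
    linarith
  obtain ⟨m, hm⟩ := hlt t (mem_univ t)
  have e1 : |f x t - f (z m (i m)) t| ≤ L := (hLip _ _ t).trans (by nlinarith [hx m])
  have e2 : |f y t - f (z m (j m)) t| ≤ L := (hLip _ _ t).trans (by nlinarith [hy m])
  rw [abs_le] at e1 e2
  rw [abs_lt] at hm
  rcases le_abs.1 ht with h1 | h1
  · linarith [e1.1, e1.2, e2.1, e2.2, hm.1, hm.2]
  · linarith [e1.1, e1.2, e2.1, e2.2, hm.1, hm.2]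

end Pool.Agent.F896b9
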