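import Pool.Agent.Work.MP_f896b9_an.Renorm
import Pool.Agent.Work.MP_f896b9_an.Small
import Pool.Agent.Work.MP_f896b9_an.Hilb

open scoped ENNReal Ordinal
open TopologicalSpace

namespace Pool.Agent.F896b9

section SRSpace

variable (n : ℕ)

/-- index set for the points -/
abbrev ZS : Type := Fin n × ℕ
/-- index set for the functionals -/
abbrev IS : Type := (Fin n → ℕ) × (Fin n → ℕ)

/-- positive part -/
def AS (i : IS n) : Finset (ZS n) := Finset.univ.image (fun m => (m, i.1 m))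
/-- negative part -/
def BS (i : IS n) : Finset (ZS n) := Finset.univ.image (fun m => (m, i.2 m))

theorem funS_bound (i : IS n) (v : lp (fun _ : VV (ZS n) (IS n) => ℝ) 2) :
    |fun2 (AS n) (BS n) 2 i v| ≤ (4 * n + 8) * ‖v‖ := by
  rw [fun2_apply]
  have hc : ∀ a, |v a| ≤ ‖v‖ := fun a => lp.norm_apply_le_norm (by simp) v a
  have key : ∀ F : Finset (ZS n), F.card ≤ n → |∑ a ∈ F, v (Sum.inl a)| ≤ n * ‖v‖ := by
    intro F hF
    calc |∑ a ∈ F, v (Sum.inl a)| ≤ ∑ a ∈ F, |v (Sum.inl a)| := Finset.abs_sum_le_sum_abs _ _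
      _ ≤ ∑ a ∈ F, ‖v‖ := Finset.sum_le_sum fun a _ => hc _
      _ = F.card * ‖v‖ := by rw [Finset.sum_const, nsmul_eq_mul]
      _ ≤ n * ‖v‖ := by gcongr
  have h3 := key (AS n i) (Finset.card_image_le.trans (by simp))
  have h4 := key (BS n i) (Finset.card_image_le.trans (by simp))
  have h5 := hc (Sum.inr (i, true))
  have h6 := hc (Sum.inr (i, false))
  rw [abs_le] at h3 h4 h5 h6 ⊢
  constructor <;> linarith [h3.1, h3.2, h4.1, h4.2, h5.1, h5.2, h6.1, h6.2]

/-- the renormed Hilbert space -/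
noncomputable def ES : BanachSp := ⟨ren (fun2 (AS n) (BS n) 2)⟩

theorem ES_mem : ES n ∈ SR := by
  have h1 : (1 : ℝ) ≤ 4 * n + 8 := by
    have : (0 : ℝ) ≤ n := Nat.cast_nonneg n
    linarith
  refine ⟨?_, ?_⟩
  · have : SeparableSpace (lp (fun _ : VV (ZS n) (IS n) => ℝ) 2) := lp_separable (by simp)
    exact ren_separable _ (funS_bound n) h1
  · let w : ren (fun2 (AS n) (BS n) 2) →ₗ[ℝ] lp (fun _ : VV (ZS n) (IS n) => ℝ) 2 :=
      (LinearMap.snd ℝ _ _).comp (ren (fun2 (AS n) (BS n) 2)).subtype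
    exact superreflexive_of_hilbertian (E := ren (fun2 (AS n) (BS n) 2)) w (4 * n + 8)
      (fun x => ren_norm_snd_le x) (fun x => ren_norm_le' _ (funS_bound n) h1 x)

theorem two_le_cX_ES {K : Type*} [TopologicalSpace K] [CompactSpace K]
    (hK : Small n (Set.univ : Set K)) :
    2 ≤ cX C(K, ℝ) (ES n).carrier := by
  have h1 : (1 : ℝ) ≤ 4 * n + 8 := by
    have : (0 : ℝ) ≤ n := Nat.cast_nonneg n
    linarith
  let z : Fin n → ℕ → (ES n).carrier := fun m i =>
    toRen (ψ := fun2 (AS n) (BS n) 2) (4 * n + 8) (funS_bound n) (hv 2 (Sum.inl (m, i)))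
  refine two_le_cX_of_levels hK z ((4 * n + 8) * 1) ?_ ?_
  · intro m i j
    have h2 : ∀ i, ‖z m i‖ ≤ (4 * n + 8) * (1 / 2) := by
      intro i
      have := toRen_norm_le (ψ := fun2 (AS n) (BS n) 2) (4 * n + 8) (funS_bound n) h1
        (hv 2 (Sum.inl (m, i)))
      rwa [hv_norm] at this
    rw [dist_eq_norm]
    have := norm_sub_le (z m i) (z m j)
    linarith [h2 i, h2 j]
  · intro i j hne
    have hd : ∀ a ∈ AS n (i, j), a ∉ BS n (i, j) := by
      intro a ha hb
      simp only [AS, BS, Finset.mem_image, Finset.mem_univ, true_and] at ha hb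
      obtain ⟨m, rfl⟩ := ha
      obtain ⟨m', hm'⟩ := hb
      simp only [Prod.mk.injEq] at hm'
      obtain ⟨rfl, h⟩ := hm'
      exact hne m' h.symm
    have hcfg := config (A := AS n) (B := BS n) (p := 2) (4 * n + 8) (funS_bound n) (i, j) hd
    refine ⟨_, _, fun m => hcfg.1 (m, i m) ?_, fun m => hcfg.2.1 (m, j m) ?_, hcfg.2.2⟩
    · simp [AS]
    · simp [BS]

end SRSpace

theorem two_le_cX_ES_opow (k : ℕ) :
    2 ≤ cX (COrd (ω ^ (k : Ordinal.{0}))) (ES (k + 1)).carrier := by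
  rw [Ordinal.opow_natCast]
  exact two_le_cX_ES (k + 1) (small_univ_Icc k)

end Pool.Agent.F896b9
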