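import Pool.Agent.Work.MP_f896b9_an.Rad

open TopologicalSpace UniformSpace

namespace Pool.Agent.F896b9

theorem isClosed_type_set {E : Type} [NormedAddCommGroup E] [NormedSpace ℝ E] {q T : ℝ}
    (hq : 0 < q) (n : ℕ) : IsClosed {x : Fin n → E |
      (radSq x) ^ (1 / 2 : ℝ) ≤ T * (∑ i, ‖x i‖ ^ q) ^ (1 / q)} := by
  refine isClosed_le ?_ ?_
  · refine Continuous.rpow_const ?_ (fun _ => Or.inr (by norm_num))
    unfold radSq
    fun_prop
  · refine continuous_const.mul (Continuous.rpow_const ?_ (fun _ => Or.inr (by positivity)))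
    refine continuous_finsetSum _ fun i _ => ?_
    exact Continuous.rpow_const (by fun_prop) (fun _ => Or.inr hq.le)

/-- The type inequality passes from a dense subspace to the whole space. -/
theorem hasType_of_dense {E : Type} [NormedAddCommGroup E] [NormedSpace ℝ E]
    {V : Type} [AddCommGroup V] [Module ℝ V] (f : V →ₗ[ℝ] E) (hf : DenseRange f) {q T : ℝ}
    (hq : 0 < q)
    (h : ∀ (n : ℕ) (x : Fin n → V), ((∑ ε : Fin n → ℤˣ, ‖f (∑ i, sg (ε i) • x i)‖ ^ 2) / 2 ^ n) ^
      (1 / 2 : ℝ) ≤ T * (∑ i, ‖f (x i)‖ ^ q) ^ (1 / q)) : HasType E q := by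
  refine ⟨T, fun n x => ?_⟩
  have hd : DenseRange (Pi.map (fun _ : Fin n => (f : V → E))) := DenseRange.piMap fun _ => hf
  refine hd.induction_on (p := fun x => (radSq x) ^ (1 / 2 : ℝ) ≤
    T * (∑ i, ‖x i‖ ^ q) ^ (1 / q)) x (isClosed_type_set hq n) ?_
  intro v
  have e1 : radSq (Pi.map (fun _ : Fin n => (f : V → E)) v) =
      (∑ ε : Fin n → ℤˣ, ‖f (∑ i, sg (ε i) • v i)‖ ^ 2) / 2 ^ n := by
    unfold radSq
    congr 1
    refine Finset.sum_congr rfl fun ε _ => ?_
    rw [map_sum]
    simp only [map_smul, Pi.map_apply]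
  rw [e1]
  exact h n v

/-- The space `V` equipped with the seminorm `p`. -/
def SN {V : Type} [AddCommGroup V] [Module ℝ V] (_p : Seminorm ℝ V) : Type := V

section

variable {V : Type} [AddCommGroup V] [Module ℝ V] (p : Seminorm ℝ V)

noncomputable instance SN.instSeminormed : SeminormedAddCommGroup (SN p) :=
  @AddGroupSeminorm.toSeminormedAddCommGroup V _ p.toAddGroupSeminorm

instance SN.instModule : Module ℝ (SN p) := inferInstanceAs (Module ℝ V)

instance SN.instNormedSpace : NormedSpace ℝ (SN p) where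
  norm_smul_le c x := (map_smul_eq_mul p c (x : V)).le

/-- the canonical map -/
def toSN : V →ₗ[ℝ] SN p where
  toFun v := v
  map_add' _ _ := rfl
  map_smul' _ _ := rfl

theorem norm_toSN (v : V) : ‖toSN p v‖ = p v := rfl

/-- the canonical map to the completion -/
noncomputable def toCo : V →ₗ[ℝ] Completion (SN p) :=
  (Completion.toComplₗᵢ (𝕜 := ℝ) (E := SN p)).toLinearMap.comp (toSN p)

theorem norm_toCo (v : V) : ‖toCo p v‖ = p v := by
  unfold toCo
  simp only [LinearMap.coe_comp, Function.comp_apply, LinearIsometry.coe_toLinearMap,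
    LinearIsometry.norm_map]
  exact norm_toSN p v

theorem dist_toCo (v w : V) : dist (toCo p v) (toCo p w) = p (v - w) := by
  rw [dist_eq_norm, ← map_sub, norm_toCo]

theorem denseRange_toCo : DenseRange (toCo p) := by
  have h : DenseRange ((↑) : SN p → Completion (SN p)) := Completion.denseRange_coe
  exact h

theorem separable_completion {s : Set V} (hs : s.Countable) (hspan : Submodule.span ℝ s = ⊤) :
    SeparableSpace (Completion (SN p)) := by
  have h1 : IsSeparable (Submodule.span ℝ ((toCo p) '' s) : Set (Completion (SN p))) :=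
    (hs.image (toCo p)).isSeparable.span (R := ℝ)
  rw [Submodule.span_image, hspan] at h1
  have h2 : ((Submodule.map (toCo p) ⊤ : Submodule ℝ (Completion (SN p))) :
      Set (Completion (SN p))) = Set.range (toCo p) := by
    rw [Submodule.map_top, LinearMap.coe_range]
  rw [h2] at h1
  have h3 := h1.closure
  rw [(denseRange_toCo p).closure_range] at h3
  exact isSeparable_univ_iff.1 h3

theorem hasType_completion {q T : ℝ} (hq : 0 < q)
    (h : ∀ (n : ℕ) (x : Fin n → V), ((∑ ε : Fin n → ℤˣ, p (∑ i, sg (ε i) • x i) ^ 2) / 2 ^ n) ^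
      (1 / 2 : ℝ) ≤ T * (∑ i, p (x i) ^ q) ^ (1 / q)) :
    HasType (Completion (SN p)) q := by
  refine hasType_of_dense (toCo p) (denseRange_toCo p) hq (T := T) ?_
  intro n v
  simp only [norm_toCo]
  exact h n v

end

end Pool.Agent.F896b9
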