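import Pool.Agent.Work.MP_f896b9_an.Sh
import Pool.Agent.Work.MP_f896b9_an.Semi

open Filter Topology TopologicalSpace UniformSpace

namespace Pool.Agent.F896b9

/-! ### Separable duals -/

/-- A normed space with separable dual is separable. -/
theorem separable_of_dual {E : Type*} [NormedAddCommGroup E] [NormedSpace ℝ E]
    [SeparableSpace (StrongDual ℝ E)] : SeparableSpace E := by
  obtain ⟨D, hDc, hDd⟩ := exists_countable_dense (StrongDual ℝ E)
  have hch : ∀ f : StrongDual ℝ E, ∃ x : E, ‖x‖ ≤ 1 ∧ ‖f‖ / 2 ≤ ‖f x‖ := by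
    intro f
    by_cases hf : ‖f‖ = 0
    · exact ⟨0, by simp, by simp [hf]⟩
    · have hpos : 0 < ‖f‖ := lt_of_le_of_ne (norm_nonneg _) (Ne.symm hf)
      by_contra hno
      push Not at hno
      have h1 : ‖f‖ ≤ ‖f‖ / 2 := by
        refine ContinuousLinearMap.opNorm_le_bound _ (by positivity) ?_
        intro x
        by_cases hx : x = 0
        · rw [hx]; simp
        · have hxn : 0 < ‖x‖ := norm_pos_iff.mpr hx
          have h2 := hno (‖x‖⁻¹ • x) (by
            rw [norm_smul, norm_inv, norm_norm, inv_mul_cancel₀ hxn.ne'])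
          rw [map_smul, norm_smul, norm_inv, norm_norm] at h2
          have h3 : ‖f x‖ = ‖x‖ * (‖x‖⁻¹ * ‖f x‖) := by
            rw [← mul_assoc, mul_inv_cancel₀ hxn.ne', one_mul]
          rw [h3, mul_comm (‖f‖ / 2)]
          exact mul_le_mul_of_nonneg_left h2.le hxn.le
      linarith
  choose g hg1 hg2 using hch
  set W : Submodule ℝ E := Submodule.span ℝ (g '' D) with hW
  have hsep : IsSeparable (W : Set E) := ((hDc.image g).isSeparable).span (R := ℝ)
  have hdense : closure (W : Set E) = Set.univ := by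
    by_contra hno
    obtain ⟨x, hx⟩ := (Set.ne_univ_iff_exists_notMem _).mp hno
    have hconv : Convex ℝ (closure (W : Set E)) := W.convex.closure
    obtain ⟨f, u, hf1, hf2⟩ := geometric_hahn_banach_closed_point hconv isClosed_closure hx
    have hf0 : ∀ a ∈ W, f a = 0 := by
      intro a ha
      by_contra hne
      have h1 : ∀ c : ℝ, c * f a < u := by
        intro c
        have := hf1 (c • a) (subset_closure (W.smul_mem c ha))
        rwa [map_smul, smul_eq_mul] at this
      have h2 := h1 ((u + 1) / f a)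
      rw [div_mul_cancel₀ _ hne] at h2
      linarith
    have hu : 0 < u := by
      have := hf1 0 (subset_closure W.zero_mem)
      rwa [map_zero] at this
    have hfne : f ≠ 0 := by
      rintro rfl
      simp only [zero_apply] at hf2
      linarith
    have hfn : 0 < ‖f‖ := norm_pos_iff.mpr hfne
    obtain ⟨h, hhD, hhf⟩ := Metric.mem_closure_iff.mp (hDd f) (‖f‖ / 4) (by positivity)
    have h3 : f (g h) = 0 := hf0 _ (Submodule.subset_span (Set.mem_image_of_mem g hhD))
    have h4 : ‖h (g h)‖ ≤ ‖f - h‖ := by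
      have : h (g h) = -((f - h) (g h)) := by
        rw [sub_apply, h3]
        ring
      rw [this, norm_neg]
      calc ‖(f - h) (g h)‖ ≤ ‖f - h‖ * ‖g h‖ := (f - h).le_opNorm _
        _ ≤ ‖f - h‖ * 1 := mul_le_mul_of_nonneg_left (hg1 h) (norm_nonneg _)
        _ = ‖f - h‖ := mul_one _
    have h5 := hg2 h
    rw [dist_eq_norm] at hhf
    have h6 : ‖f‖ ≤ ‖f - h‖ + ‖h‖ := by
      calc ‖f‖ = ‖(f - h) + h‖ := by rw [sub_add_cancel]
        _ ≤ _ := norm_add_le _ _
    linarith
  have h3 := hsep.closure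
  rw [hdense] at h3
  exact isSeparable_univ_iff.1 h3

/-- A separable reflexive space has a separable dual. -/
theorem separable_dual_of_reflexive {Y : Type*} [NormedAddCommGroup Y] [NormedSpace ℝ Y]
    [SeparableSpace Y] (hY : Reflexive Y) : SeparableSpace (StrongDual ℝ Y) := by
  have h1 : SeparableSpace (StrongDual ℝ (StrongDual ℝ Y)) :=
    hY.denseRange.separableSpace (NormedSpace.inclusionInDoubleDual ℝ Y).continuous
  exact separable_of_dual

/-! ### Trees -/

/-- the first `i` bits -/
def pre (b : ℕ → Bool) : ℕ → List Bool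
  | 0 => []
  | i + 1 => b 0 :: pre (fun n => b (n + 1)) i

theorem pre_congr {b b' : ℕ → Bool} {i : ℕ} (h : ∀ j < i, b j = b' j) : pre b i = pre b' i := by
  induction i generalizing b b' with
  | zero => rfl
  | succ i ih =>
    simp only [pre]
    rw [h 0 (by omega), ih fun j hj => h (j + 1) (by omega)]

theorem exists_tree {ι S : Type*} [Nonempty S] {f : ι → S → ℝ} {ε : ℝ} {k : ℕ} {A : Set ι}
    (h : Sh f ε k A) : ∃ (x : List Bool → S) (c : List Bool → ℝ) (φ : (ℕ → Bool) → ι),
      (∀ b, φ b ∈ A) ∧ ∀ b i, i < k → (b i = true → c (pre b i) + ε ≤ f (φ b) (x (pre b i))) ∧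
        (b i = false → f (φ b) (x (pre b i)) ≤ c (pre b i)) := by
  induction k generalizing A with
  | zero =>
    obtain ⟨a, ha⟩ := h
    obtain ⟨s⟩ := ‹Nonempty S›
    exact ⟨fun _ => s, fun _ => 0, fun _ => a, fun _ => ha, fun b i hi => absurd hi (by omega)⟩
  | succ k ih =>
    obtain ⟨s, c, h1, h0⟩ := h
    obtain ⟨x1, c1, φ1, p1, q1⟩ := ih h1
    obtain ⟨x0, c0, φ0, p0, q0⟩ := ih h0
    refine ⟨fun t => match t with
        | [] => s
        | true :: t => x1 t
        | false :: t => x0 t, fun t => match t with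
        | [] => c
        | true :: t => c1 t
        | false :: t => c0 t, fun b => if b 0 = true then φ1 (fun n => b (n + 1)) else
          φ0 (fun n => b (n + 1)), ?_, ?_⟩
    · intro b
      by_cases hb : b 0 = true
      · simp only [if_pos hb]
        exact (p1 _).1
      · simp only [if_neg hb]
        exact (p0 _).1
    · intro b i hi
      cases i with
      | zero =>
        simp only [pre]
        constructor
        · intro hb
          rw [if_pos hb]
          exact (p1 _).2
        · intro hb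
          rw [if_neg (by rw [hb]; simp)]
          exact (p0 _).2
      | succ i =>
        simp only [pre]
        cases hb : b 0
        · simp only [Bool.false_eq_true, if_false]
          exact q0 (fun n => b (n + 1)) i (by omega)
        · simp only [if_true]
          exact q1 (fun n => b (n + 1)) i (by omega)

/-! ### Finite representability -/

/-- uniform convergence of equicontinuous seminorm-like functions on a finite-dimensional space -/
theorem unif_conv {F : Type*} [NormedAddCommGroup F] [NormedSpace ℝ F] [FiniteDimensional ℝ F]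
    {𝒰 : Ultrafilter ℕ} {N : ℕ → F → ℝ} {N' : F → ℝ} {K : ℝ}
    (hsm : ∀ k (c : ℝ) y, N k (c • y) = |c| * N k y) (hsm' : ∀ (c : ℝ) y, N' (c • y) = |c| * N' y)
    (hlip : ∀ k y z, |N k y - N k z| ≤ K * ‖y - z‖) (hlip' : ∀ y z, |N' y - N' z| ≤ K * ‖y - z‖)
    (hlim : ∀ y, Tendsto (fun k => N k y) 𝒰 (𝓝 (N' y))) {η : ℝ} (hη : 0 < η) :
    ∀ᶠ k in (𝒰 : Filter ℕ), ∀ y, |N k y - N' y| ≤ η * ‖y‖ := by
  have hcomp : IsCompact (Metric.closedBall (0 : F) 1) := isCompact_closedBall _ _
  have hK : 0 ≤ |K| := abs_nonneg _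
  obtain ⟨t, ht1, ht2⟩ := hcomp.finite_cover_balls (e := η / (4 * (|K| + 1))) (by positivity)
  have h1 : ∀ᶠ k in (𝒰 : Filter ℕ), ∀ z ∈ t, |N k z - N' z| ≤ η / 2 := by
    rw [ht2.1.eventually_all]
    intro z _
    have h2 := (hlim z).sub_const (N' z)
    rw [sub_self] at h2
    have h3 := h2.abs
    rw [abs_zero] at h3
    filter_upwards [h3.eventually (gt_mem_nhds (show (0 : ℝ) < η / 2 by positivity))] with k hk
    exact hk.le
  filter_upwards [h1] with k hk y
  have h0 : N k 0 = 0 ∧ N' 0 = 0 := by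
    have e1 := hsm k 0 0
    have e2 := hsm' 0 0
    rw [abs_zero, zero_mul, smul_zero] at e1 e2
    exact ⟨e1, e2⟩
  by_cases hy : y = 0
  · rw [hy, h0.1, h0.2]
    simp
  have hyn : 0 < ‖y‖ := norm_pos_iff.mpr hy
  set u := ‖y‖⁻¹ • y with hu
  have hu1 : ‖u‖ = 1 := by
    rw [hu, norm_smul, norm_inv, norm_norm, inv_mul_cancel₀ hyn.ne']
  have hyu : y = ‖y‖ • u := by
    rw [hu, smul_smul, mul_inv_cancel₀ hyn.ne', one_smul]
  have hub : u ∈ Metric.closedBall (0 : F) 1 := by
    rw [mem_closedBall_zero_iff, hu1]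
  have h4 := ht2.2 hub
  rw [Set.mem_iUnion₂] at h4
  obtain ⟨z, hz, hzu⟩ := h4
  rw [Metric.mem_ball, dist_eq_norm] at hzu
  have h5 := hk z hz
  have h6 := hlip k u z
  have h7 := hlip' u z
  have h8 : K * ‖u - z‖ ≤ η / 4 := by
    calc K * ‖u - z‖ ≤ (|K| + 1) * ‖u - z‖ := by
          apply mul_le_mul_of_nonneg_right _ (norm_nonneg _)
          linarith [le_abs_self K]
      _ ≤ (|K| + 1) * (η / (4 * (|K| + 1))) := mul_le_mul_of_nonneg_left hzu.le (by positivity)
      _ = η / 4 := by
          field_simp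
  have h9 : |N k u - N' u| ≤ η := by
    have e : N k u - N' u = (N k u - N k z) + (N k z - N' z) - (N' u - N' z) := by ring
    rw [e]
    calc |(N k u - N k z) + (N k z - N' z) - (N' u - N' z)|
        ≤ |(N k u - N k z) + (N k z - N' z)| + |N' u - N' z| := abs_sub _ _
      _ ≤ |N k u - N k z| + |N k z - N' z| + |N' u - N' z| := by
          gcongr
          exact abs_add_le _ _
      _ ≤ η / 4 + η / 2 + η / 4 := by
          gcongr
          · exact h6.trans h8
          · exact h7.trans h8
      _ = η := by ring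
  calc |N k y - N' y| = ‖y‖ * |N k u - N' u| := by
        conv_lhs => rw [hyu]
        rw [hsm, hsm', ← mul_sub, abs_mul, abs_abs, abs_of_pos hyn]
    _ ≤ ‖y‖ * η := mul_le_mul_of_nonneg_left h9 hyn.le
    _ = η * ‖y‖ := mul_comm _ _

section ultra

variable {X : Type} [NormedAddCommGroup X] [NormedSpace ℝ X] {V : Type} [AddCommGroup V]
  [Module ℝ V]

/-- A seminorm which is the pointwise limit of the seminorms `‖L k ·‖`. -/
theorem finRep_completion {𝒰 : Ultrafilter ℕ} (L : ℕ → V →ₗ[ℝ] X) (p : Seminorm ℝ V)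
    (hp : ∀ v, Tendsto (fun k => ‖L k v‖) 𝒰 (𝓝 (p v)))
    (hbd : ∀ v, ∃ M, ∀ k, ‖L k v‖ ≤ M) : FinRep (Completion (SN p)) X := by
  intro ε hε F hF
  set η : ℝ := ε / (2 + ε) with hη
  have hη0 : 0 < η := by positivity
  have hη1 : η < 1 := by
    rw [hη, div_lt_one (by positivity)]
    linarith
  set b := Module.finBasis ℝ F with hb
  -- the coordinates are bounded
  set C : ℝ := ∑ i, ‖LinearMap.toContinuousLinearMap (b.coord i)‖ with hC
  have hC0 : 0 ≤ C := Finset.sum_nonneg fun i _ => ContinuousLinearMap.opNorm_nonneg _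
  have hcoord : ∀ y : F, ∑ i, |b.repr y i| ≤ C * ‖y‖ := by
    intro y
    rw [hC, Finset.sum_mul]
    apply Finset.sum_le_sum
    intro i _
    have := (LinearMap.toContinuousLinearMap (b.coord i)).le_opNorm y
    simpa using this
  -- approximation of the basis
  have hch : ∀ i, ∃ v : V, ‖toCo p v - (b i : Completion (SN p))‖ ≤ η / (2 * (C + 1)) := by
    intro i
    obtain ⟨v, hv⟩ := (denseRange_toCo p).exists_dist_lt (b i : Completion (SN p))
      (show 0 < η / (2 * (C + 1)) by positivity)
    refine ⟨v, ?_⟩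
    rw [← dist_eq_norm, dist_comm]
    exact hv.le
  choose v hv using hch
  set S : F →ₗ[ℝ] V := b.constr ℝ v with hS
  have hSy : ∀ y : F, S y = ∑ i, b.repr y i • v i := by
    intro y
    rw [hS, Module.Basis.constr_apply_fintype]
    simp
  have hclose : ∀ y : F, ‖toCo p (S y) - (y : Completion (SN p))‖ ≤ η / 2 * ‖y‖ := by
    intro y
    have e1 : (y : Completion (SN p)) = ∑ i, b.repr y i • (b i : Completion (SN p)) := by
      conv_lhs => rw [← b.sum_repr y]
      push_cast
      rfl
    rw [hSy, map_sum, e1, ← Finset.sum_sub_distrib]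
    calc ‖∑ i, (toCo p (b.repr y i • v i) - b.repr y i • (b i : Completion (SN p)))‖
        ≤ ∑ i, ‖toCo p (b.repr y i • v i) - b.repr y i • (b i : Completion (SN p))‖ :=
          norm_sum_le _ _
      _ ≤ ∑ i, |b.repr y i| * (η / (2 * (C + 1))) := by
          apply Finset.sum_le_sum
          intro i _
          rw [map_smul, ← smul_sub, norm_smul, Real.norm_eq_abs]
          exact mul_le_mul_of_nonneg_left (hv i) (abs_nonneg _)
      _ = (∑ i, |b.repr y i|) * (η / (2 * (C + 1))) := by rw [Finset.sum_mul]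
      _ ≤ (C * ‖y‖) * (η / (2 * (C + 1))) :=
          mul_le_mul_of_nonneg_right (hcoord y) (by positivity)
      _ ≤ η / 2 * ‖y‖ := by
          have e2 : C * (η / (2 * (C + 1))) ≤ η / 2 := by
            rw [mul_div_assoc', div_le_div_iff₀ (by positivity) (by norm_num)]
            nlinarith
          calc (C * ‖y‖) * (η / (2 * (C + 1))) = C * (η / (2 * (C + 1))) * ‖y‖ := by ring
            _ ≤ _ := mul_le_mul_of_nonneg_right e2 (norm_nonneg _)
  -- uniform bound
  have hM : ∃ K : ℝ, 0 ≤ K ∧ (∀ k i, ‖L k (v i)‖ ≤ K) ∧ ∀ i, p (v i) ≤ K := by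
    choose M hM using hbd
    refine ⟨∑ i, |M (v i)|, Finset.sum_nonneg fun i _ => abs_nonneg _, ?_, ?_⟩
    · intro k i
      calc ‖L k (v i)‖ ≤ |M (v i)| := (hM _ k).trans (le_abs_self _)
        _ ≤ _ := Finset.single_le_sum (f := fun i => |M (v i)|) (fun i _ => abs_nonneg _)
            (Finset.mem_univ i)
    · intro i
      refine le_trans (le_of_tendsto (hp (v i)) (Eventually.of_forall fun k => hM _ k)) ?_
      calc M (v i) ≤ |M (v i)| := le_abs_self _
        _ ≤ _ := Finset.single_le_sum (f := fun i => |M (v i)|) (fun i _ => abs_nonneg _)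
            (Finset.mem_univ i)
  obtain ⟨K, hK0, hK1, hK2⟩ := hM
  have hLS : ∀ k (y : F), ‖L k (S y)‖ ≤ (C * K) * ‖y‖ := by
    intro k y
    rw [hSy, map_sum]
    calc ‖∑ i, L k (b.repr y i • v i)‖ ≤ ∑ i, ‖L k (b.repr y i • v i)‖ := norm_sum_le _ _
      _ ≤ ∑ i, |b.repr y i| * K := by
          apply Finset.sum_le_sum
          intro i _
          rw [map_smul, norm_smul, Real.norm_eq_abs]
          exact mul_le_mul_of_nonneg_left (hK1 k i) (abs_nonneg _)
      _ = (∑ i, |b.repr y i|) * K := by rw [Finset.sum_mul]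
      _ ≤ (C * ‖y‖) * K := mul_le_mul_of_nonneg_right (hcoord y) hK0
      _ = _ := by ring
  have hpS : ∀ (y : F), p (S y) ≤ (C * K) * ‖y‖ := by
    intro y
    exact le_of_tendsto (hp (S y)) (Eventually.of_forall fun k => hLS k y)
  have hunif := unif_conv (𝒰 := 𝒰) (N := fun k (y : F) => ‖L k (S y)‖) (N' := fun y => p (S y))
    (K := C * K) (fun k c y => by rw [map_smul, map_smul, norm_smul, Real.norm_eq_abs])
    (fun c y => by rw [map_smul, map_smul_eq_mul, Real.norm_eq_abs])
    (fun k y z => by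
      refine (abs_norm_sub_norm_le _ _).trans ?_
      rw [← map_sub, ← map_sub]
      exact hLS k _)
    (fun y z => by
      refine (abs_sub_map_le_sub p _ _).trans ?_
      rw [← map_sub]
      exact hpS _)
    (fun y => hp (S y)) (show (0 : ℝ) < η / 2 by positivity)
  obtain ⟨k, hk⟩ := hunif.exists
  have hmain : ∀ y : F, (1 - η) * ‖y‖ ≤ ‖L k (S y)‖ ∧ ‖L k (S y)‖ ≤ (1 + η) * ‖y‖ := by
    intro y
    have e1 := abs_le.mp (hk y)
    have e2 := hclose y
    have e3 : |p (S y) - ‖y‖| ≤ η / 2 * ‖y‖ := by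
      rw [← norm_toCo p]
      exact (abs_norm_sub_norm_le _ _).trans e2
    have e4 := abs_le.mp e3
    constructor <;> nlinarith [e1.1, e1.2, e4.1, e4.2]
  have h1η : 0 < 1 - η := by linarith
  refine ⟨(1 - η)⁻¹ • (L k).comp S, ?_⟩
  intro y
  have e1 := hmain y
  have e2 : ‖((1 - η)⁻¹ • (L k).comp S) y‖ = (1 - η)⁻¹ * ‖L k (S y)‖ := by
    rw [LinearMap.smul_apply, norm_smul, Real.norm_eq_abs, abs_of_pos (inv_pos.mpr h1η)]
    rfl
  rw [e2]
  constructor
  · rw [inv_mul_eq_div, le_div_iff₀ h1η]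
    linarith [e1.1]
  · rw [inv_mul_eq_div, div_le_iff₀ h1η]
    refine e1.2.trans (le_of_eq ?_)
    have : 1 + η = (1 + ε) * (1 - η) := by
      rw [hη]
      field_simp
      ring
    rw [this]
    ring

/-- a bounded family of functionals induces a functional on the completion -/
theorem exists_functional {𝒰 : Ultrafilter ℕ} (L : ℕ → V →ₗ[ℝ] X) (p : Seminorm ℝ V)
    (hp : ∀ v, Tendsto (fun k => ‖L k v‖) 𝒰 (𝓝 (p v))) (hbd : ∀ v, ∃ M, ∀ k, ‖L k v‖ ≤ M)
    (φ : ℕ → StrongDual ℝ X) (hφ : ∀ k, ‖φ k‖ ≤ 1) :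
    ∃ ψ : StrongDual ℝ (Completion (SN p)),
      ∀ v, Tendsto (fun k => φ k (L k v)) 𝒰 (𝓝 (ψ (toCo p v))) := by
  have hle : ∀ k v, |φ k (L k v)| ≤ ‖L k v‖ := by
    intro k v
    calc |φ k (L k v)| = ‖φ k (L k v)‖ := (Real.norm_eq_abs _).symm
      _ ≤ ‖φ k‖ * ‖L k v‖ := (φ k).le_opNorm _
      _ ≤ 1 * ‖L k v‖ := mul_le_mul_of_nonneg_right (hφ k) (norm_nonneg _)
      _ = ‖L k v‖ := one_mul _
  have hlim : ∀ v, Tendsto (fun k => φ k (L k v)) 𝒰 (𝓝 (ulim 𝒰 fun k => φ k (L k v))) := by
    intro v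
    obtain ⟨M, hM⟩ := hbd v
    exact tendsto_ulim (C := M) (Eventually.of_forall fun k => (hle k v).trans (hM k))
  let ℓ : SN p →ₗ[ℝ] ℝ :=
    { toFun := fun v => ulim 𝒰 fun k => φ k (L k v)
      map_add' := by
        intro v w
        refine ulim_eq ?_
        refine ((hlim v).add (hlim w)).congr fun k => ?_
        exact ((congrArg (φ k) (map_add (L k) v w)).trans (map_add (φ k) _ _)).symm
      map_smul' := by
        intro c v
        refine ulim_eq ?_
        refine ((hlim v).const_mul c).congr fun k => ?_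
        exact ((congrArg (φ k) (map_smul (L k) c v)).trans (map_smul (φ k) _ _)).symm }
  have hℓ : ∀ v : SN p, ‖ℓ v‖ ≤ 1 * ‖v‖ := by
    intro v
    rw [one_mul, Real.norm_eq_abs]
    exact le_of_tendsto_of_tendsto (hlim v).abs (hp v) (Eventually.of_forall fun k => hle k v)
  let ℓc : SN p →L[ℝ] ℝ := ℓ.mkContinuous 1 hℓ
  refine ⟨ℓc.extend (Completion.toComplL : SN p →L[ℝ] Completion (SN p)), ?_⟩
  intro v
  have h1 : toCo p v = (Completion.toComplL : SN p →L[ℝ] Completion (SN p)) (toSN p v) := rfl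
  rw [h1, ContinuousLinearMap.extend_eq _ Completion.denseRange_coe
    (Completion.isUniformInducing_coe _)]
  exact hlim v

end ultra

/-- **No shattering of unbounded depth in superreflexive spaces.** -/
theorem exists_not_Sh {X : Type} [NormedAddCommGroup X] [NormedSpace ℝ X] (hX : Superreflexive X)
    {ε R : ℝ} (hε : 0 < ε) (hR : 0 < R) : ∃ k, ¬ Sh (ballAct X R) ε k Set.univ := by
  classical
  by_contra hall
  push Not at hall
  have hne : Nonempty {x : X // ‖x‖ ≤ R} := ⟨⟨0, by simp [hR.le]⟩⟩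
  choose x c φ _ hφ using fun k => exists_tree (hall k)
  let 𝒰 : Ultrafilter ℕ := Ultrafilter.of atTop
  have h𝒰 : (𝒰 : Filter ℕ) ≤ atTop := Ultrafilter.of_le _
  obtain ⟨L, hLdef⟩ : ∃ L : ℕ → (List Bool →₀ ℝ) →ₗ[ℝ] X, ∀ k,
      L k = Finsupp.linearCombination ℝ (fun t => (x k t).1) := ⟨_, fun k => rfl⟩
  have hLs : ∀ k t, L k (Finsupp.single t 1) = (x k t).1 := by
    intro k t
    rw [hLdef, Finsupp.linearCombination_single, one_smul]
  have hbd : ∀ v : List Bool →₀ ℝ, ∃ M, ∀ k, ‖L k v‖ ≤ M := by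
    intro v
    refine ⟨∑ t ∈ v.support, |v t| * R, fun k => ?_⟩
    rw [hLdef, Finsupp.linearCombination_apply, Finsupp.sum]
    refine (norm_sum_le _ _).trans (Finset.sum_le_sum fun t _ => ?_)
    rw [norm_smul, Real.norm_eq_abs]
    exact mul_le_mul_of_nonneg_left (x k t).2 (abs_nonneg _)
  have hlim : ∀ v : List Bool →₀ ℝ, Tendsto (fun k => ‖L k v‖) 𝒰 (𝓝 (ulim 𝒰 fun k => ‖L k v‖)) := by
    intro v
    obtain ⟨M, hM⟩ := hbd v
    refine tendsto_ulim (C := M) (Eventually.of_forall fun k => ?_)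
    rw [abs_of_nonneg (norm_nonneg _)]
    exact hM k
  let p : Seminorm ℝ (List Bool →₀ ℝ) := Seminorm.of (fun v => ulim 𝒰 fun k => ‖L k v‖)
    (by
      intro v w
      refine le_of_tendsto_of_tendsto (hlim (v + w)) ((hlim v).add (hlim w))
        (Eventually.of_forall fun k => ?_)
      simp only [map_add]
      exact norm_add_le _ _)
    (by
      intro a v
      refine ulim_eq ?_
      refine ((hlim v).const_mul ‖a‖).congr fun k => ?_
      simp only [map_smul, norm_smul])
  have hp : ∀ v : List Bool →₀ ℝ, Tendsto (fun k => ‖L k v‖) 𝒰 (𝓝 (p v)) := hlim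
  have hrefl : Reflexive (Completion (SN p)) :=
    hX ⟨Completion (SN p)⟩ (finRep_completion L p hp hbd)
  have hsep : SeparableSpace (Completion (SN p)) := by
    refine separable_completion p (s := Set.range fun t : List Bool => Finsupp.single t (1 : ℝ))
      (Set.countable_range _) ?_
    have := (Finsupp.basisSingleOne (R := ℝ) (ι := List Bool)).span_eq
    rwa [Finsupp.coe_basisSingleOne] at this
  have hsepd := separable_dual_of_reflexive hrefl
  -- the functionals
  choose ψ hψ using fun b : ℕ → Bool => exists_functional L p hp hbd (fun k => (φ k b).1)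
    (fun k => (φ k b).2)
  have hxt : ∀ t : List Bool, ‖toCo p (Finsupp.single t 1)‖ ≤ R := by
    intro t
    rw [norm_toCo]
    refine le_of_tendsto (hp _) (Eventually.of_forall fun k => ?_)
    rw [hLs]
    exact (x k t).2
  have hgap : ∀ b b' : ℕ → Bool, b ≠ b' → ε / R ≤ ‖ψ b - ψ b'‖ := by
    have hone : ∀ (b b' : ℕ → Bool) (i : ℕ), (∀ j < i, b j = b' j) → b i = true → b' i = false →
        ε / R ≤ ‖ψ b - ψ b'‖ := by
      intro b b' i hj hb hb'
      set t := pre b i with ht
      have ht' : pre b' i = t := (pre_congr hj).symm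
      have h1 : ε ≤ (ψ b - ψ b') (toCo p (Finsupp.single t 1)) := by
        rw [sub_apply]
        refine ge_of_tendsto ((hψ b (Finsupp.single t 1)).sub (hψ b' (Finsupp.single t 1))) ?_
        have h2 : ∀ᶠ k in (𝒰 : Filter ℕ), i < k := h𝒰 (eventually_gt_atTop i)
        filter_upwards [h2] with k hk
        have e1 := (hφ k b i hk).1 hb
        have e2 := (hφ k b' i hk).2 hb'
        rw [ht'] at e2
        rw [hLs]
        unfold ballAct at e1 e2
        linarith
      have h3 := (ψ b - ψ b').le_opNorm (toCo p (Finsupp.single t 1))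
      have h4 : ε ≤ ‖ψ b - ψ b'‖ * R := by
        refine h1.trans ((le_abs_self _).trans ?_)
        rw [← Real.norm_eq_abs]
        exact h3.trans (mul_le_mul_of_nonneg_left (hxt t) (norm_nonneg _))
      rwa [div_le_iff₀ hR]
    intro b b' hbb
    have hex : ∃ i, b i ≠ b' i := by
      by_contra hno
      push Not at hno
      exact hbb (funext hno)
    have h1 := Nat.find_spec hex
    have h2 : ∀ j < Nat.find hex, b j = b' j := by
      intro j hj
      have := Nat.find_min hex hj
      push Not at this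
      exact this
    cases hb : b (Nat.find hex) with
    | true =>
      refine hone b b' _ h2 hb ?_
      rw [hb] at h1
      cases hb' : b' (Nat.find hex) with
      | true => exact absurd hb'.symm h1
      | false => rfl
    | false =>
      rw [norm_sub_rev]
      refine hone b' b _ (fun j hj => (h2 j hj).symm) ?_ hb
      rw [hb] at h1
      cases hb' : b' (Nat.find hex) with
      | false => exact absurd hb'.symm h1
      | true => rfl
  obtain ⟨D, hDc, hDd⟩ := exists_countable_dense (StrongDual ℝ (Completion (SN p)))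
  have hch : ∀ b : ℕ → Bool, ∃ d ∈ D, ‖ψ b - d‖ < ε / R / 2 := by
    intro b
    obtain ⟨d, hd, hdist⟩ := Metric.mem_closure_iff.mp (hDd (ψ b)) (ε / R / 2) (by positivity)
    exact ⟨d, hd, by rwa [← dist_eq_norm]⟩
  choose d hdD hd using hch
  have hinj : Function.Injective (fun b : ℕ → Bool => (⟨d b, hdD b⟩ : D)) := by
    intro b b' hbb
    by_contra hne'
    have h1 := hgap b b' hne'
    have h2 : d b = d b' := congrArg Subtype.val hbb
    have h3 : ‖ψ b - ψ b'‖ ≤ ‖ψ b - d b‖ + ‖ψ b' - d b'‖ := by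
      have : ψ b - ψ b' = (ψ b - d b) - (ψ b' - d b') := by
        rw [h2]
        abel
      rw [this]
      exact norm_sub_le _ _
    have h4 := hd b
    have h5 := hd b'
    linarith
  have hDcount : Countable D := hDc.to_subtype
  have hcount : Countable (ℕ → Bool) := hinj.countable
  have h1 : Cardinal.mk (ℕ → Bool) ≤ Cardinal.aleph0 := Cardinal.mk_le_aleph0_iff.mpr hcount
  simp only [Cardinal.mk_pi, Cardinal.mk_bool, Cardinal.prod_const, Cardinal.mk_nat,
    Cardinal.lift_id, Cardinal.two_power_aleph0] at h1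
  exact absurd h1 Cardinal.aleph0_lt_continuum.not_ge

end Pool.Agent.F896b9
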