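import Pool.Agent.Work.MP_f896b9_an.Predict
import Pool.Agent.Work.MP_f896b9_an.ShBound

open Set Filter Topology
open scoped Ordinal ENNReal

namespace Pool.Agent.F896b9

namespace SRU

variable {X : Type} [NormedAddCommGroup X] [NormedSpace ℝ X] (e : ℕ → X)

/-- distance to the first points of the sequence -/
noncomputable def dN (N : ℕ) (z : X) : ℝ :=
  (Finset.range (max N 1)).inf' (Finset.nonempty_range_iff.2 (by omega)) (fun j => dist z (e j))

theorem dN_lip (N : ℕ) : Lip1 (dN e N) := by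
  have h1 : ∀ z z', dN e N z ≤ dN e N z' + dist z z' := by
    intro z z'
    obtain ⟨j, hj, hj'⟩ := Finset.exists_mem_eq_inf'
      (Finset.nonempty_range_iff.2 (show max N 1 ≠ 0 by omega)) (fun j => dist z' (e j))
    unfold dN
    rw [hj']
    refine (Finset.inf'_le _ hj).trans ?_
    have := dist_triangle z z' (e j)
    linarith
  intro z z'
  have h2 := h1 z z'
  have h3 := h1 z' z
  rw [dist_comm z' z] at h3
  rw [abs_le]
  constructor <;> linarith

theorem dN_nonneg (N : ℕ) (z : X) : 0 ≤ dN e N z := by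
  unfold dN
  exact Finset.le_inf' _ _ fun j _ => dist_nonneg

theorem dN_zero (N : ℕ) {j : ℕ} (hj : j < max N 1) : dN e N (e j) = 0 := by
  refine le_antisymm ?_ (dN_nonneg e N _)
  unfold dN
  refine (Finset.inf'_le _ (Finset.mem_range.2 hj)).trans ?_
  simp

/-- clipping level -/
noncomputable def rho (N : ℕ) (z : X) : ℝ := min (max 0 (9 - ‖z - e N‖)) (dN e N z)

theorem rho_lip (N : ℕ) : Lip1 (rho e N) := by
  intro z z'
  unfold rho
  refine (abs_min_sub_min_le_max _ _ _ _).trans (max_le ?_ (dN_lip e N z z'))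
  refine (abs_max_sub_max_le_max _ _ _ _).trans (max_le (by simp) ?_)
  rw [show 9 - ‖z - e N‖ - (9 - ‖z' - e N‖) = -(‖z - e N‖ - ‖z' - e N‖) by ring, abs_neg,
    ← dist_eq_norm, ← dist_eq_norm]
  exact abs_dist_sub_le _ _ _

theorem rho_nonneg (N : ℕ) (z : X) : 0 ≤ rho e N z := le_min (le_max_left _ _) (dN_nonneg e N z)

/-- targets -/
noncomputable def Psi (N : ℕ) (s : ℝ) (φ : {φ : StrongDual ℝ X // ‖φ‖ ≤ 1}) (z : X) : ℝ :=
  clip (φ.1 (z - e N) + s) (rho e N z)

theorem dual_le (φ : {φ : StrongDual ℝ X // ‖φ‖ ≤ 1}) (x : X) : |φ.1 x| ≤ ‖x‖ := by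
  have h1 := φ.1.le_opNorm x
  rw [Real.norm_eq_abs] at h1
  have h2 := φ.2
  nlinarith [norm_nonneg x]

theorem Psi_lip (N : ℕ) (s : ℝ) (φ : {φ : StrongDual ℝ X // ‖φ‖ ≤ 1}) : Lip1 (Psi e N s φ) := by
  intro z z'
  refine clip_lip ?_ (rho_lip e N z z')
  have h1 : φ.1 (z - e N) + s - (φ.1 (z' - e N) + s) = φ.1 (z - z') := by
    rw [← sub_sub_sub_cancel_right z z' (e N), map_sub φ.1 (z - e N)]
    ring
  rw [h1, dist_eq_norm]
  exact dual_le φ _

theorem Psi_zero (N : ℕ) (s : ℝ) (φ : {φ : StrongDual ℝ X // ‖φ‖ ≤ 1}) {j : ℕ}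
    (hj : j < max N 1) : Psi e N s φ (e j) = 0 := by
  have h1 := clip_abs_le (u := φ.1 (e j - e N) + s) (rho_nonneg e N (e j))
  have h2 : rho e N (e j) = 0 := le_antisymm ((min_le_right _ _).trans (dN_zero e N hj).le)
    (rho_nonneg e N _)
  unfold Psi
  rw [h2] at h1 ⊢
  exact abs_nonpos_iff.1 h1

/-- transfer of shattering from the targets to the dual ball -/
theorem Sh_Psi (N : ℕ) (s : ℝ) {ε : ℝ} (hε : 0 < ε) {k : ℕ}
    {A : Set {φ : StrongDual ℝ X // ‖φ‖ ≤ 1}} (h : Sh (Psi e N s) ε k A) :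
    Sh (ballAct X 9) ε k A := by
  induction k generalizing A with
  | zero => exact h
  | succ k ih =>
    obtain ⟨z, c, h1, h2⟩ := h
    obtain ⟨i1, -, hi1⟩ := h1.nonempty
    obtain ⟨i2, -, hi2⟩ := h2.nonempty
    have hρ := rho_nonneg e N z
    have e1 := abs_le.1 (clip_abs_le (u := i1.1 (z - e N) + s) hρ)
    have e2 := abs_le.1 (clip_abs_le (u := i2.1 (z - e N) + s) hρ)
    have e3 : c + ε ≤ rho e N z := hi1.trans e1.2
    have e4 : -rho e N z ≤ c := e2.1.trans hi2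
    have e5 : 0 < rho e N z := by linarith
    have e6 : ‖z - e N‖ ≤ 9 := by
      have h3 : 0 < max 0 (9 - ‖z - e N‖) := e5.trans_le (min_le_left _ _)
      rcases lt_max_iff.1 h3 with h4 | h4
      · exact absurd h4 (lt_irrefl _)
      · linarith
    refine ⟨⟨z - e N, e6⟩, c - s, (ih h1).mono ?_, (ih h2).mono ?_⟩
    · rintro φ ⟨hφ, hφ2⟩
      refine ⟨hφ, ?_⟩
      change c - s + ε ≤ φ.1 (z - e N)
      have h3 : c + ε ≤ max (-rho e N z) (min (φ.1 (z - e N) + s) (rho e N z)) := hφ2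
      rcases le_max_iff.1 h3 with h4 | h4
      · linarith
      · have := h4.trans (min_le_left _ _)
        linarith
    · rintro φ ⟨hφ, hφ2⟩
      refine ⟨hφ, ?_⟩
      change φ.1 (z - e N) ≤ c - s
      have h3 : max (-rho e N z) (min (φ.1 (z - e N) + s) (rho e N z)) ≤ c := hφ2
      have h4 := (le_max_right _ _).trans h3
      rcases min_le_iff.1 h4 with h5 | h5
      · linarith
      · linarith

/-- The target attached to a pair of points. -/
theorem exists_target (he : DenseRange e) (he0 : e 0 = 0) {ε : ℝ} (hε' : ε < 1 / 8)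
    {x y : X} (h1 : 1 ≤ ‖x - y‖) (h2 : ‖x - y‖ < 1 + ε) :
    ∃ (N : ℕ) (s : ℝ) (φ : {φ : StrongDual ℝ X // ‖φ‖ ≤ 1}), |s| ≤ 3 ∧
      Psi e N s φ x - Psi e N s φ y = ‖x - y‖ := by
  classical
  obtain ⟨φ, hφ1, hφ2⟩ := exists_dual_vector'' ℝ (x - y)
  have hφ2' : φ (x - y) = ‖x - y‖ := by simpa using hφ2
  have hex : ∃ N, ‖x - e N‖ < 3 := by
    obtain ⟨N, hN⟩ := he.exists_dist_lt x (show (0 : ℝ) < 3 by norm_num)
    exact ⟨N, by rwa [← dist_eq_norm]⟩
  have hN := Nat.find_spec hex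
  have hmin := fun j (hj : j < Nat.find hex) => not_lt.1 (Nat.find_min hex hj)
  set N := Nat.find hex
  have hyx : ‖y - x‖ = ‖x - y‖ := norm_sub_rev _ _
  rcases Nat.eq_zero_or_pos N with h0 | h0
  · refine ⟨0, 0, ⟨φ, hφ1⟩, by norm_num, ?_⟩
    rw [h0, he0, sub_zero] at hN
    have hval : ∀ z : X, ‖z‖ ≤ 9 / 2 → Psi e 0 0 ⟨φ, hφ1⟩ z = φ z := by
      intro z hz
      unfold Psi
      have h3 : rho e 0 z = ‖z‖ := by
        unfold rho dN
        simp only [he0, sub_zero]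
        have : (Finset.range (max 0 1)).inf' (Finset.nonempty_range_iff.2 (by omega))
            (fun j => dist z (e j)) = ‖z‖ := by
          have h4 : (Finset.range (max 0 1)) = {0} := by decide
          simp only [h4, Finset.inf'_singleton, he0, dist_zero_right]
        rw [this, max_eq_right (by linarith), min_eq_right (by linarith)]
      rw [h3, he0, sub_zero, add_zero]
      exact clip_eq (dual_le ⟨φ, hφ1⟩ z)
    have hy : ‖y‖ ≤ 9 / 2 := by
      have : y = x - (x - y) := by abel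
      rw [this]
      refine (norm_sub_le _ _).trans ?_
      linarith
    rw [hval x (by linarith), hval y hy, ← map_sub, hφ2']
  · refine ⟨N, φ (e N - x), ⟨φ, hφ1⟩, ?_, ?_⟩
    · refine (dual_le ⟨φ, hφ1⟩ _).trans ?_
      rw [norm_sub_rev]
      exact hN.le
    · have e1 : φ (x - e N) + φ (e N - x) = 0 := by
        rw [← map_add]; simp
      have e2 : φ (y - e N) + φ (e N - x) = -‖x - y‖ := by
        rw [← map_add, ← hφ2', ← map_neg]
        congr 1
        abel
      unfold Psi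
      simp only
      rw [e1, e2]
      have h3 : clip 0 (rho e N x) = 0 := clip_eq (by rw [abs_zero]; exact rho_nonneg e N x)
      have h4 : clip (-‖x - y‖) (rho e N y) = -‖x - y‖ := by
        refine clip_eq ?_
        rw [abs_neg, abs_of_nonneg (norm_nonneg _)]
        refine le_min ?_ ?_
        · refine le_trans ?_ (le_max_right _ _)
          have : y - e N = (x - e N) - (x - y) := by abel
          rw [this]
          have := norm_sub_le (x - e N) (x - y)
          linarith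
        · unfold dN
          refine Finset.le_inf' _ _ fun j hj => ?_
          have hjN : j < N := by
            have := Finset.mem_range.1 hj
            omega
          have h5 := hmin j hjN
          have h6 := norm_sub_le_norm_sub_add_norm_sub x y (e j)
          rw [dist_eq_norm]
          linarith
      rw [h3, h4]
      ring

/-- the rescaled and clipped functions -/
noncomputable def scl (ε r : ℝ) (g : X → ℝ) (z : X) : ℝ :=
  clip (r * g (r⁻¹ • z)) (min (10 * r) (max 0 (‖z‖ - ε * r)))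

theorem scl_lip {ε r : ℝ} (hr : 0 < r) {g : X → ℝ} (hg : Lip1 g) : Lip1 (scl ε r g) := by
  intro z z'
  refine clip_lip ?_ ?_
  · rw [← mul_sub, abs_mul, abs_of_pos hr]
    have := hg (r⁻¹ • z) (r⁻¹ • z')
    rw [dist_eq_norm, ← smul_sub, norm_smul, norm_inv, Real.norm_eq_abs, abs_of_pos hr] at this
    rw [dist_eq_norm]
    calc r * |g (r⁻¹ • z) - g (r⁻¹ • z')| ≤ r * (r⁻¹ * ‖z - z'‖) := by gcongr
      _ = ‖z - z'‖ := by field_simp
  · refine (abs_min_sub_min_le_max _ _ _ _).trans (max_le (by simp) ?_)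
    refine (abs_max_sub_max_le_max _ _ _ _).trans (max_le (by simp) ?_)
    rw [sub_sub_sub_cancel_right]
    rw [dist_eq_norm]
    exact abs_norm_sub_norm_le _ _

theorem scl_zero_lip (ε r : ℝ) (hr : 0 < r) (z : X) : scl ε r (fun _ => (0 : ℝ)) z = 0 := by
  unfold scl
  rw [mul_zero]
  refine clip_eq ?_
  rw [abs_zero]
  exact le_min (by positivity) (le_max_left _ _)

theorem scl_cont (ε r : ℝ) : Continuous (fun g : X → ℝ => scl ε r g) := by
  refine continuous_pi fun z => ?_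
  unfold scl clip
  have : Continuous (fun g : X → ℝ => g (r⁻¹ • z)) := continuous_apply _
  fun_prop

theorem main_upper (hsep : TopologicalSpace.SeparableSpace X) (hX : Superreflexive X) {ε : ℝ}
    (hε : 0 < ε) (hε' : ε < 1 / 8) {γ : Ordinal.{0}} (hγ : ∀ k : ℕ, ω ^ k ≤ γ) :
    cX (COrd γ) X ≤ ENNReal.ofReal (1 / (1 - 6 * ε)) := by
  classical
  obtain ⟨d, hd⟩ := TopologicalSpace.exists_dense_seq X
  let e : ℕ → X := fun j => Nat.casesOn j 0 d
  have he0 : e 0 = 0 := rfl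
  have he : DenseRange e := by
    refine hd.mono ?_
    rintro _ ⟨j, rfl⟩
    exact ⟨j + 1, rfl⟩
  obtain ⟨k, hk⟩ := exists_not_Sh hX hε (show (0 : ℝ) < 9 by norm_num)
  obtain ⟨L, hL⟩ := exists_nat_gt (6 / ε)
  rw [div_lt_iff₀ hε] at hL
  -- the families
  have hfam : ∀ (N : ℕ) (s : ℝ), ∃ h : Ordinal.{0} → X → ℝ, OrdFam k h ∧ (∀ ξ, Lip1 (h ξ)) ∧
      (∀ ξ, ∀ j < max N 1, h ξ (e j) = 0) ∧
      ∀ φ, ∃ ξ, ∀ z, |Psi e N s φ z - h ξ z| ≤ ε := by
    intro N s
    obtain ⟨h, h1, h2, h3, h4⟩ := predict (Psi e N s) (Psi_lip e N s) hε e he k Set.univ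
      (fun h => hk (Sh_Psi e N s hε h)) (max N 1) (by omega) (fun _ => 0)
      (fun x y => by simp) (fun φ _ j hj => by rw [Psi_zero e N s φ hj]; simpa using hε.le)
    refine ⟨h, h1, h2, h3, fun φ => ?_⟩
    obtain ⟨ξ, hξ⟩ := h4 φ (Set.mem_univ _)
    refine ⟨ξ, fun z => ?_⟩
    refine le_of_forall_pos_le_add fun δ hδ => ?_
    obtain ⟨j, hj⟩ := he.exists_dist_lt z (half_pos hδ)
    have a1 := hξ j
    have a2 := Psi_lip e N s φ z (e j)
    have a3 := h2 ξ z (e j)
    rw [show Psi e N s φ z - h ξ z = (Psi e N s φ z - Psi e N s φ (e j)) +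
      ((Psi e N s φ (e j) - h ξ (e j)) - (h ξ z - h ξ (e j))) by ring]
    refine (abs_add_le _ _).trans ?_
    have a4 := abs_sub (Psi e N s φ (e j) - h ξ (e j)) (h ξ z - h ξ (e j))
    linarith
  choose h hh1 hh2 hh3 hh4 using hfam
  have h1ε : (1 : ℝ) < 1 + ε := by linarith
  have hpos : ∀ n : ℤ, 0 < (1 + ε) ^ n := fun n => zpow_pos (by linarith) n
  let fam : ℤ × ℕ × Fin (L + 1) → Ordinal.{0} → X → ℝ := fun i ξ =>
    scl ε ((1 + ε) ^ i.1) (h i.2.1 (-3 + (i.2.2 : ℕ) * ε) ξ)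
  have hfam1 : ∀ i, OrdFam k (fam i) := fun i => (hh1 _ _).comp (scl_cont ε _)
  obtain ⟨g, hg, hg1, hg2, hg3⟩ := OrdFam.glue_countable fam hfam1 (fun _ => (0 : ℝ)) (by
    refine pi_limit_criterion _ _ _ ?_
    intro w δ hδ
    obtain ⟨n1, hn1⟩ := pow_unbounded_of_one_lt (‖w‖ / ε) h1ε
    obtain ⟨n0, hn0⟩ := pow_unbounded_of_one_lt (10 / δ) h1ε
    have hJ : ∀ n : ℤ, ∃ j, dist (((1 + ε) ^ n)⁻¹ • w) (e j) < δ / (1 + ε) ^ n := fun n =>
      he.exists_dist_lt _ (div_pos hδ (hpos n))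
    choose J hJ using hJ
    have hfin : (⋃ n ∈ Set.Icc (-(n0 : ℤ)) n1, ({n} : Set ℤ) ×ˢ
        ((Set.Iic (J n)) ×ˢ (Set.univ : Set (Fin (L + 1))))).Finite := by
      refine (Set.finite_Icc _ _).biUnion fun n _ => ?_
      exact (Set.finite_singleton n).prod ((Set.finite_Iic _).prod Set.finite_univ)
    refine hfin.subset ?_
    rintro ⟨n, N, m⟩ hidx
    by_contra hcon
    apply hidx
    intro ξ
    rw [sub_zero]
    have hr := hpos n
    set r := (1 + ε) ^ n with hrdef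
    have hκ0 : 0 ≤ min (10 * r) (max 0 (‖w‖ - ε * r)) := le_min (by positivity) (le_max_left _ _)
    have hb1 : |fam (n, N, m) ξ w| ≤ min (10 * r) (max 0 (‖w‖ - ε * r)) := clip_abs_le hκ0
    have hb2 : |fam (n, N, m) ξ w| ≤ |r * h N (-3 + (m : ℕ) * ε) ξ (r⁻¹ • w)| := clip_abs_le' hκ0
    by_cases hn : n ∈ Set.Icc (-(n0 : ℤ)) n1
    · have hNJ : J n < N := by
        by_contra hN
        push Not at hN
        apply hcon
        refine Set.mem_biUnion hn ?_
        exact ⟨rfl, hN, Set.mem_univ _⟩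
      have h3 := hh3 N (-3 + (m : ℕ) * ε) ξ (J n) (by omega)
      have h4 := hh2 N (-3 + (m : ℕ) * ε) ξ (r⁻¹ • w) (e (J n))
      rw [h3, sub_zero] at h4
      rw [abs_mul, abs_of_pos hr] at hb2
      have h5 := hJ n
      rw [← hrdef, lt_div_iff₀ hr] at h5
      nlinarith
    · rw [Set.mem_Icc, not_and_or, not_le, not_le] at hn
      rcases hn with hn | hn
      · have h3 : (1 + ε) ^ n ≤ (1 + ε) ^ (-(n0 : ℤ)) := zpow_le_zpow_right₀ h1ε.le hn.le
        rw [zpow_neg, zpow_natCast] at h3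
        have h4 : 10 * ((1 + ε) ^ n0)⁻¹ < δ := by
          have hp : 0 < (1 + ε) ^ n0 := pow_pos (by linarith) _
          rw [div_lt_iff₀ hδ] at hn0
          rw [← div_eq_mul_inv, div_lt_iff₀ hp]
          linarith
        have h5 := hb1.trans (min_le_left _ _)
        rw [← hrdef] at h3
        linarith
      · have h3 : (1 + ε) ^ (n1 : ℤ) ≤ (1 + ε) ^ n := zpow_le_zpow_right₀ h1ε.le hn.le
        rw [zpow_natCast, ← hrdef] at h3
        rw [div_lt_iff₀ hε] at hn1
        have h4 : ‖w‖ - ε * r ≤ 0 := by nlinarith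
        have h5 := hb1.trans (min_le_right _ _)
        rw [max_eq_left h4] at h5
        linarith)
  refine cX_COrd_le (hγ (k + 1)) g hg ?_ _ ?_
  · intro ξ x y
    rcases hg3 ξ with h5 | ⟨i, ξ', h5⟩
    · rw [h5]; simp
    · rw [h5]
      exact scl_lip (hpos _) (hh2 _ _ _) x y
  · intro x y hxy
    have hdist : 0 < dist x y := dist_pos.2 hxy
    obtain ⟨n, hn1, hn2⟩ := exists_mem_Ico_zpow hdist h1ε
    have hr := hpos n
    rw [zpow_add_one₀ (by linarith)] at hn2
    set r := (1 + ε) ^ n with hrdef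
    have hxy' : ‖r⁻¹ • x - r⁻¹ • y‖ = r⁻¹ * dist x y := by
      rw [← smul_sub, norm_smul, norm_inv, Real.norm_eq_abs, abs_of_pos hr, dist_eq_norm]
    have b1 : 1 ≤ ‖r⁻¹ • x - r⁻¹ • y‖ := by
      rw [hxy', ← div_eq_inv_mul, one_le_div hr]
      exact hn1
    have b2 : ‖r⁻¹ • x - r⁻¹ • y‖ < 1 + ε := by
      rw [hxy', ← div_eq_inv_mul, div_lt_iff₀ hr]
      linarith
    obtain ⟨N, s, φ, hs, hφ⟩ := exists_target e he he0 hε' b1 b2
    -- the grid point
    obtain ⟨m, hmL, hm⟩ : ∃ m : ℕ, m < L + 1 ∧ |s - (-3 + (m : ℝ) * ε)| ≤ ε := by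
      rw [abs_le] at hs
      have h0 : 0 ≤ (s + 3) / ε := div_nonneg (by linarith) hε.le
      have c1 := Nat.floor_le h0
      have c2 := Nat.lt_floor_add_one ((s + 3) / ε)
      rw [le_div_iff₀ hε] at c1
      rw [div_lt_iff₀ hε] at c2
      refine ⟨⌊(s + 3) / ε⌋₊, ?_, ?_⟩
      · have h3 : (⌊(s + 3) / ε⌋₊ : ℝ) * ε < L * ε := by linarith
        have h4 := lt_of_mul_lt_mul_right h3 hε.le
        have h5 : ⌊(s + 3) / ε⌋₊ < L := by exact_mod_cast h4
        omega
      · rw [abs_le]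
        constructor <;> linarith
    obtain ⟨ξ, hξ⟩ := hh4 N (-3 + (m : ℝ) * ε) φ
    have hPs : ∀ z, |Psi e N s φ z - Psi e N (-3 + (m : ℝ) * ε) φ z| ≤ ε := by
      intro z
      refine clip_lip ?_ (by simpa using hε.le)
      rw [add_sub_add_left_eq_sub]
      exact hm
    obtain ⟨ξ', hξ'⟩ := hg1 (n, N, ⟨m, hmL⟩) ξ
    refine ⟨ξ', ?_⟩
    rw [hξ']
    set H := h N (-3 + (m : ℝ) * ε) ξ with hH
    have hfameq : fam (n, N, ⟨m, hmL⟩) ξ = scl ε r H := rfl
    rw [hfameq]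
    -- closeness
    have hcl : ∀ z : X, |scl ε r H z - r * H (r⁻¹ • z)| ≤ ε * r := by
      intro z
      refine clip_sub_le (by positivity) (le_min (by positivity) (le_max_left _ _)) ?_
      have d1 : |H (r⁻¹ • z)| ≤ ‖r⁻¹ • z‖ := by
        have := hh2 N (-3 + (m : ℝ) * ε) ξ (r⁻¹ • z) (e 0)
        rw [hh3 N (-3 + (m : ℝ) * ε) ξ 0 (by omega), sub_zero, he0, dist_zero_right] at this
        exact this
      have d2 : |H (r⁻¹ • z)| ≤ 10 := by
        have e1 := hξ (r⁻¹ • z)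
        have e2 : |Psi e N (-3 + (m : ℝ) * ε) φ (r⁻¹ • z)| ≤ 9 := by
          refine (clip_abs_le (rho_nonneg e N _)).trans ((min_le_left _ _).trans ?_)
          exact max_le (by norm_num) (by linarith [norm_nonneg (r⁻¹ • z - e N)])
        have e3 : H (r⁻¹ • z) = Psi e N (-3 + (m : ℝ) * ε) φ (r⁻¹ • z) -
          (Psi e N (-3 + (m : ℝ) * ε) φ (r⁻¹ • z) - H (r⁻¹ • z)) := by ring
        rw [e3]
        refine (abs_sub _ _).trans ?_
        linarith
      rw [abs_mul, abs_of_pos hr]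
      rw [norm_smul, norm_inv, Real.norm_eq_abs, abs_of_pos hr] at d1
      have d3 : r * |H (r⁻¹ • z)| ≤ ‖z‖ := by
        calc r * |H (r⁻¹ • z)| ≤ r * (r⁻¹ * ‖z‖) := by gcongr
          _ = ‖z‖ := by field_simp
      have d4 : r * |H (r⁻¹ • z)| ≤ 10 * r := by nlinarith
      have d5 : r * |H (r⁻¹ • z)| - ε * r ≤ min (10 * r) (max 0 (‖z‖ - ε * r)) :=
        le_min (by nlinarith) (le_trans (by linarith) (le_max_right _ _))
      linarith
    have f1 := hcl x
    have f2 := hcl y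
    have f3 := hξ (r⁻¹ • x)
    have f4 := hξ (r⁻¹ • y)
    have f5 := hPs (r⁻¹ • x)
    have f6 := hPs (r⁻¹ • y)
    rw [abs_le] at f1 f2 f3 f4 f5 f6
    have f7 : ‖r⁻¹ • x - r⁻¹ • y‖ - 4 * ε ≤ H (r⁻¹ • x) - H (r⁻¹ • y) := by
      rw [← hφ]
      linarith [f3.1, f3.2, f4.1, f4.2, f5.1, f5.2, f6.1, f6.2]
    rw [hxy'] at f7
    have f8 : dist x y - 4 * ε * r ≤ r * H (r⁻¹ • x) - r * H (r⁻¹ • y) := by
      have := mul_le_mul_of_nonneg_left f7 hr.le
      have h9 : r * (r⁻¹ * dist x y - 4 * ε) = dist x y - 4 * ε * r := by field_simp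
      rw [h9, mul_sub] at this
      exact this
    have f9 : dist x y - 6 * ε * r ≤ scl ε r H x - scl ε r H y := by
      linarith [f1.1, f1.2, f2.1, f2.2]
    have f10 : dist x y * (1 - 6 * ε) ≤ |scl ε r H x - scl ε r H y| := by
      refine le_trans ?_ (f9.trans (le_abs_self _))
      nlinarith
    rw [div_mul_eq_mul_div, one_mul, le_div_iff₀ (by linarith)]
    exact f10

end SRU

/-- Superreflexive separable spaces embed almost isometrically into `C([0, γ])`, `γ ≥ ω^ω`. -/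
theorem cX_le_one {X : Type} [NormedAddCommGroup X] [NormedSpace ℝ X]
    (hsep : TopologicalSpace.SeparableSpace X) (hX : Superreflexive X) {γ : Ordinal.{0}}
    (hγ : ∀ k : ℕ, ω ^ k ≤ γ) : cX (COrd γ) X ≤ 1 := by
  have hlim : Tendsto (fun ε : ℝ => ENNReal.ofReal (1 / (1 - 6 * ε))) (𝓝[>] 0)
      (𝓝 (ENNReal.ofReal (1 / (1 - 6 * 0)))) := by
    refine ENNReal.tendsto_ofReal ?_
    refine tendsto_nhdsWithin_of_tendsto_nhds ?_
    have : ContinuousAt (fun ε : ℝ => 1 / (1 - 6 * ε)) 0 :=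
      ContinuousAt.div (by fun_prop) (by fun_prop) (by norm_num)
    exact this
  have h2 : ENNReal.ofReal (1 / (1 - 6 * 0)) = 1 := by norm_num
  rw [h2] at hlim
  refine ge_of_tendsto hlim ?_
  filter_upwards [Ioo_mem_nhdsGT (show (0 : ℝ) < 1 / 8 by norm_num)] with ε hε
  exact SRU.main_upper hsep hX hε.1 hε.2 hγ

end Pool.Agent.F896b9
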