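import Pool.Agent.Work.MP_f896b9_an.Typ3
import Pool.Agent.Work.MP_f896b9_an.Group
import Pool.Agent.Work.MP_f896b9_an.LowerCountable

open Set TopologicalSpace UniformSpace

namespace Pool.Agent.F896b9

namespace Typ

/-- sup norm -/
noncomputable def sn (x : ℚ → ℝ) : ℝ := ⨆ t, |x t|

theorem le_sn {x : ℚ → ℝ} (hx : Bd x) (t : ℚ) : |x t| ≤ sn x := by
  obtain ⟨C, hC⟩ := hx
  exact le_ciSup (f := fun t => |x t|) ⟨C, by rintro _ ⟨t, rfl⟩; exact hC t⟩ t

theorem sn_le {x : ℚ → ℝ} {C : ℝ} (h : ∀ t, |x t| ≤ C) : sn x ≤ C := ciSup_le h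

theorem sn_nonneg (x : ℚ → ℝ) : 0 ≤ sn x := Real.iSup_nonneg fun _ => abs_nonneg _

/-- the norm `max (sup norm) (W norm / 7)` -/
noncomputable def nn (x : ℚ → ℝ) : ℝ := max (sn x) (Real.sqrt (Wq x) / 7)

theorem Wq_add {x y : ℚ → ℝ} (hx : ∃ c, VB c x) (hy : ∃ c, VB c y) :
    Real.sqrt (Wq (x + y)) ≤ Real.sqrt (Wq x) + Real.sqrt (Wq y) := by
  have hsx := ss_summable hx
  have hsy := ss_summable hy
  have hconv : ∀ z : ℚ → ℝ, ss z = fun m => (2 ^ m * kk (4 ^ m) z) ^ (2 : ℝ) := by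
    intro z
    ext m
    rw [Real.rpow_two, mul_pow, ← pow_mul, mul_comm m 2, pow_mul]
    unfold ss
    norm_num
  have hnn : ∀ (z : ℚ → ℝ) (m : ℕ), 0 ≤ 2 ^ m * kk (4 ^ m) z := fun z m =>
    mul_nonneg (by positivity) (kk_nonneg _ _)
  have h1 := hsx
  have h2 := hsy
  rw [hconv] at h1 h2
  obtain ⟨h3, h4⟩ := Real.Lp_add_le_tsum_of_nonneg (p := 2) (by norm_num) (hnn x) (hnn y) h1 h2
  have hxy : ∃ c, VB c (x + y) := by
    obtain ⟨c, hc⟩ := hx
    obtain ⟨c', hc'⟩ := hy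
    exact ⟨_, hc.add hc'⟩
  have h5 : Wq (x + y) ≤ ∑' m, (2 ^ m * kk (4 ^ m) x + 2 ^ m * kk (4 ^ m) y) ^ (2 : ℝ) := by
    refine (ss_summable hxy).tsum_le_tsum ?_ h3
    intro m
    rw [hconv]
    refine Real.rpow_le_rpow (hnn _ _) ?_ (by norm_num)
    rw [← mul_add]
    refine mul_le_mul_of_nonneg_left ?_ (by positivity)
    obtain ⟨c, hc⟩ := hx
    obtain ⟨c', hc'⟩ := hy
    exact kk_add (by positivity) hc.bd hc'.bd
  rw [Real.sqrt_eq_rpow, Real.sqrt_eq_rpow, Real.sqrt_eq_rpow]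
  refine (Real.rpow_le_rpow (Wq_nonneg _) h5 (by norm_num)).trans (h4.trans (le_of_eq ?_))
  unfold Wq
  rw [hconv, hconv]

theorem Wq_smul {x : ℚ → ℝ} (hx : ∃ c, VB c x) (a : ℝ) :
    Real.sqrt (Wq (a • x)) ≤ |a| * Real.sqrt (Wq x) := by
  have h1 : Wq (a • x) ≤ |a| ^ 2 * Wq x := by
    unfold Wq
    rw [← tsum_mul_left]
    have hax : ∃ c, VB c (a • x) := by
      obtain ⟨c, hc⟩ := hx
      exact ⟨_, hc.smul a⟩
    refine (ss_summable hax).tsum_le_tsum ?_ ((ss_summable hx).mul_left _)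
    intro m
    unfold ss
    obtain ⟨c, hc⟩ := hx
    have h2 := kk_smul (N := 4 ^ m) (by positivity) hc.bd a
    have h3 := kk_nonneg (4 ^ m) (a • x)
    calc (4 : ℝ) ^ m * kk (4 ^ m) (a • x) ^ 2 ≤ 4 ^ m * (|a| * kk (4 ^ m) x) ^ 2 := by gcongr
      _ = _ := by ring
  refine (Real.sqrt_le_sqrt h1).trans (le_of_eq ?_)
  rw [Real.sqrt_mul (by positivity), Real.sqrt_sq (abs_nonneg a)]

theorem Wq_zero : Wq 0 = 0 := by
  unfold Wq ss
  simp [kk_zero]

theorem sn_le_Wq {x : ℚ → ℝ} (hx : ∃ c, VB c x) : sn x ≤ 2 * Real.sqrt (Wq x) := by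
  refine sn_le fun t => ?_
  have h1 := abs_le_kk (N := 1) zero_le_one (hx.elim fun c hc => hc.bd) t
  have h2 : ss x 0 ≤ Wq x := (ss_summable hx).le_tsum 0 (fun m _ => ss_nonneg x m)
  have h3 : ss x 0 = kk 1 x ^ 2 := by
    unfold ss
    norm_num
  rw [h3] at h2
  have h4 : kk 1 x ≤ Real.sqrt (Wq x) := Real.le_sqrt_of_sq_le h2
  refine h1.trans ?_
  linarith

/-- `z_q` -/
noncomputable def zq (q : ℚ) : ℚ → ℝ := fun t => if t < q then 1 else -1

/-- `δ_a` -/
noncomputable def da (a : ℚ) : ℚ → ℝ := fun t => if t = a then 1 else 0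

theorem VB_zq (q : ℚ) : VB 2 (zq q) := by
  refine ⟨fun t => ?_, fun t => if t < q then 0 else 2, ?_, ?_, ?_⟩
  · unfold zq
    split_ifs <;> norm_num
  · intro s t hst
    simp only
    split_ifs with h1 h2
    · exact le_rfl
    · norm_num
    · exact absurd (lt_of_le_of_lt hst (by assumption)) h1
    · exact le_rfl
  · intro t
    simp only
    split_ifs <;> norm_num
  · intro s t hst
    unfold zq
    simp only
    by_cases h1 : t < q
    · simp [h1, lt_of_le_of_lt hst h1]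
    · by_cases h2 : s < q
      · simp only [h1, h2, if_false, if_true]
        norm_num
      · simp [h1, h2]

theorem VB_da (a : ℚ) : VB 2 (da a) := by
  refine ⟨fun t => ?_, fun t => if t < a then 0 else if t = a then 1 else 2, ?_, ?_, ?_⟩
  · unfold da
    split_ifs <;> norm_num
  · intro s t hst
    simp only
    rcases lt_trichotomy s a with hs | hs | hs <;> rcases lt_trichotomy t a with ht | ht | ht
    · simp [hs, ht]
    · simp [hs, ht]
    · simp [hs, ht.not_gt, ht.ne']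
    · exact absurd (lt_of_le_of_lt hst ht) (by rw [hs]; exact lt_irrefl a)
    · simp [hs, ht]
    · simp [hs, ht.not_gt, ht.ne']
    · exact absurd (hs.trans_le hst) (not_lt.2 ht.le)
    · exact absurd (hs.trans_le hst) (not_lt.2 ht.le)
    · simp [hs.not_gt, hs.ne', ht.not_gt, ht.ne']
  · intro t
    simp only
    split_ifs <;> norm_num
  · intro s t hst
    unfold da
    rcases lt_trichotomy s a with hs | hs | hs <;> rcases lt_trichotomy t a with ht | ht | ht
    · simp [hs, ht, hs.ne, ht.ne]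
    · simp [hs, ht, hs.ne]
    · simp [hs, hs.ne, ht.not_gt, ht.ne']
    · exact absurd (lt_of_le_of_lt hst ht) (by rw [hs]; exact lt_irrefl a)
    · simp [hs, ht]
    · simp only [hs, if_true, lt_irrefl, if_false, ht.not_gt, ht.ne']
      norm_num
    · exact absurd (hs.trans_le hst) (not_lt.2 ht.le)
    · exact absurd (hs.trans_le hst) (not_lt.2 ht.le)
    · simp [hs.not_gt, hs.ne', ht.not_gt, ht.ne']

/-- the countable generating set -/
def gens : Set (ℚ → ℝ) := range zq ∪ range da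

/-- the span of the generators -/
def V0 : Submodule ℝ (ℚ → ℝ) := Submodule.span ℝ gens

theorem V0_VB {x : ℚ → ℝ} (hx : x ∈ V0) : ∃ c, VB c x := by
  refine Submodule.span_induction ?_ ?_ ?_ ?_ hx
  · rintro x (⟨q, rfl⟩ | ⟨q, rfl⟩)
    · exact ⟨2, VB_zq q⟩
    · exact ⟨2, VB_da q⟩
  · exact ⟨0, VB.zero le_rfl⟩
  · rintro x y _ _ ⟨c, hc⟩ ⟨c', hc'⟩
    exact ⟨_, hc.add hc'⟩
  · rintro a x _ ⟨c, hc⟩
    exact ⟨_, hc.smul a⟩

/-- the norm on the span as a seminorm -/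
noncomputable def pT : Seminorm ℝ V0 :=
  Seminorm.ofSMulLE (fun x => nn x.1)
    (by
      have : sn 0 = 0 := le_antisymm (sn_le (by simp)) (sn_nonneg 0)
      simp only [nn, ZeroMemClass.coe_zero, Wq_zero, this]
      simp)
    (by
      intro x y
      have hx := V0_VB x.2
      have hy := V0_VB y.2
      have hxb : Bd x.1 := hx.elim fun c hc => hc.bd
      have hyb : Bd y.1 := hy.elim fun c hc => hc.bd
      refine max_le ?_ ?_
      · have h1 : sn (x.1 + y.1) ≤ sn x.1 + sn y.1 := sn_le fun t =>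
          (abs_add_le _ _).trans (add_le_add (le_sn hxb t) (le_sn hyb t))
        exact h1.trans (add_le_add (le_max_left _ _) (le_max_left _ _))
      · have h1 := Wq_add hx hy
        have h2 : Real.sqrt (Wq (x.1 + y.1)) / 7 ≤
            Real.sqrt (Wq x.1) / 7 + Real.sqrt (Wq y.1) / 7 := by linarith
        exact h2.trans (add_le_add (le_max_right _ _) (le_max_right _ _)))
    (by
      intro a x
      have hx := V0_VB x.2
      have hxb : Bd x.1 := hx.elim fun c hc => hc.bd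
      rw [Real.norm_eq_abs]
      refine max_le ?_ ?_
      · have h1 : sn (a • x.1) ≤ |a| * sn x.1 := sn_le fun t => by
          rw [Pi.smul_apply, smul_eq_mul, abs_mul]
          exact mul_le_mul_of_nonneg_left (le_sn hxb t) (abs_nonneg a)
        exact h1.trans (mul_le_mul_of_nonneg_left (le_max_left _ _) (abs_nonneg a))
      · have h1 := Wq_smul hx a
        have h2 : Real.sqrt (Wq (a • x.1)) / 7 ≤ |a| * (Real.sqrt (Wq x.1) / 7) := by linarith
        exact h2.trans (mul_le_mul_of_nonneg_left (le_max_right _ _) (abs_nonneg a)))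

theorem pT_apply (x : V0) : pT x = nn x.1 := rfl

theorem pT_est (n : ℕ) (x : Fin n → V0) (G : Finset (Fin n)) (hG : ∀ i, i ∉ G → x i = 0) (h : ℝ)
    (_ : 0 ≤ h) (hx : ∀ i, pT (x i) ≤ h) (d : ℕ) :
    ∑ ε : Fin n → ℤˣ, pT (∑ i, sg (ε i) • x i) ^ 2 ≤
        2 ^ n * (6858432 * ((G.card : ℝ) ^ 2 / 4 ^ d + 4 ^ (7 * d)) * h ^ 2) := by
  have h1 := W_est (fun i => (x i).1) (fun i => V0_VB (x i).2) G
    (fun i hi => by rw [hG i hi]; rfl) (h := 7 * h) (fun i => by
      have h2 : Real.sqrt (Wq (x i).1) / 7 ≤ h := (le_max_right _ _).trans (hx i)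
      have h3 : Real.sqrt (Wq (x i).1) ≤ 7 * h := by linarith
      have h4 := Real.sq_sqrt (Wq_nonneg (x i).1)
      rw [← h4]
      have := Real.sqrt_nonneg (Wq (x i).1)
      gcongr) d
  have h2 : ∀ ε : Fin n → ℤˣ, pT (∑ i, sg (ε i) • x i) ^ 2 ≤
      4 * Wq (∑ i, sg (ε i) • (x i).1) := by
    intro ε
    have e1 : (∑ i, sg (ε i) • x i : V0).1 = ∑ i, sg (ε i) • (x i).1 := by
      rw [Submodule.coe_sum]
      rfl
    rw [pT_apply, e1]
    have e2 : ∃ c, VB c (∑ i, sg (ε i) • (x i).1) := by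
      rw [← e1]
      exact V0_VB (∑ i, sg (ε i) • x i : V0).2
    have e3 := sn_le_Wq e2
    have e4 := Wq_nonneg (∑ i, sg (ε i) • (x i).1)
    have e5 := Real.sqrt_nonneg (Wq (∑ i, sg (ε i) • (x i).1))
    have e6 := Real.sq_sqrt e4
    have e7 : nn (∑ i, sg (ε i) • (x i).1) ≤ 2 * Real.sqrt (Wq (∑ i, sg (ε i) • (x i).1)) :=
      max_le e3 (by linarith)
    have e8 : 0 ≤ nn (∑ i, sg (ε i) • (x i).1) := (sn_nonneg _).trans (le_max_left _ _)
    calc nn (∑ i, sg (ε i) • (x i).1) ^ 2 ≤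
        (2 * Real.sqrt (Wq (∑ i, sg (ε i) • (x i).1))) ^ 2 := by gcongr
      _ = 4 * (Real.sqrt (Wq (∑ i, sg (ε i) • (x i).1))) ^ 2 := by ring
      _ = _ := by rw [e6]
  calc ∑ ε : Fin n → ℤˣ, pT (∑ i, sg (ε i) • x i) ^ 2
      ≤ ∑ ε : Fin n → ℤˣ, 4 * Wq (∑ i, sg (ε i) • (x i).1) := Finset.sum_le_sum fun ε _ => h2 ε
    _ = 4 * ∑ ε : Fin n → ℤˣ, Wq (∑ i, sg (ε i) • (x i).1) := by rw [Finset.mul_sum]
    _ ≤ 4 * (2 ^ n * ((105 * (G.card : ℝ) ^ 2 / 4 ^ d + 34992 * 4 ^ (7 * d)) * (7 * h) ^ 2)) := by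
        gcongr
    _ ≤ _ := by
        have e1 : (0 : ℝ) ≤ (G.card : ℝ) ^ 2 / 4 ^ d := by positivity
        have e2 : 105 * (G.card : ℝ) ^ 2 / 4 ^ d + 34992 * 4 ^ (7 * d) ≤
            34992 * ((G.card : ℝ) ^ 2 / 4 ^ d + 4 ^ (7 * d)) := by
          rw [mul_div_assoc]
          linarith
        calc 4 * (2 ^ n * ((105 * (G.card : ℝ) ^ 2 / 4 ^ d + 34992 * 4 ^ (7 * d)) * (7 * h) ^ 2))
            ≤ 4 * (2 ^ n * ((34992 * ((G.card : ℝ) ^ 2 / 4 ^ d + 4 ^ (7 * d))) * (7 * h) ^ 2)) := by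
              gcongr
          _ = _ := by ring

/-- The space of nontrivial type. -/
noncomputable def ET : BanachSp := ⟨Completion (SN pT)⟩

theorem ET_mem : ET ∈ TYP := by
  refine ⟨?_, 16 / 15, by norm_num, by norm_num, ?_⟩
  · have hc : gens.Countable := (countable_range zq).union (countable_range da)
    have hc' : ((↑) ⁻¹' gens : Set (Submodule.span ℝ gens)).Countable :=
      hc.preimage Subtype.val_injective
    exact separable_completion pT hc' (Submodule.span_span_coe_preimage)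
  · exact hasType_completion pT (by norm_num) (type_of_est pT (by norm_num) pT_est)

/-- the points `z_q` -/
noncomputable def zV (q : ℚ) : V0 := ⟨zq q, Submodule.subset_span (Or.inl ⟨q, rfl⟩)⟩

/-- the points `δ_a` -/
noncomputable def dV (a : ℚ) : V0 := ⟨da a, Submodule.subset_span (Or.inr ⟨a, rfl⟩)⟩

theorem nn_le_one {x : ℚ → ℝ} (h1 : ∀ t, |x t| ≤ 1) (h2 : VB 6 x) : nn x ≤ 1 := by
  refine max_le (sn_le h1) ?_
  have h3 : Wq x ≤ 48 := by
    unfold Wq
    have h4 : ∑' m : ℕ, (6 : ℝ) ^ 2 * (1 / 4) ^ m = 48 := by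
      rw [tsum_mul_left, tsum_geometric_of_lt_one (by norm_num) (by norm_num)]
      norm_num
    rw [← h4]
    exact (ss_summable ⟨6, h2⟩).tsum_le_tsum (ss_le h2)
      ((summable_geometric_of_lt_one (by norm_num) (by norm_num)).mul_left _)
  have h5 : Real.sqrt (Wq x) ≤ 7 := by
    rw [Real.sqrt_le_left (by norm_num)]
    linarith
  linarith

theorem pT_xz {a q : ℚ} (h : a < q) : pT ((2 : ℝ) • dV a - zV q) ≤ 1 := by
  rw [pT_apply]
  refine nn_le_one ?_ ?_
  · intro t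
    change |2 * da a t - zq q t| ≤ 1
    unfold da zq
    by_cases ht : t = a
    · subst ht
      rw [if_pos rfl, if_pos h]
      norm_num
    · rw [if_neg ht]
      split_ifs <;> norm_num
  · have h1 := ((VB_da a).smul 2).add ((VB_zq q).smul (-1))
    have h2 : |(2 : ℝ)| * 2 + |(-1 : ℝ)| * 2 = 6 := by norm_num
    rw [h2] at h1
    convert h1 using 1
    ext t
    simp [dV, zV]
    ring

theorem pT_yz {a q : ℚ} (h : q ≤ a) : pT ((-2 : ℝ) • dV a - zV q) ≤ 1 := by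
  rw [pT_apply]
  refine nn_le_one ?_ ?_
  · intro t
    change |-2 * da a t - zq q t| ≤ 1
    unfold da zq
    by_cases ht : t = a
    · subst ht
      rw [if_pos rfl, if_neg (not_lt.2 h)]
      norm_num
    · rw [if_neg ht]
      split_ifs <;> norm_num
  · have h1 := ((VB_da a).smul (-2)).add ((VB_zq q).smul (-1))
    have h2 : |(-2 : ℝ)| * 2 + |(-1 : ℝ)| * 2 = 6 := by norm_num
    rw [h2] at h1
    convert h1 using 1
    ext t
    simp [dV, zV]
    ring

theorem pT_xy (a : ℚ) : 4 ≤ pT ((2 : ℝ) • dV a - (-2 : ℝ) • dV a) := by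
  rw [pT_apply]
  refine le_trans ?_ (le_max_left _ _)
  have hb : Bd ((2 : ℝ) • dV a - (-2 : ℝ) • dV a : V0).1 := by
    obtain ⟨c, hc⟩ := V0_VB ((2 : ℝ) • dV a - (-2 : ℝ) • dV a : V0).2
    exact hc.bd
  have h := le_sn hb a
  refine le_trans (le_of_eq ?_) h
  change 4 = |2 * da a a - -2 * da a a|
  unfold da
  norm_num

theorem two_le_cX_ET {K : Type*} [TopologicalSpace K] [CompactSpace K] [Countable K] :
    2 ≤ cX C(K, ℝ) ET.carrier := by
  classical
  let z : ℚ → ET.carrier := fun q => toCo pT (zV q)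
  have : Uncountable ℝ := inferInstance
  refine two_le_cX_of_incompatible (ι := ℝ) z (fun a => {q | a < (q : ℝ)})
    (fun a => {q | (q : ℝ) ≤ a}) ?_ ?_ ?_ ?_
  · intro a
    exact exists_rat_gt a
  · intro a
    obtain ⟨q, hq⟩ := exists_rat_lt a
    exact ⟨q, hq.le⟩
  · intro a P0 Q0 hP hQ
    obtain ⟨b, hb1, hb2⟩ : ∃ b : ℚ, a < b ∧ ∀ q ∈ P0, b < q := by
      rcases P0.eq_empty_or_nonempty with h | h
      · obtain ⟨b, hb⟩ := exists_rat_gt a
        exact ⟨b, hb, by simp [h]⟩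
      · have h1 : a < (P0.min' h : ℝ) := hP (P0.min'_mem h)
        obtain ⟨b, hb1, hb2⟩ := exists_rat_btwn h1
        refine ⟨b, hb1, fun q hq => ?_⟩
        have h2 : b < P0.min' h := by exact_mod_cast hb2
        exact h2.trans_le (P0.min'_le q hq)
    refine ⟨toCo pT ((2 : ℝ) • dV b), toCo pT ((-2 : ℝ) • dV b), ?_, ?_, ?_⟩
    · intro q hq
      exact (dist_toCo pT _ _).trans_le (pT_xz (hb2 q hq))
    · intro q hq
      refine (dist_toCo pT _ _).trans_le (pT_yz ?_)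
      have h1 : (q : ℝ) ≤ a := hQ hq
      have h2 : (q : ℝ) < b := h1.trans_lt hb1
      exact_mod_cast h2.le
    · exact (pT_xy b).trans (dist_toCo pT _ _).ge
  · intro a b hab
    rcases lt_or_gt_of_ne hab with h | h
    · obtain ⟨q, hq1, hq2⟩ := exists_rat_btwn h
      exact Or.inl ⟨q, hq1, hq2.le⟩
    · obtain ⟨q, hq1, hq2⟩ := exists_rat_btwn h
      exact Or.inr ⟨q, hq1, hq2.le⟩

end Typ

end Pool.Agent.F896b9
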