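import Pool.Agent.Work.MP_f896b9_an.KL
import Pool.Agent.Work.MP_f896b9_an.Cot
import Pool.Agent.Work.MP_f896b9_an.Typ4
import Pool.Agent.Work.MP_f896b9_an.SRLower
import Pool.Agent.Work.MP_f896b9_an.SRUpper

open scoped Ordinal

namespace Pool.Agent.F896b9

theorem omega_le_opow {α : Ordinal.{0}} (h1 : 1 ≤ α) : (ω : Ordinal.{0}) ≤ ω ^ α := by
  calc (ω : Ordinal.{0}) = ω ^ (1 : Ordinal.{0}) := (Ordinal.opow_one _).symm
    _ ≤ ω ^ α := Ordinal.opow_le_opow_right Ordinal.omega0_pos h1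

theorem cClass_le_two {α : Ordinal.{0}} (h1 : 1 ≤ α) {𝒞 : Set BanachSp}
    (h : ∀ E ∈ 𝒞, TopologicalSpace.SeparableSpace E.carrier) :
    cClass (COrd (ω ^ α)) 𝒞 ≤ 2 := by
  unfold cClass
  refine iSup₂_le fun E hE => ?_
  have := h E hE
  exact cX_COrd_le_two (omega_le_opow h1) E.carrier

theorem le_cClass {X : Type 1} [MetricSpace X] {𝒞 : Set BanachSp} {E : BanachSp} (hE : E ∈ 𝒞) :
    cX X E.carrier ≤ cClass X 𝒞 := by
  unfold cClass
  exact le_iSup₂_of_le E hE le_rfl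

theorem cot_eq {α : Ordinal.{0}} (h1 : 1 ≤ α) (h2 : α < ω₁) :
    cClass (COrd (ω ^ α)) COT = 2 := by
  refine le_antisymm (cClass_le_two h1 fun E hE => hE.1) ?_
  have := countable_Icc_opow h2
  exact two_le_cX_EC.trans (le_cClass EC_mem)

theorem typ_eq {α : Ordinal.{0}} (h1 : 1 ≤ α) (h2 : α < ω₁) :
    cClass (COrd (ω ^ α)) TYP = 2 := by
  refine le_antisymm (cClass_le_two h1 fun E hE => hE.1) ?_
  have := countable_Icc_opow h2
  exact Typ.two_le_cX_ET.trans (le_cClass Typ.ET_mem)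

theorem sr_eq_two {α : Ordinal.{0}} (h1 : 1 ≤ α) (h2 : α < ω) :
    cClass (COrd (ω ^ α)) SR = 2 := by
  refine le_antisymm (cClass_le_two h1 fun E hE => hE.1) ?_
  obtain ⟨k, rfl⟩ := Ordinal.lt_omega0.1 h2
  exact (two_le_cX_ES_opow k).trans (le_cClass (ES_mem (k + 1)))

theorem sr_eq_one {α : Ordinal.{0}} (h1 : ω ≤ α) :
    cClass (COrd (ω ^ α)) SR = 1 := by
  refine le_antisymm ?_ ?_
  · unfold cClass
    refine iSup₂_le fun E hE => ?_
    refine cX_le_one hE.1 hE.2 ?_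
    intro k
    rw [← Ordinal.opow_natCast]
    exact Ordinal.opow_le_opow_right Ordinal.omega0_pos ((Ordinal.natCast_lt_omega0 k).le.trans h1)
  · have hR : (⟨ℝ⟩ : BanachSp) ∈ SR :=
      ⟨inferInstanceAs (TopologicalSpace.SeparableSpace ℝ),
        superreflexive_of_hilbertian (E := ℝ) (H := ℝ) LinearMap.id 1 (by simp) (by simp)⟩
    have h2 : (1 : ENNReal) ≤ cX (COrd (ω ^ α)) (⟨ℝ⟩ : BanachSp).carrier :=
      one_le_cX (M := ℝ)
    exact h2.trans (le_cClass hR)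

end Pool.Agent.F896b9
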