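import Pool.Agent.Work.MP_f896b9_an.Sh
import Pool.Agent.Work.MP_f896b9_an.Family

open Set Filter Topology
open scoped Ordinal

namespace Pool.Agent.F896b9

theorem Sh.mono {ι S : Type*} {f : ι → S → ℝ} {ε : ℝ} {k : ℕ} {A B : Set ι} (h : Sh f ε k A)
    (hAB : A ⊆ B) : Sh f ε k B := by
  induction k generalizing A B with
  | zero => exact Set.Nonempty.mono hAB h
  | succ k ih =>
    obtain ⟨s, c, h1, h2⟩ := h
    exact ⟨s, c, ih h1 fun i hi => ⟨hAB hi.1, hi.2⟩, ih h2 fun i hi => ⟨hAB hi.1, hi.2⟩⟩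

theorem Sh.nonempty {ι S : Type*} {f : ι → S → ℝ} {ε : ℝ} {k : ℕ} {A : Set ι} (h : Sh f ε k A) :
    A.Nonempty := by
  induction k generalizing A with
  | zero => exact h
  | succ k ih =>
    obtain ⟨s, c, h1, h2⟩ := h
    exact (ih h1).mono fun i hi => hi.1

/-- 1-Lipschitz functions -/
def Lip1 {M : Type*} [MetricSpace M] (g : M → ℝ) : Prop := ∀ x y, |g x - g y| ≤ dist x y

/-- change `g` so that its value at `s` is `v` -/
noncomputable def pin {M : Type*} [MetricSpace M] (g : M → ℝ) (s : M) (v : ℝ) : M → ℝ :=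
  fun x => max (v - dist x s) (min (v + dist x s) (g x))

theorem pin_lip {M : Type*} [MetricSpace M] {g : M → ℝ} (hg : Lip1 g) (s : M) (v : ℝ) :
    Lip1 (pin g s v) := by
  intro x y
  unfold pin
  have h1 := abs_dist_sub_le x y s
  refine (abs_max_sub_max_le_max _ _ _ _).trans (max_le ?_ ?_)
  · rw [show v - dist x s - (v - dist y s) = -(dist x s - dist y s) by ring, abs_neg]
    exact h1
  · refine (abs_min_sub_min_le_max _ _ _ _).trans (max_le ?_ (hg x y))
    rw [show v + dist x s - (v + dist y s) = dist x s - dist y s by ring]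
    exact h1

theorem pin_self {M : Type*} [MetricSpace M] (g : M → ℝ) (s : M) (v : ℝ) : pin g s v s = v := by
  unfold pin
  rw [dist_self, sub_zero, add_zero]
  exact max_eq_left (min_le_left _ _)

theorem pin_eq {M : Type*} [MetricSpace M] {g : M → ℝ} {s : M} {v : ℝ} {x : M}
    (h : |v - g x| ≤ dist x s) : pin g s v x = g x := by
  unfold pin
  rw [abs_le] at h
  rw [min_eq_right (by linarith), max_eq_right (by linarith)]

section

variable {ι M : Type*} [MetricSpace M] (f : ι → M → ℝ) (hf : ∀ i, Lip1 (f i)) {ε : ℝ}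
  (hε : 0 < ε) (e : ℕ → M)

include hf hε

theorem step (k : ℕ) {A : Set ι} (hA : ¬ Sh f ε (k + 1) A) {n : ℕ} (hn : 0 < n) {g : M → ℝ}
    (hg : Lip1 g) (hAg : ∀ i ∈ A, ∀ j < n, |f i (e j) - g (e j)| ≤ ε) :
    ∃ lo v hi : ℝ, lo ≤ v ∧ v ≤ hi ∧
      (∀ w, lo ≤ w → w ≤ hi → ∀ j < n, |w - g (e j)| ≤ dist (e j) (e n)) ∧
      (∀ i ∈ A, lo - ε ≤ f i (e n) ∧ f i (e n) ≤ hi + ε) ∧
      ¬ Sh f ε k {i | i ∈ A ∧ v + ε < f i (e n)} ∧
      ¬ Sh f ε k {i | i ∈ A ∧ f i (e n) < v - ε} := by
  have hne : (Finset.range n).Nonempty := Finset.nonempty_range_iff.2 hn.ne'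
  set lo := (Finset.range n).sup' hne (fun j => g (e j) - dist (e j) (e n)) with hlo
  set hi := (Finset.range n).inf' hne (fun j => g (e j) + dist (e j) (e n)) with hhi
  have hlo1 : ∀ j < n, g (e j) - dist (e j) (e n) ≤ lo := fun j hj =>
    Finset.le_sup' (fun j => g (e j) - dist (e j) (e n)) (Finset.mem_range.2 hj)
  have hhi1 : ∀ j < n, hi ≤ g (e j) + dist (e j) (e n) := fun j hj =>
    Finset.inf'_le (fun j => g (e j) + dist (e j) (e n)) (Finset.mem_range.2 hj)
  have hlog : lo ≤ g (e n) := by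
    rw [hlo, Finset.sup'_le_iff]
    intro j _
    have := (abs_le.1 (hg (e j) (e n))).2
    linarith
  have hhig : g (e n) ≤ hi := by
    rw [hhi, Finset.le_inf'_iff]
    intro j _
    have := (abs_le.1 (hg (e j) (e n))).1
    linarith
  have hlohi : lo ≤ hi := hlog.trans hhig
  have hflo : ∀ i ∈ A, lo - ε ≤ f i (e n) := by
    intro i hi'
    rw [sub_le_iff_le_add, hlo, Finset.sup'_le_iff]
    intro j hj
    have h1 := (abs_le.1 (hAg i hi' j (Finset.mem_range.1 hj))).2
    have h1' := (abs_le.1 (hAg i hi' j (Finset.mem_range.1 hj))).1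
    have h2 := (abs_le.1 (hf i (e j) (e n))).2
    linarith
  have hfhi : ∀ i ∈ A, f i (e n) ≤ hi + ε := by
    intro i hi'
    rw [← sub_le_iff_le_add, hhi, Finset.le_inf'_iff]
    intro j hj
    have h1 := (abs_le.1 (hAg i hi' j (Finset.mem_range.1 hj))).2
    have h2 := (abs_le.1 (hf i (e j) (e n))).1
    linarith
  -- the predicted value
  obtain ⟨v', hv1, hv2⟩ : ∃ v' : ℝ, ¬ Sh f ε k {i | i ∈ A ∧ v' + ε ≤ f i (e n)} ∧
      ¬ Sh f ε k {i | i ∈ A ∧ f i (e n) ≤ v' - ε} := by
    by_cases hk : Sh f ε k A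
    · let P : ℝ → Prop := fun c => Sh f ε k {i | i ∈ A ∧ c ≤ f i (e n)}
      have hPlow : P (lo - ε) := hk.mono fun i hi' => ⟨hi', hflo i hi'⟩
      have hex : ∃ m : ℕ, ¬ P (lo - ε + m * ε) := by
        obtain ⟨m, hm⟩ := exists_nat_gt ((hi - lo + 2 * ε) / ε)
        refine ⟨m, fun h => ?_⟩
        obtain ⟨i, hi1, hi2⟩ := h.nonempty
        have h3 := hfhi i hi1
        rw [div_lt_iff₀ hε] at hm
        linarith
      classical
      have hm := Nat.find_spec hex
      obtain ⟨m, hm1⟩ : ∃ m, Nat.find hex = m + 1 := by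
        rcases Nat.eq_zero_or_pos (Nat.find hex) with h | h
        · rw [h] at hm
          exact absurd (by simpa using hPlow) hm
        · exact ⟨Nat.find hex - 1, by omega⟩
      have hPm : P (lo - ε + m * ε) := by
        by_contra hcon
        have := Nat.find_min' hex hcon
        omega
      rw [hm1] at hm
      refine ⟨lo - ε + m * ε, ?_, ?_⟩
      · intro h
        apply hm
        refine h.mono fun i hi' => ⟨hi'.1, ?_⟩
        have := hi'.2
        push_cast
        linarith
      · intro h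
        refine hA ⟨e n, lo - ε + m * ε - ε, ?_, h⟩
        rw [sub_add_cancel]
        exact hPm
    · exact ⟨0, fun h => hk (h.mono fun i hi' => hi'.1), fun h => hk (h.mono fun i hi' => hi'.1)⟩
  refine ⟨lo, max lo (min hi v'), hi, le_max_left _ _, max_le hlohi (min_le_left _ _), ?_,
    fun i hi' => ⟨hflo i hi', hfhi i hi'⟩, ?_, ?_⟩
  · intro w hw1 hw2 j hj
    have h1 := hlo1 j hj
    have h2 := hhi1 j hj
    rw [abs_le]
    constructor <;> linarith
  · intro h
    apply hv1
    refine h.mono fun i hi' => ⟨hi'.1, ?_⟩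
    have h1 := hfhi i hi'.1
    have h2 := hi'.2
    have h3 : max lo (min hi v') < hi := by linarith
    have h4 : min hi v' < hi := (le_max_right _ _).trans_lt h3
    have h5 : min hi v' = v' := by
      rcases min_choice hi v' with h | h
      · rw [h] at h4; exact absurd h4 (lt_irrefl _)
      · exact h
    have h6 : v' ≤ max lo (min hi v') := by rw [h5]; exact le_max_right _ _
    linarith
  · intro h
    apply hv2
    refine h.mono fun i hi' => ⟨hi'.1, ?_⟩
    have h1 := hflo i hi'.1
    have h2 := hi'.2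
    have h3 : lo < max lo (min hi v') := by linarith
    have h4 : max lo (min hi v') = min hi v' := by
      rcases max_choice lo (min hi v') with h | h
      · rw [h] at h3; exact absurd h3 (lt_irrefl _)
      · exact h
    have h5 : max lo (min hi v') ≤ v' := by rw [h4]; exact min_le_right _ _
    linarith

/-- Online prediction: a class which is not shattered at depth `k` is approximated by a
continuous family indexed by `[0, ω^k]`. -/
theorem predict (hed : DenseRange e) (k : ℕ) : ∀ (A : Set ι), ¬ Sh f ε k A → ∀ (n : ℕ), 0 < n → ∀ g0 : M → ℝ,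
    Lip1 g0 → (∀ i ∈ A, ∀ j < n, |f i (e j) - g0 (e j)| ≤ ε) →
    ∃ h : Ordinal.{0} → M → ℝ, OrdFam k h ∧ (∀ ξ, Lip1 (h ξ)) ∧
      (∀ ξ, ∀ j < n, h ξ (e j) = g0 (e j)) ∧
      ∀ i ∈ A, ∃ ξ, ∀ j, |f i (e j) - h ξ (e j)| ≤ ε := by
  induction k with
  | zero =>
    intro A hA n hn g0 hg0 _
    refine ⟨fun _ => g0, OrdFam.of_const 0 g0, fun _ => hg0, fun _ _ _ => rfl, ?_⟩
    intro i hi
    exact absurd ⟨i, hi⟩ hA
  | succ k ih =>
    intro A hA n hn g0 hg0 hAg0
    classical
    -- the class consistent with `g` before time `m`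
    let cl : (M → ℝ) → ℕ → Set ι := fun g m => {i | i ∈ A ∧ ∀ j < m, |f i (e j) - g (e j)| ≤ ε}
    have hcl : ∀ g m, ¬ Sh f ε (k + 1) (cl g m) := fun g m h => hA (h.mono fun i hi => hi.1)
    have hstep : ∀ (g : {g : M → ℝ // Lip1 g}) (m : ℕ), ∃ q : ℝ × ℝ × ℝ, 0 < m →
        (q.1 ≤ q.2.1 ∧ q.2.1 ≤ q.2.2 ∧
        (∀ w, q.1 ≤ w → w ≤ q.2.2 → ∀ j < m, |w - g.1 (e j)| ≤ dist (e j) (e m)) ∧
        (∀ i ∈ cl g.1 m, q.1 - ε ≤ f i (e m) ∧ f i (e m) ≤ q.2.2 + ε) ∧
        ¬ Sh f ε k {i | i ∈ cl g.1 m ∧ q.2.1 + ε < f i (e m)} ∧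
        ¬ Sh f ε k {i | i ∈ cl g.1 m ∧ f i (e m) < q.2.1 - ε}) := by
      intro g m
      rcases Nat.eq_zero_or_pos m with h | h
      · exact ⟨(0, 0, 0), fun h' => absurd h h'.ne'⟩
      · obtain ⟨lo, v, hi, H⟩ := step f hf hε e k (hcl g.1 m) h g.2 (fun i hi => hi.2)
        exact ⟨(lo, v, hi), fun _ => H⟩
    choose q hq using hstep
    -- the sequence of functions along the path without mistakes
    let G : ℕ → {g : M → ℝ // Lip1 g} := fun m =>
      Nat.rec ⟨g0, hg0⟩ (fun m g => ⟨pin g.1 (e (n + m)) (q g (n + m)).2.1,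
        pin_lip g.2 _ _⟩) m
    have hG0 : (G 0).1 = g0 := rfl
    have hGs : ∀ m, (G (m + 1)).1 = pin (G m).1 (e (n + m)) (q (G m) (n + m)).2.1 := fun m => rfl
    have hGagree : ∀ m, ∀ j < n + m, (G (m + 1)).1 (e j) = (G m).1 (e j) := by
      intro m j hj
      rw [hGs]
      obtain ⟨h1, h2, h3, -⟩ := hq (G m) (n + m) (by omega)
      exact pin_eq (h3 _ h1 h2 j hj)
    have hGagree' : ∀ m l, ∀ j < n + m, (G (m + l)).1 (e j) = (G m).1 (e j) := by
      intro m l
      induction l with
      | zero => intro j _; rfl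
      | succ l ihl =>
        intro j hj
        rw [← Nat.add_assoc, hGagree (m + l) j (by omega)]
        exact ihl j hj
    -- the limit function
    let 𝒰 : Ultrafilter ℕ := Ultrafilter.of atTop
    have h𝒰 : (𝒰 : Filter ℕ) ≤ atTop := Ultrafilter.of_le _
    let g : M → ℝ := fun x => ulim 𝒰 (fun m => (G m).1 x)
    have hge : ∀ m, ∀ j < n + m, g (e j) = (G m).1 (e j) := by
      intro m j hj
      refine ulim_eq ?_
      refine tendsto_const_nhds.congr' ?_
      refine h𝒰 ?_
      filter_upwards [eventually_ge_atTop m] with l hl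
      obtain ⟨l', rfl⟩ := Nat.exists_eq_add_of_le hl
      exact (hGagree' m l' j hj).symm
    have hgt : ∀ x, Tendsto (fun m => (G m).1 x) 𝒰 (𝓝 (g x)) := by
      intro x
      refine tendsto_ulim (C := |g0 (e 0)| + dist x (e 0)) (Eventually.of_forall fun m => ?_)
      have h1 := (G m).2 x (e 0)
      have h2 : (G m).1 (e 0) = g0 (e 0) := by
        have := hGagree' 0 m 0 (by omega)
        rw [Nat.zero_add] at this
        rw [this, hG0]
      rw [h2] at h1
      have h3 : (G m).1 x = g0 (e 0) + ((G m).1 x - g0 (e 0)) := by ring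
      rw [h3]
      exact (abs_add_le _ _).trans (by linarith)
    have hglip : Lip1 g := by
      intro x y
      refine le_of_tendsto ((hgt x).sub (hgt y)).abs (Eventually.of_forall fun m => ?_)
      exact (G m).2 x y
    have hgg0 : ∀ j < n, g (e j) = g0 (e j) := fun j hj => hge 0 j (by omega)
    -- the grids
    let gr : ℕ → ℕ → ℝ := fun m r => min (q (G m) (n + m)).2.2 ((q (G m) (n + m)).1 + r * ε)
    have hMex : ∀ m, ∃ r : ℕ, (q (G m) (n + m)).2.2 ≤ (q (G m) (n + m)).1 + r * ε := by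
      intro m
      obtain ⟨r, hr⟩ := exists_nat_gt (((q (G m) (n + m)).2.2 - (q (G m) (n + m)).1) / ε)
      refine ⟨r, ?_⟩
      rw [div_lt_iff₀ hε] at hr
      linarith
    choose Mx hMx using hMex
    have hlohi : ∀ m, (q (G m) (n + m)).1 ≤ (q (G m) (n + m)).2.2 := by
      intro m
      obtain ⟨h1, h2, -⟩ := hq (G m) (n + m) (by omega)
      exact h1.trans h2
    have hgr1 : ∀ m r, (q (G m) (n + m)).1 ≤ gr m r := fun m r =>
      le_min (hlohi m) (by
        have : 0 ≤ (r : ℝ) * ε := by positivity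
        linarith)
    have hgr2 : ∀ m r, gr m r ≤ (q (G m) (n + m)).2.2 := fun m r => min_le_left _ _
    have hgr3 : ∀ m y, (q (G m) (n + m)).1 - ε ≤ y → y ≤ (q (G m) (n + m)).2.2 + ε →
        ∃ r ≤ Mx m, |y - gr m r| ≤ ε := by
      intro m y hy1 hy2
      rcases le_total y (q (G m) (n + m)).1 with h | h
      · refine ⟨0, Nat.zero_le _, ?_⟩
        have : gr m 0 = (q (G m) (n + m)).1 := by
          simp only [gr, Nat.cast_zero, zero_mul, add_zero]
          exact min_eq_right (hlohi m)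
        rw [this, abs_le]
        constructor <;> linarith
      · rcases le_total (q (G m) (n + m)).2.2 y with h' | h'
        · refine ⟨Mx m, le_rfl, ?_⟩
          have : gr m (Mx m) = (q (G m) (n + m)).2.2 := min_eq_left (hMx m)
          rw [this, abs_le]
          constructor <;> linarith
        · have h0 : 0 ≤ (y - (q (G m) (n + m)).1) / ε := div_nonneg (by linarith) hε.le
          have h1 := Nat.floor_le h0
          have h2 := Nat.lt_floor_add_one ((y - (q (G m) (n + m)).1) / ε)
          rw [le_div_iff₀ hε] at h1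
          rw [div_lt_iff₀ hε] at h2
          refine ⟨⌊(y - (q (G m) (n + m)).1) / ε⌋₊, ?_, ?_⟩
          · have h3 : (⌊(y - (q (G m) (n + m)).1) / ε⌋₊ : ℝ) * ε ≤ (Mx m) * ε := by
              have := hMx m
              linarith
            have h4 := le_of_mul_le_mul_right h3 hε
            exact_mod_cast h4
          · have h5 : gr m ⌊(y - (q (G m) (n + m)).1) / ε⌋₊ = (q (G m) (n + m)).1 +
                (⌊(y - (q (G m) (n + m)).1) / ε⌋₊ : ℝ) * ε := min_eq_right (by linarith)
            rw [h5, abs_le]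
            constructor <;> linarith
    -- the subfamilies
    have hsub : ∀ idx : ℕ × Bool × ℕ, ∃ h : Ordinal.{0} → M → ℝ, OrdFam k h ∧
        (∀ ξ, Lip1 (h ξ)) ∧ (∀ ξ, ∀ j < n + idx.1, h ξ (e j) = g (e j)) ∧
        (Mx idx.1 < idx.2.2 → ∀ ξ, h ξ = g) ∧
        ∀ i ∈ cl (G idx.1).1 (n + idx.1), (idx.2.1 = true →
          (q (G idx.1) (n + idx.1)).2.1 + ε < f i (e (n + idx.1))) →
          (idx.2.1 = false → f i (e (n + idx.1)) < (q (G idx.1) (n + idx.1)).2.1 - ε) →
          |f i (e (n + idx.1)) - gr idx.1 idx.2.2| ≤ ε → idx.2.2 ≤ Mx idx.1 →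
          ∃ ξ, ∀ j, |f i (e j) - h ξ (e j)| ≤ ε := by
      rintro ⟨m, b, r⟩
      simp only
      rcases lt_or_ge (Mx m) r with hr | hr
      · refine ⟨fun _ => g, OrdFam.of_const k g, fun _ => hglip, fun _ _ _ => rfl,
          fun _ _ => rfl, ?_⟩
        intro i _ _ _ _ h'
        exact absurd h' (not_le.2 hr)
      · obtain ⟨h1, h2, h3, h4, h5, h6⟩ := hq (G m) (n + m) (by omega)
        let B : Set ι := {i | i ∈ cl (G m).1 (n + m) ∧
          (b = true → (q (G m) (n + m)).2.1 + ε < f i (e (n + m))) ∧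
          (b = false → f i (e (n + m)) < (q (G m) (n + m)).2.1 - ε) ∧
          |f i (e (n + m)) - gr m r| ≤ ε}
        have hB : ¬ Sh f ε k B := by
          intro hB
          cases b with
          | true => exact h5 (hB.mono fun i hi => ⟨hi.1, hi.2.1 rfl⟩)
          | false => exact h6 (hB.mono fun i hi => ⟨hi.1, hi.2.2.1 rfl⟩)
        have hpin : ∀ j < n + m, pin (G m).1 (e (n + m)) (gr m r) (e j) = (G m).1 (e j) :=
          fun j hj => pin_eq (h3 _ (hgr1 m r) (hgr2 m r) j hj)
        obtain ⟨h, hh1, hh2, hh3, hh4⟩ := ih B hB (n + m + 1) (by omega)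
          (pin (G m).1 (e (n + m)) (gr m r)) (pin_lip (G m).2 _ _) (by
            intro i hi j hj
            rcases Nat.lt_succ_iff_lt_or_eq.1 hj with hj | rfl
            · rw [hpin j hj]
              exact hi.1.2 j hj
            · rw [pin_self]
              exact hi.2.2.2)
        refine ⟨h, hh1, hh2, ?_, fun h' => absurd hr (not_le.2 h'), ?_⟩
        · intro ξ j hj
          rw [hh3 ξ j (by omega), hpin j hj, hge m j hj]
        · intro i hi hb1 hb2 hir _
          exact hh4 i ⟨hi, hb1, hb2, hir⟩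
    choose hs hs1 hs2 hs3 hs4 hs5 using hsub
    obtain ⟨H, hH, hH1, hH2, hH3⟩ := OrdFam.glue_countable hs hs1 g (by
      refine pi_limit_criterion _ _ _ ?_
      intro w δ hδ
      obtain ⟨j0, hj0⟩ := hed.exists_dist_lt w (half_pos hδ)
      have hfin : ((Set.Iic j0) ×ˢ ((Set.univ : Set Bool) ×ˢ
          (Set.Iic ((Finset.range (j0 + 1)).sup Mx)))).Finite :=
        (Set.finite_Iic j0).prod (Set.finite_univ.prod (Set.finite_Iic _))
      refine hfin.subset ?_
      rintro ⟨m, b, r⟩ hidx
      by_contra hcon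
      apply hidx
      intro ξ
      rcases lt_or_ge (Mx m) r with hr | hr
      · rw [hs4 (m, b, r) hr ξ, sub_self, abs_zero]
        exact hδ
      · have hm : j0 < n + m := by
          by_contra hm
          push Not at hm
          apply hcon
          refine ⟨?_, Set.mem_univ _, ?_⟩
          · show m ≤ j0
            omega
          · show r ≤ (Finset.range (j0 + 1)).sup Mx
            exact hr.trans (Finset.le_sup (f := Mx) (Finset.mem_range.2 (by omega)))
        have h1 := hs3 (m, b, r) ξ j0 hm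
        have h2 := hs2 (m, b, r) ξ w (e j0)
        have h3 := hglip w (e j0)
        rw [h1] at h2
        rw [show hs (m, b, r) ξ w - g w = (hs (m, b, r) ξ w - g (e j0)) - (g w - g (e j0)) by ring]
        refine (abs_sub _ _).trans_lt ?_
        linarith)
    refine ⟨H, hH, ?_, ?_, ?_⟩
    · intro ξ
      rcases hH3 ξ with h | ⟨i, ξ', h⟩
      · rw [h]; exact hglip
      · rw [h]; exact hs2 _ _
    · intro ξ j hj
      rcases hH3 ξ with h | ⟨i, ξ', h⟩
      · rw [h]; exact hgg0 j hj
      · rw [h, hs3 _ _ j (by omega)]; exact hgg0 j hj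
    · intro i hi
      by_cases hall : ∀ j, |f i (e j) - g (e j)| ≤ ε
      · obtain ⟨ξ, hξ⟩ := hH2
        exact ⟨ξ, fun j => by rw [hξ]; exact hall j⟩
      · push Not at hall
        have hj0 := Nat.find_spec hall
        have hjm := fun j (hj : j < Nat.find hall) => not_lt.1 (Nat.find_min hall hj)
        set j0 := Nat.find hall
        have hj0n : n ≤ j0 := by
          by_contra hcon
          push Not at hcon
          rw [hgg0 j0 hcon] at hj0
          exact absurd (hAg0 i hi j0 hcon) (not_le.2 hj0)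
        obtain ⟨m, hm⟩ := Nat.exists_eq_add_of_le hj0n
        rw [hm] at hj0 hjm
        have hicl : i ∈ cl (G m).1 (n + m) := ⟨hi, fun j hj => by
          rw [← hge m j hj]
          exact hjm j hj⟩
        obtain ⟨h1, h2, h3, h4, h5, h6⟩ := hq (G m) (n + m) (by omega)
        have hgv : g (e (n + m)) = (q (G m) (n + m)).2.1 := by
          rw [hge (m + 1) (n + m) (by omega), hGs, pin_self]
        rw [hgv] at hj0
        obtain ⟨r, hr1, hr2⟩ := hgr3 m _ (h4 i hicl).1 (h4 i hicl).2
        rcases lt_abs.1 hj0 with h | h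
        · obtain ⟨ξ, hξ⟩ := hs5 (m, true, r) i hicl (fun _ => by simp only; linarith)
            (fun h' => by simp at h') hr2 hr1
          obtain ⟨ξ', hξ'⟩ := hH1 (m, true, r) ξ
          exact ⟨ξ', fun j => by rw [hξ']; exact hξ j⟩
        · obtain ⟨ξ, hξ⟩ := hs5 (m, false, r) i hicl (fun h' => by simp at h')
            (fun _ => by simp only; linarith) hr2 hr1
          obtain ⟨ξ', hξ'⟩ := hH1 (m, false, r) ξ
          exact ⟨ξ', fun j => by rw [hξ']; exact hξ j⟩

end

end Pool.Agent.F896b9
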