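import Pool.Agent.Work.MP_f896b9_an.Defs

namespace Pool.Agent.F896b9

/-- the sign as a real number -/
abbrev sg (e : ℤˣ) : ℝ := ((e : ℤ) : ℝ)

theorem sum_signs_succ {n : ℕ} (g : (Fin (n + 1) → ℤˣ) → ℝ) :
    ∑ ε, g ε = ∑ ε : Fin n → ℤˣ, (g (Fin.cons 1 ε) + g (Fin.cons (-1) ε)) := by
  rw [← Fintype.sum_equiv (Fin.consEquiv (fun _ => ℤˣ)) (fun q => g (Fin.cons q.1 q.2)) g
    (fun q => rfl)]
  rw [Fintype.sum_prod_type, Finset.sum_add_distrib]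
  rw [show (Finset.univ : Finset ℤˣ) = {1, -1} from rfl]
  rw [Finset.sum_pair (by decide)]

theorem card_signs (n : ℕ) : (Fintype.card (Fin n → ℤˣ) : ℝ) = 2 ^ n := by
  simp

/-- second moment -/
theorem sum_signs_sq (n : ℕ) (a : Fin n → ℝ) :
    ∑ ε : Fin n → ℤˣ, (∑ i, sg (ε i) * a i) ^ 2 = 2 ^ n * ∑ i, a i ^ 2 := by
  induction n with
  | zero => simp
  | succ n ih =>
    rw [sum_signs_succ]
    have h1 : ∀ ε : Fin n → ℤˣ, (∑ i, sg ((Fin.cons 1 ε : Fin (n + 1) → ℤˣ) i) * a i) ^ 2 +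
        (∑ i, sg ((Fin.cons (-1) ε : Fin (n + 1) → ℤˣ) i) * a i) ^ 2 =
        2 * a 0 ^ 2 + 2 * (∑ i, sg (ε i) * a i.succ) ^ 2 := by
      intro ε
      rw [Fin.sum_univ_succ, Fin.sum_univ_succ]
      simp only [Fin.cons_zero, Fin.cons_succ, sg]
      push_cast
      ring
    rw [Finset.sum_congr rfl (fun ε _ => h1 ε), Finset.sum_add_distrib,
      Finset.sum_const, Finset.card_univ, nsmul_eq_mul, card_signs, Fin.sum_univ_succ,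
      ← Finset.mul_sum, ih]
    ring

/-- fourth moment -/
theorem sum_signs_four (n : ℕ) (a : Fin n → ℝ) :
    ∑ ε : Fin n → ℤˣ, (∑ i, sg (ε i) * a i) ^ 4 ≤ 3 * 2 ^ n * (∑ i, a i ^ 2) ^ 2 := by
  induction n with
  | zero => simp
  | succ n ih =>
    rw [sum_signs_succ]
    have h1 : ∀ ε : Fin n → ℤˣ, (∑ i, sg ((Fin.cons 1 ε : Fin (n + 1) → ℤˣ) i) * a i) ^ 4 +
        (∑ i, sg ((Fin.cons (-1) ε : Fin (n + 1) → ℤˣ) i) * a i) ^ 4 =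
        2 * a 0 ^ 4 + 12 * a 0 ^ 2 * (∑ i, sg (ε i) * a i.succ) ^ 2 +
          2 * (∑ i, sg (ε i) * a i.succ) ^ 4 := by
      intro ε
      rw [Fin.sum_univ_succ, Fin.sum_univ_succ]
      simp only [Fin.cons_zero, Fin.cons_succ, sg]
      push_cast
      ring
    rw [Finset.sum_congr rfl (fun ε _ => h1 ε), Finset.sum_add_distrib, Finset.sum_add_distrib,
      Finset.sum_const, Finset.card_univ, nsmul_eq_mul, card_signs, Fin.sum_univ_succ,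
      ← Finset.mul_sum, ← Finset.mul_sum, sum_signs_sq]
    have h2 := ih (fun i => a i.succ)
    have h3 : (0 : ℝ) < 2 ^ n := by positivity
    set σ := ∑ i : Fin n, a i.succ ^ 2
    have h4 : 0 ≤ 2 ^ n * a 0 ^ 4 := by positivity
    have : 3 * 2 ^ (n + 1) * (a 0 ^ 2 + σ) ^ 2 = 2 * (3 * 2 ^ n * σ ^ 2) +
      12 * a 0 ^ 2 * (2 ^ n * σ) + 6 * (2 ^ n * a 0 ^ 4) := by ring
    rw [this]
    nlinarith

/-- A lower Khintchine inequality. -/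
theorem khintchine (n : ℕ) (a : Fin n → ℝ) :
    9 / 16 * 2 ^ n * Real.sqrt (∑ i, a i ^ 2) ≤ ∑ ε : Fin n → ℤˣ, |∑ i, sg (ε i) * a i| := by
  set σ := Real.sqrt (∑ i, a i ^ 2) with hσ
  have hσ0 : 0 ≤ σ := Real.sqrt_nonneg _
  have hσ2 : σ ^ 2 = ∑ i, a i ^ 2 := Real.sq_sqrt (Finset.sum_nonneg fun i _ => sq_nonneg _)
  rcases hσ0.eq_or_lt with h0 | h0
  · rw [← h0, mul_zero]
    exact Finset.sum_nonneg fun i _ => abs_nonneg _
  have key : ∀ t : ℝ, 12 * σ ^ 2 * t ^ 2 - t ^ 4 ≤ 16 * σ ^ 3 * |t| := by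
    intro t
    rw [← sq_abs t, show t ^ 4 = |t| ^ 4 by rw [← abs_pow, abs_of_nonneg (by positivity)]]
    have ht : 0 ≤ |t| := abs_nonneg t
    have : 0 ≤ |t| * ((|t| - 2 * σ) ^ 2 * (|t| + 4 * σ)) := by positivity
    nlinarith
  have h1 : ∑ ε : Fin n → ℤˣ, (12 * σ ^ 2 * (∑ i, sg (ε i) * a i) ^ 2 -
      (∑ i, sg (ε i) * a i) ^ 4) ≤ ∑ ε : Fin n → ℤˣ, 16 * σ ^ 3 * |∑ i, sg (ε i) * a i| :=
    Finset.sum_le_sum fun ε _ => key _
  rw [Finset.sum_sub_distrib, ← Finset.mul_sum, ← Finset.mul_sum, sum_signs_sq] at h1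
  have h2 := sum_signs_four n a
  rw [← hσ2] at h1 h2
  set T := ∑ ε : Fin n → ℤˣ, |∑ i, sg (ε i) * a i|
  have h3 : 9 * 2 ^ n * σ ^ 4 ≤ 16 * σ ^ 3 * T := by nlinarith
  have h4 : 0 < 16 * σ ^ 3 := by positivity
  have h5 : 16 * σ ^ 3 * (9 / 16 * 2 ^ n * σ) ≤ 16 * σ ^ 3 * T := by
    calc _ = 9 * 2 ^ n * σ ^ 4 := by ring
      _ ≤ _ := h3
  exact le_of_mul_le_mul_left h5 h4

/-- Cauchy-Schwarz for the average of norms. -/
theorem avg_sq_le {n : ℕ} (g : (Fin n → ℤˣ) → ℝ) :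
    ((∑ ε, g ε) / 2 ^ n) ^ 2 ≤ (∑ ε, g ε ^ 2) / 2 ^ n := by
  have h := sq_sum_le_card_mul_sum_sq (s := (Finset.univ : Finset (Fin n → ℤˣ))) (f := g)
  rw [Finset.card_univ, card_signs] at h
  have h2 : (0 : ℝ) < 2 ^ n := by positivity
  rw [div_pow, div_le_div_iff₀ (by positivity) h2]
  nlinarith

end Pool.Agent.F896b9
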