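import Pool.Agent.Work.MP_f896b9_an.Rad

open scoped ENNReal
open TopologicalSpace

namespace Pool.Agent.F896b9

section Ren

variable {H : Type} [NormedAddCommGroup H] [NormedSpace ℝ H] {I : Type} (ψ : I → H →L[ℝ] ℝ)

/-- `H` renormed by `max (sup_i |ψ_i v|) ‖v‖`, as a subspace of `ℓ_∞(I) × H`. -/
def ren : Submodule ℝ (lp (fun _ : I => ℝ) ∞ × H) where
  carrier := {p | ∀ i, p.1 i = ψ i p.2}
  add_mem' := by
    intro a b ha hb i
    simp only [Prod.fst_add, Prod.snd_add, map_add]
    rw [← ha i, ← hb i]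
    rfl
  zero_mem' := by
    intro i
    simp
  smul_mem' := by
    intro c a ha i
    simp only [Prod.smul_fst, Prod.smul_snd, map_smul]
    rw [← ha i]
    rfl

theorem isClosed_ren : IsClosed (ren ψ : Set (lp (fun _ : I => ℝ) ∞ × H)) := by
  have : (ren ψ : Set (lp (fun _ : I => ℝ) ∞ × H)) =
      ⋂ i, {p | lp.evalCLM ℝ (fun _ : I => ℝ) ∞ i p.1 = ψ i p.2} := by
    ext p
    simp only [Set.mem_iInter]
    rfl
  rw [this]
  refine isClosed_iInter fun i => isClosed_eq ?_ ?_
  · exact (lp.evalCLM ℝ (fun _ : I => ℝ) ∞ i).continuous.comp continuous_fst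
  · exact (ψ i).continuous.comp continuous_snd

instance [CompleteSpace H] : CompleteSpace (ren ψ) := (isClosed_ren ψ).completeSpace_coe

variable {ψ}

theorem ren_norm_snd_le (x : ren ψ) : ‖x.1.2‖ ≤ ‖x‖ := norm_snd_le x.1

theorem ren_abs_le (x : ren ψ) (i : I) : |ψ i x.1.2| ≤ ‖x‖ := by
  rw [← x.2 i, ← Real.norm_eq_abs]
  exact (lp.norm_apply_le_norm (by simp) x.1.1 i).trans (norm_fst_le x.1)

theorem ren_norm_le {x : ren ψ} {r : ℝ} (hr : 0 ≤ r) (h1 : ∀ i, |ψ i x.1.2| ≤ r)
    (h2 : ‖x.1.2‖ ≤ r) : ‖x‖ ≤ r := by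
  have : ‖x‖ = max ‖x.1.1‖ ‖x.1.2‖ := rfl
  rw [this]
  refine max_le (lp.norm_le_of_forall_le hr fun i => ?_) h2
  rw [x.2 i, Real.norm_eq_abs]
  exact h1 i

/-- The vector of the renormed space given by a vector of `H`. -/
def toRen (C : ℝ) (hC : ∀ i v, |ψ i v| ≤ C * ‖v‖) : H →ₗ[ℝ] ren ψ where
  toFun v := ⟨(⟨fun i => ψ i v, memℓp_infty ⟨C * ‖v‖, by
    rintro _ ⟨i, rfl⟩
    simpa using hC i v⟩⟩, v), fun i => rfl⟩
  map_add' v w := by
    ext i
    · exact (ψ i).map_add v w
    · rfl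
  map_smul' c v := by
    ext i
    · exact (ψ i).map_smul c v
    · rfl

theorem toRen_snd (C : ℝ) (hC : ∀ i v, |ψ i v| ≤ C * ‖v‖) (v : H) :
    (toRen C hC v).1.2 = v := rfl

theorem toRen_surj (C : ℝ) (hC : ∀ i v, |ψ i v| ≤ C * ‖v‖) (x : ren ψ) :
    toRen C hC x.1.2 = x := by
  ext i
  · exact (x.2 i).symm
  · rfl

theorem toRen_norm_le (C : ℝ) (hC : ∀ i v, |ψ i v| ≤ C * ‖v‖) (h1 : 1 ≤ C) (v : H) :
    ‖toRen C hC v‖ ≤ C * ‖v‖ := by
  refine ren_norm_le (by positivity) (fun i => hC i v) ?_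
  rw [toRen_snd]
  nlinarith [norm_nonneg v]

theorem ren_norm_le' (C : ℝ) (hC : ∀ i v, |ψ i v| ≤ C * ‖v‖) (h1 : 1 ≤ C) (x : ren ψ) :
    ‖x‖ ≤ C * ‖x.1.2‖ := by
  have := toRen_norm_le C hC h1 x.1.2
  rwa [toRen_surj] at this

theorem ren_separable (C : ℝ) (hC : ∀ i v, |ψ i v| ≤ C * ‖v‖) (h1 : 1 ≤ C) [SeparableSpace H] :
    SeparableSpace (ren ψ) := by
  let f : H →L[ℝ] ren ψ := (toRen C hC).mkContinuous C (toRen_norm_le C hC h1)
  have hf : DenseRange f := by
    refine Function.Surjective.denseRange ?_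
    intro x
    exact ⟨x.1.2, toRen_surj C hC x⟩
  exact hf.separableSpace f.continuous

end Ren

section Space

variable {Z I : Type} (A B : I → Finset Z) (p : ℝ≥0∞) [hp : Fact (1 ≤ p)]

/-- index set of the coordinates -/
abbrev VV (Z I : Type) : Type := Z ⊕ (I × Bool)

/-- coordinate functional -/
noncomputable def coo (v : VV Z I) : lp (fun _ : VV Z I => ℝ) p →L[ℝ] ℝ :=
  lp.evalCLM ℝ (fun _ : VV Z I => ℝ) p v

/-- the functionals used for renorming (already multiplied by 2) -/
noncomputable def fun2 (i : I) : lp (fun _ : VV Z I => ℝ) p →L[ℝ] ℝ :=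
  (2 : ℝ) • (∑ a ∈ A i, coo p (Sum.inl a) - ∑ b ∈ B i, coo p (Sum.inl b) +
    (2 : ℝ) • coo p (Sum.inr (i, true)) - (2 : ℝ) • coo p (Sum.inr (i, false)))

theorem fun2_apply (i : I) (w : lp (fun _ : VV Z I => ℝ) p) :
    fun2 A B p i w = 2 * (∑ a ∈ A i, w (Sum.inl a) - ∑ b ∈ B i, w (Sum.inl b) +
      2 * w (Sum.inr (i, true)) - 2 * w (Sum.inr (i, false))) := by
  simp only [fun2, _root_.smul_apply, _root_.sub_apply,
    _root_.add_apply, sum_apply, smul_eq_mul]
  rfl

open Classical in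
/-- half of the unit vector -/
noncomputable def hv (v : VV Z I) : lp (fun _ : VV Z I => ℝ) p := lp.single p v (1 / 2 : ℝ)

open Classical in
theorem hv_apply (v w : VV Z I) : (hv p v : lp (fun _ : VV Z I => ℝ) p) w =
    if w = v then (1 / 2 : ℝ) else 0 := by
  unfold hv
  rw [lp.single_apply]
  split_ifs with h
  · subst h; exact Pi.single_eq_same _ _
  · exact Pi.single_eq_of_ne h _

theorem hv_norm (v : VV Z I) : ‖(hv p v : lp (fun _ : VV Z I => ℝ) p)‖ = 1 / 2 := by
  classical
  unfold hv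
  rw [lp.norm_single (lt_of_lt_of_le zero_lt_one hp.out)]
  norm_num

open Classical in
theorem fun2_hv_inl (i : I) (a : Z) :
    fun2 A B p i (hv p (Sum.inl a)) =
      (if a ∈ A i then 1 else 0) - (if a ∈ B i then 1 else 0) := by
  rw [fun2_apply]
  simp only [hv_apply]
  simp only [Sum.inl.injEq, reduceCtorEq, if_false]
  rw [Finset.sum_ite_eq', Finset.sum_ite_eq']
  split_ifs <;> norm_num

open Classical in
theorem fun2_hv_inr (i j : I) (b : Bool) :
    fun2 A B p i (hv p (Sum.inr (j, b))) =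
      if i = j then (if b = true then 2 else -2) else 0 := by
  rw [fun2_apply]
  simp only [hv_apply]
  simp only [reduceCtorEq, if_false, Sum.inr.injEq, Prod.mk.injEq]
  by_cases h : i = j
  · subst h
    cases b <;> simp
  · simp [h]

variable {A B p}

/-- The points of the renormed space realise the configuration needed for the lower bound. -/
theorem config (C : ℝ) (hC : ∀ i v, |fun2 A B p i v| ≤ C * ‖v‖) (i : I)
    (hdisj : ∀ a ∈ A i, a ∉ B i) :
    let z : Z → ren (fun2 A B p) := fun a => toRen C hC (hv p (Sum.inl a))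
    let x : ren (fun2 A B p) := toRen C hC (hv p (Sum.inr (i, true)))
    let y : ren (fun2 A B p) := toRen C hC (hv p (Sum.inr (i, false)))
    (∀ a ∈ A i, dist x (z a) ≤ 1) ∧ (∀ b ∈ B i, dist y (z b) ≤ 1) ∧ 4 ≤ dist x y := by
  classical
  intro z x y
  refine ⟨?_, ?_, ?_⟩
  · intro a ha
    rw [dist_eq_norm]
    have hxz : x - z a = toRen C hC (hv p (Sum.inr (i, true)) - hv p (Sum.inl a)) := by
      rw [map_sub]
    rw [hxz]
    refine ren_norm_le zero_le_one ?_ ?_
    · intro j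
      rw [toRen_snd, map_sub, fun2_hv_inr, fun2_hv_inl]
      by_cases hj : j = i
      · subst hj
        rw [if_pos rfl, if_pos rfl, if_pos ha, if_neg (hdisj a ha)]
        norm_num
      · rw [if_neg hj]
        split_ifs <;> norm_num
    · rw [toRen_snd]
      refine (norm_sub_le _ _).trans ?_
      rw [hv_norm, hv_norm]
      norm_num
  · intro b hb
    rw [dist_eq_norm]
    have hxz : y - z b = toRen C hC (hv p (Sum.inr (i, false)) - hv p (Sum.inl b)) := by
      rw [map_sub]
    rw [hxz]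
    refine ren_norm_le zero_le_one ?_ ?_
    · intro j
      rw [toRen_snd, map_sub, fun2_hv_inr, fun2_hv_inl]
      by_cases hj : j = i
      · subst hj
        have : b ∉ A j := fun h => hdisj b h hb
        rw [if_pos rfl, if_neg (by simp), if_neg this, if_pos hb]
        norm_num
      · rw [if_neg hj]
        split_ifs <;> norm_num
    · rw [toRen_snd]
      refine (norm_sub_le _ _).trans ?_
      rw [hv_norm, hv_norm]
      norm_num
  · rw [dist_eq_norm]
    have hxy : x - y = toRen C hC (hv p (Sum.inr (i, true)) - hv p (Sum.inr (i, false))) := by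
      rw [map_sub]
    rw [hxy]
    refine le_trans ?_ (ren_abs_le _ i)
    rw [toRen_snd, map_sub, fun2_hv_inr, fun2_hv_inr]
    simp
    norm_num

end Space

/-- `ℓ_p(V)` is separable for countable `V` and `p < ∞`. -/
theorem lp_separable {V : Type} [Countable V] {p : ℝ≥0∞} [hp : Fact (1 ≤ p)] (hpt : p ≠ ∞) :
    SeparableSpace (lp (fun _ : V => ℝ) p) := by
  classical
  rw [← isSeparable_univ_iff]
  let e : V → lp (fun _ : V => ℝ) p := fun v => lp.single p v (1 : ℝ)
  have h1 : IsSeparable (Set.range e) := (Set.countable_range e).isSeparable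
  have h2 : IsSeparable (closure (Submodule.span ℝ (Set.range e) : Set (lp (fun _ : V => ℝ) p))) :=
    (h1.span (R := ℝ)).closure
  refine h2.mono ?_
  intro f _
  have h3 := lp.hasSum_single hpt f
  refine mem_closure_of_tendsto h3 ?_
  refine Filter.Eventually.of_forall fun s => ?_
  refine Submodule.sum_mem _ fun v _ => ?_
  have : lp.single p v (f v) = (f v : ℝ) • e v := by
    simp only [e]
    rw [← lp.single_smul]
    simp
  rw [this]
  exact Submodule.smul_mem _ _ (Submodule.subset_span ⟨v, rfl⟩)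

end Pool.Agent.F896b9
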