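import Pool.Agent.Work.MP_f896b9_an.Ulim

namespace Pool.Agent.F896b9

/-- Sequential shattering at scale `ε` and depth `k` of the functions `f i : S → ℝ`, `i ∈ A`. -/
def Sh {ι S : Type*} (f : ι → S → ℝ) (ε : ℝ) : ℕ → Set ι → Prop
  | 0, A => A.Nonempty
  | k + 1, A => ∃ (s : S) (c : ℝ), Sh f ε k {i | i ∈ A ∧ c + ε ≤ f i s} ∧
      Sh f ε k {i | i ∈ A ∧ f i s ≤ c}

/-- the unit ball of the dual, acting on the ball of radius `R` -/
def ballAct (X : Type) [NormedAddCommGroup X] [NormedSpace ℝ X] (R : ℝ) :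
    {φ : StrongDual ℝ X // ‖φ‖ ≤ 1} → {x : X // ‖x‖ ≤ R} → ℝ := fun φ x => φ.1 x.1

end Pool.Agent.F896b9
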