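import Pool.Agent.Work.MP_f896b9_an.Rad

open Set

namespace Pool.Agent.F896b9

namespace Typ

/-- `z` is bounded by `c` and its variation is controlled by a monotone function with values
in `[0, c]`. -/
def VB (c : ℝ) (z : ℚ → ℝ) : Prop :=
  (∀ t, |z t| ≤ c) ∧ ∃ F : ℚ → ℝ, Monotone F ∧ (∀ t, 0 ≤ F t ∧ F t ≤ c) ∧
    ∀ s t, s ≤ t → |z t - z s| ≤ F t - F s

theorem VB.nonneg {c : ℝ} {z : ℚ → ℝ} (h : VB c z) : 0 ≤ c := (abs_nonneg _).trans (h.1 0)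

theorem VB.mono {c c' : ℝ} {z : ℚ → ℝ} (h : VB c z) (hc : c ≤ c') : VB c' z := by
  obtain ⟨h1, F, h2, h3, h4⟩ := h
  exact ⟨fun t => (h1 t).trans hc, F, h2, fun t => ⟨(h3 t).1, (h3 t).2.trans hc⟩, h4⟩

theorem VB.zero {c : ℝ} (hc : 0 ≤ c) : VB c 0 :=
  ⟨fun t => by simpa using hc, 0, monotone_const, fun t => ⟨le_rfl, hc⟩, fun s t _ => by simp⟩

theorem VB.add {c c' : ℝ} {z z' : ℚ → ℝ} (h : VB c z) (h' : VB c' z') : VB (c + c') (z + z') := by
  obtain ⟨h1, F, h2, h3, h4⟩ := h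
  obtain ⟨h1', F', h2', h3', h4'⟩ := h'
  refine ⟨fun t => (abs_add_le _ _).trans (add_le_add (h1 t) (h1' t)), F + F', h2.add h2',
    fun t => ⟨add_nonneg (h3 t).1 (h3' t).1, add_le_add (h3 t).2 (h3' t).2⟩, fun s t hst => ?_⟩
  have e1 := h4 s t hst
  have e2 := h4' s t hst
  simp only [Pi.add_apply]
  rw [show z t + z' t - (z s + z' s) = (z t - z s) + (z' t - z' s) by ring]
  refine (abs_add_le _ _).trans ?_
  linarith

theorem VB.smul {c : ℝ} {z : ℚ → ℝ} (a : ℝ) (h : VB c z) : VB (|a| * c) (a • z) := by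
  obtain ⟨h1, F, h2, h3, h4⟩ := h
  refine ⟨fun t => ?_, |a| • F, h2.const_smul (abs_nonneg a), fun t => ⟨?_, ?_⟩, fun s t hst => ?_⟩
  · rw [Pi.smul_apply, smul_eq_mul, abs_mul]
    exact mul_le_mul_of_nonneg_left (h1 t) (abs_nonneg a)
  · exact mul_nonneg (abs_nonneg a) (h3 t).1
  · exact mul_le_mul_of_nonneg_left (h3 t).2 (abs_nonneg a)
  · simp only [Pi.smul_apply, smul_eq_mul]
    rw [← mul_sub, ← mul_sub, abs_mul]
    exact mul_le_mul_of_nonneg_left (h4 s t hst) (abs_nonneg a)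

theorem VB.sum {ι : Type*} (s : Finset ι) {c : ι → ℝ} {z : ι → ℚ → ℝ}
    (h : ∀ i ∈ s, VB (c i) (z i)) : VB (∑ i ∈ s, c i) (∑ i ∈ s, z i) := by
  classical
  induction s using Finset.induction_on with
  | empty => simpa using VB.zero le_rfl
  | insert a s ha ih =>
    rw [Finset.sum_insert ha, Finset.sum_insert ha]
    exact (h a (Finset.mem_insert_self a s)).add
      (ih fun i hi => h i (Finset.mem_insert_of_mem hi))

/-- `x` is at distance at most `l` from a function with variation bound `l * N`. -/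
def dec (N l : ℝ) (x : ℚ → ℝ) : Prop := ∃ z, VB (l * N) z ∧ ∀ t, |x t - z t| ≤ l

theorem dec.mono {N l l' : ℝ} {x : ℚ → ℝ} (hN : 0 ≤ N) (h : dec N l x) (hl : l ≤ l') :
    dec N l' x := by
  obtain ⟨z, h1, h2⟩ := h
  exact ⟨z, h1.mono (mul_le_mul_of_nonneg_right hl hN), fun t => (h2 t).trans hl⟩

theorem dec.add {N l l' : ℝ} {x x' : ℚ → ℝ} (h : dec N l x) (h' : dec N l' x') :
    dec N (l + l') (x + x') := by
  obtain ⟨z, h1, h2⟩ := h
  obtain ⟨z', h1', h2'⟩ := h'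
  refine ⟨z + z', by rw [add_mul]; exact h1.add h1', fun t => ?_⟩
  simp only [Pi.add_apply]
  rw [show x t + x' t - (z t + z' t) = (x t - z t) + (x' t - z' t) by ring]
  exact (abs_add_le _ _).trans (add_le_add (h2 t) (h2' t))

theorem dec.smul {N l : ℝ} {x : ℚ → ℝ} (a : ℝ) (h : dec N l x) : dec N (|a| * l) (a • x) := by
  obtain ⟨z, h1, h2⟩ := h
  refine ⟨a • z, by rw [mul_assoc]; exact h1.smul a, fun t => ?_⟩
  simp only [Pi.smul_apply, smul_eq_mul]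
  rw [← mul_sub, abs_mul]
  exact mul_le_mul_of_nonneg_left (h2 t) (abs_nonneg a)

theorem dec.nonneg {N l : ℝ} {x : ℚ → ℝ} (h : dec N l x) : 0 ≤ l := by
  obtain ⟨z, _, h2⟩ := h
  exact (abs_nonneg _).trans (h2 0)

theorem dec.abs_le {N l : ℝ} {x : ℚ → ℝ} (h : dec N l x) (t : ℚ) : |x t| ≤ (N + 1) * l := by
  obtain ⟨z, h1, h2⟩ := h
  have e1 := h1.1 t
  have e2 := h2 t
  have : x t = (x t - z t) + z t := by ring
  rw [this]
  refine (abs_add_le _ _).trans ?_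
  linarith

theorem dec_zero (N : ℝ) : dec N 0 0 := ⟨0, by rw [zero_mul]; exact VB.zero le_rfl, by simp⟩

/-- bounded function -/
def Bd (x : ℚ → ℝ) : Prop := ∃ C, ∀ t, |x t| ≤ C

theorem Bd.add {x y : ℚ → ℝ} (h : Bd x) (h' : Bd y) : Bd (x + y) := by
  obtain ⟨C, hC⟩ := h
  obtain ⟨C', hC'⟩ := h'
  exact ⟨C + C', fun t => (abs_add_le _ _).trans (add_le_add (hC t) (hC' t))⟩

theorem Bd.smul {x : ℚ → ℝ} (a : ℝ) (h : Bd x) : Bd (a • x) := by
  obtain ⟨C, hC⟩ := h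
  refine ⟨|a| * C, fun t => ?_⟩
  rw [Pi.smul_apply, smul_eq_mul, abs_mul]
  exact mul_le_mul_of_nonneg_left (hC t) (abs_nonneg a)

theorem VB.bd {c : ℝ} {z : ℚ → ℝ} (h : VB c z) : Bd z := ⟨c, h.1⟩

/-- the K-functional -/
noncomputable def kk (N : ℝ) (x : ℚ → ℝ) : ℝ := sInf {l | 0 ≤ l ∧ dec N l x}

theorem kk_nonneg (N : ℝ) (x : ℚ → ℝ) : 0 ≤ kk N x := Real.sInf_nonneg fun _ h => h.1

theorem kk_le {N l : ℝ} {x : ℚ → ℝ} (h : dec N l x) : kk N x ≤ l :=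
  csInf_le ⟨0, fun _ h => h.1⟩ ⟨h.nonneg, h⟩

theorem kk_set_nonempty {N : ℝ} (hN : 0 ≤ N) {x : ℚ → ℝ} (hx : Bd x) :
    {l | 0 ≤ l ∧ dec N l x}.Nonempty := by
  obtain ⟨C, hC⟩ := hx
  have h0 : 0 ≤ C := (abs_nonneg _).trans (hC 0)
  exact ⟨C, h0, 0, VB.zero (mul_nonneg h0 hN), by simpa using hC⟩

theorem dec_of_kk_lt {N l : ℝ} (hN : 0 ≤ N) {x : ℚ → ℝ} (hx : Bd x) (h : kk N x < l) :
    dec N l x := by
  obtain ⟨l', ⟨_, h2⟩, h3⟩ := exists_lt_of_csInf_lt (kk_set_nonempty hN hx) h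
  exact h2.mono hN h3.le

theorem abs_le_kk {N : ℝ} (hN : 0 ≤ N) {x : ℚ → ℝ} (hx : Bd x) (t : ℚ) :
    |x t| ≤ (N + 1) * kk N x := by
  have h1 : 0 < N + 1 := by linarith
  rw [mul_comm, ← div_le_iff₀ h1]
  refine le_csInf (kk_set_nonempty hN hx) ?_
  rintro l ⟨_, hl⟩
  rw [div_le_iff₀ h1, mul_comm]
  exact hl.abs_le t

theorem dec_two_kk {N : ℝ} (hN : 0 ≤ N) {x : ℚ → ℝ} (hx : Bd x) : dec N (2 * kk N x) x := by
  rcases (kk_nonneg N x).eq_or_lt with h | h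
  · have hx0 : x = 0 := by
      ext t
      have := abs_le_kk hN hx t
      rw [← h, mul_zero] at this
      simpa using abs_nonpos_iff.1 this
    rw [← h, mul_zero, hx0]
    exact dec_zero N
  · exact dec_of_kk_lt hN hx (by linarith)

theorem kk_add {N : ℝ} (hN : 0 ≤ N) {x y : ℚ → ℝ} (hx : Bd x) (hy : Bd y) :
    kk N (x + y) ≤ kk N x + kk N y := by
  refine le_of_forall_pos_le_add fun e he => ?_
  have h1 := dec_of_kk_lt hN hx (show kk N x < kk N x + e / 2 by linarith)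
  have h2 := dec_of_kk_lt hN hy (show kk N y < kk N y + e / 2 by linarith)
  refine (kk_le (h1.add h2)).trans ?_
  linarith

theorem kk_smul {N : ℝ} (hN : 0 ≤ N) {x : ℚ → ℝ} (hx : Bd x) (a : ℝ) :
    kk N (a • x) ≤ |a| * kk N x := by
  rcases (abs_nonneg a).eq_or_lt with h | h
  · have ha : a = 0 := abs_eq_zero.1 h.symm
    subst ha
    rw [zero_smul, abs_zero, zero_mul]
    exact kk_le (dec_zero N)
  · refine le_of_forall_pos_le_add fun e he => ?_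
    have h1 := dec_of_kk_lt hN hx (show kk N x < kk N x + e / |a| by
      have : 0 < e / |a| := by positivity
      linarith)
    refine (kk_le (h1.smul a)).trans ?_
    rw [mul_add, mul_div_cancel₀ _ h.ne']

theorem kk_zero (N : ℝ) : kk N 0 = 0 := le_antisymm (kk_le (dec_zero N)) (kk_nonneg _ _)

theorem kk_le_of_VB {N c : ℝ} (hN : 0 < N) {x : ℚ → ℝ} (h : VB c x) : kk N x ≤ c / N := by
  refine kk_le ⟨x, ?_, fun t => ?_⟩
  · rwa [div_mul_cancel₀ _ hN.ne']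
  · simpa using div_nonneg h.nonneg hN.le

theorem kk_le_of_bound {N c : ℝ} (hN : 0 ≤ N) {x : ℚ → ℝ} (h : ∀ t, |x t| ≤ c) : kk N x ≤ c := by
  have h0 : 0 ≤ c := (abs_nonneg _).trans (h 0)
  exact kk_le ⟨0, VB.zero (mul_nonneg h0 hN), by simpa using h⟩

end Typ

end Pool.Agent.F896b9
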