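import Pool.Agent.Work.MP_f896b9_an.Typ1

open Set

namespace Pool.Agent.F896b9

namespace Typ

/-- A function factoring through a monotone integer valued map has controlled variation. -/
theorem VB_of_steps (J : ℚ → ℕ) (hJ : Monotone J) (m : ℕ) (hm : ∀ t, J t ≤ m) (v : ℕ → ℝ) :
    VB (2 * ∑ j ∈ Finset.range (m + 1), |v j|) (fun t => v (J t)) := by
  have hs : ∀ k ≤ m, |v k| ≤ ∑ j ∈ Finset.range (m + 1), |v j| := fun k hk =>
    Finset.single_le_sum (f := fun j => |v j|) (fun _ _ => abs_nonneg _)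
      (Finset.mem_range.2 (Nat.lt_succ_of_le hk))
  have h0 : 0 ≤ ∑ j ∈ Finset.range (m + 1), |v j| := Finset.sum_nonneg fun _ _ => abs_nonneg _
  refine ⟨fun t => ?_, fun t => ∑ j ∈ Finset.range (J t), |v (j + 1) - v j|, ?_, ?_, ?_⟩
  · have := hs (J t) (hm t)
    simp only
    linarith
  · intro s t hst
    exact Finset.sum_le_sum_of_subset_of_nonneg (Finset.range_mono (hJ hst))
      (fun _ _ _ => abs_nonneg _)
  · intro t
    refine ⟨Finset.sum_nonneg fun _ _ => abs_nonneg _, ?_⟩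
    calc ∑ j ∈ Finset.range (J t), |v (j + 1) - v j|
        ≤ ∑ j ∈ Finset.range m, |v (j + 1) - v j| :=
          Finset.sum_le_sum_of_subset_of_nonneg (Finset.range_mono (hm t))
            (fun _ _ _ => abs_nonneg _)
      _ ≤ ∑ j ∈ Finset.range m, (|v (j + 1)| + |v j|) :=
          Finset.sum_le_sum fun j _ => abs_sub _ _
      _ = ∑ j ∈ Finset.range m, |v (j + 1)| + ∑ j ∈ Finset.range m, |v j| :=
          Finset.sum_add_distrib
      _ ≤ ∑ j ∈ Finset.range (m + 1), |v j| + ∑ j ∈ Finset.range (m + 1), |v j| := by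
          refine add_le_add ?_ ?_
          · rw [Finset.sum_range_succ' (fun j => |v j|)]
            linarith [abs_nonneg (v 0)]
          · rw [Finset.sum_range_succ (fun j => |v j|)]
            linarith [abs_nonneg (v m)]
      _ = _ := by ring
  · intro s t hst
    have h1 := dist_le_Ico_sum_dist v (hJ hst)
    rw [Finset.sum_Ico_eq_sub _ (hJ hst), dist_comm, Real.dist_eq] at h1
    refine h1.trans (le_of_eq ?_)
    congr 1 <;>
    · refine Finset.sum_congr rfl fun j _ => ?_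
      rw [dist_comm, Real.dist_eq]

theorem key {n : ℕ} (u : Fin n → ℚ → ℝ) (κ : Fin n → ℝ) {N B η ν : ℝ} (hN : 1 ≤ N) (hB : 1 ≤ B)
    (hη : 0 < η) (hη1 : η ≤ 1) (hν : 0 < ν) (hκ : ∀ i, 0 ≤ κ i) (hu : ∀ i t, |u i t| ≤ κ i)
    (hV : ∀ i, VB (B * N * κ i) (u i)) (hA : (∑ i, κ i) ^ 2 ≤ ν * ∑ i, κ i ^ 2) :
    ∑ ε : Fin n → ℤˣ, kk N (∑ i, sg (ε i) • u i) ^ 2 ≤
      2 ^ n * ((η ^ 2 * ν + 432 * B ^ 2 / (η ^ 4 * ν)) * ∑ i, κ i ^ 2) := by
  classical
  set Q := ∑ i, κ i ^ 2 with hQ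
  have hQ0 : 0 ≤ Q := Finset.sum_nonneg fun i _ => sq_nonneg _
  have h2n : (0 : ℝ) < 2 ^ n := by positivity
  rcases hQ0.eq_or_lt with hQz | hQp
  · have hκ0 : ∀ i, κ i = 0 := by
      intro i
      have h1 := (Finset.sum_eq_zero_iff_of_nonneg (fun i _ => sq_nonneg (κ i))).1 hQz.symm i
        (Finset.mem_univ i)
      simpa using h1
    have hu0 : ∀ i, u i = 0 := by
      intro i
      ext t
      have := hu i t
      rw [hκ0] at this
      simpa using abs_nonpos_iff.1 this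
    have : ∀ ε : Fin n → ℤˣ, kk N (∑ i, sg (ε i) • u i) ^ 2 = 0 := by
      intro ε
      have : ∑ i, sg (ε i) • u i = 0 := Finset.sum_eq_zero fun i _ => by rw [hu0, smul_zero]
      rw [this, kk_zero]
      norm_num
    rw [Finset.sum_congr rfl (fun ε _ => this ε), Finset.sum_const_zero, ← hQz, mul_zero, mul_zero]
  -- main case
  set A := ∑ i, κ i with hAdef
  have hA0 : 0 ≤ A := Finset.sum_nonneg fun i _ => hκ i
  set R := Real.sqrt (ν * Q) with hR
  have hRp : 0 < R := Real.sqrt_pos.2 (mul_pos hν hQp)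
  have hR2 : R ^ 2 = ν * Q := Real.sq_sqrt (mul_pos hν hQp).le
  have hAR : A ≤ R := by
    refine le_of_sq_le_sq ?_ hRp.le
    rw [hR2]; exact hA
  set lam := η * R with hlam
  have hlp : 0 < lam := mul_pos hη hRp
  choose hVb F hFm hFb hFv using hV
  let FF : ℚ → ℝ := fun t => ∑ i, F i t
  have hFFm : Monotone FF := fun s t hst => Finset.sum_le_sum fun i _ => hFm i hst
  have hFF0 : ∀ t, 0 ≤ FF t := fun t => Finset.sum_nonneg fun i _ => (hFb i t).1
  have hFFb : ∀ t, FF t ≤ B * N * A := by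
    intro t
    rw [hAdef, Finset.mul_sum]
    exact Finset.sum_le_sum fun i _ => (hFb i t).2
  set τ := lam / 2 with hτ
  have hτp : 0 < τ := by positivity
  let J : ℚ → ℕ := fun t => ⌊FF t / τ⌋₊
  have hJm : Monotone J := fun s t hst =>
    Nat.floor_le_floor (div_le_div_of_nonneg_right (hFFm hst) hτp.le)
  set m := ⌊B * N * A / τ⌋₊ with hm
  have hJb : ∀ t, J t ≤ m := fun t =>
    Nat.floor_le_floor (div_le_div_of_nonneg_right (hFFb t) hτp.le)
  let tj : ℕ → ℚ := fun j => if H : ∃ t, J t = j then Classical.choose H else 0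
  have htj : ∀ t, J (tj (J t)) = J t := by
    intro t
    have H : ∃ t', J t' = J t := ⟨t, rfl⟩
    simp only [tj, dif_pos H]
    exact Classical.choose_spec H
  let S : (Fin n → ℤˣ) → ℚ → ℝ := fun ε t => ∑ i, sg (ε i) * u i t
  have hsg : ∀ e : ℤˣ, |sg e| = 1 := by
    intro e
    rcases Int.units_eq_one_or e with rfl | rfl <;> simp [sg]
  have hSd : ∀ ε s t, |S ε s - S ε t| ≤ |FF s - FF t| := by
    intro ε
    have key1 : ∀ s t, s ≤ t → |S ε t - S ε s| ≤ FF t - FF s := by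
      intro s t hst
      simp only [S, FF]
      rw [← Finset.sum_sub_distrib, ← Finset.sum_sub_distrib]
      refine (Finset.abs_sum_le_sum_abs _ _).trans (Finset.sum_le_sum fun i _ => ?_)
      rw [← mul_sub, abs_mul, hsg, one_mul]
      exact hFv i s t hst
    intro s t
    rcases le_total s t with h | h
    · rw [abs_sub_comm (S ε s), abs_sub_comm (FF s)]
      exact (key1 s t h).trans (le_abs_self _)
    · exact (key1 t s h).trans (le_abs_self _)
  have hJclose : ∀ s t, J s = J t → |FF s - FF t| ≤ τ := by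
    intro s t h
    have e1 := Nat.floor_le (div_nonneg (hFF0 s) hτp.le)
    have e2 := Nat.lt_floor_add_one (FF s / τ)
    have e3 := Nat.floor_le (div_nonneg (hFF0 t) hτp.le)
    have e4 := Nat.lt_floor_add_one (FF t / τ)
    have h' : ⌊FF s / τ⌋₊ = ⌊FF t / τ⌋₊ := h
    rw [h'] at e1 e2
    rw [le_div_iff₀ hτp] at e1 e3
    rw [div_lt_iff₀ hτp] at e2 e4
    rw [abs_le]
    constructor <;> nlinarith
  let v : (Fin n → ℤˣ) → ℕ → ℝ := fun ε j => if lam / 2 < |S ε (tj j)| then S ε (tj j) else 0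
  have hdec : ∀ ε, dec N (max lam (2 / N * ∑ j ∈ Finset.range (m + 1), |v ε j|))
      (∑ i, sg (ε i) • u i) := by
    intro ε
    have hN0 : 0 < N := by linarith
    refine ⟨fun t => v ε (J t), (VB_of_steps J hJm m hJb (v ε)).mono ?_, fun t => ?_⟩
    · calc 2 * ∑ j ∈ Finset.range (m + 1), |v ε j|
          = (2 / N * ∑ j ∈ Finset.range (m + 1), |v ε j|) * N := by
            field_simp
        _ ≤ _ := mul_le_mul_of_nonneg_right (le_max_right _ _) hN0.le
    · refine le_trans ?_ (le_max_left _ _)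
      have e1 : (∑ i, sg (ε i) • u i) t = S ε t := by
        simp [S, Finset.sum_apply]
      rw [e1]
      have e2 := (hSd ε t (tj (J t))).trans (hJclose _ _ (htj t).symm)
      simp only [v]
      split_ifs with hbad
      · linarith
      · push Not at hbad
        rw [sub_zero]
        have e3 : S ε t = (S ε t - S ε (tj (J t))) + S ε (tj (J t)) := by ring
        rw [e3]
        refine (abs_add_le _ _).trans ?_
        linarith
  have hkk : ∀ ε, kk N (∑ i, sg (ε i) • u i) ^ 2 ≤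
      lam ^ 2 + 4 / N ^ 2 * ((m + 1) * ∑ j ∈ Finset.range (m + 1),
        (4 / lam ^ 2 * S ε (tj j) ^ 4)) := by
    intro ε
    have hN0 : 0 < N := by linarith
    have e1 := kk_le (hdec ε)
    have e2 : kk N (∑ i, sg (ε i) • u i) ^ 2 ≤
        (max lam (2 / N * ∑ j ∈ Finset.range (m + 1), |v ε j|)) ^ 2 := by
      have := kk_nonneg N (∑ i, sg (ε i) • u i)
      gcongr
    have e3 : (max lam (2 / N * ∑ j ∈ Finset.range (m + 1), |v ε j|)) ^ 2 ≤
        lam ^ 2 + (2 / N * ∑ j ∈ Finset.range (m + 1), |v ε j|) ^ 2 := by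
      rcases max_choice lam (2 / N * ∑ j ∈ Finset.range (m + 1), |v ε j|) with h | h
      · rw [h]
        have := sq_nonneg (2 / N * ∑ j ∈ Finset.range (m + 1), |v ε j|)
        linarith
      · rw [h]
        have := sq_nonneg lam
        linarith
    refine e2.trans (e3.trans ?_)
    rw [show (2 / N * ∑ j ∈ Finset.range (m + 1), |v ε j|) ^ 2 =
      4 / N ^ 2 * (∑ j ∈ Finset.range (m + 1), |v ε j|) ^ 2 by ring]
    have e4 : (∑ j ∈ Finset.range (m + 1), |v ε j|) ^ 2 ≤
        (m + 1) * ∑ j ∈ Finset.range (m + 1), |v ε j| ^ 2 := by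
      have := sq_sum_le_card_mul_sum_sq (s := Finset.range (m + 1)) (f := fun j => |v ε j|)
      rw [Finset.card_range] at this
      push_cast at this
      exact this
    have e5 : ∀ j, |v ε j| ^ 2 ≤ 4 / lam ^ 2 * S ε (tj j) ^ 4 := by
      intro j
      simp only [v]
      split_ifs with hbad
      · rw [div_mul_eq_mul_div, le_div_iff₀ (by positivity)]
        have h3 : lam ^ 2 ≤ 4 * |S ε (tj j)| ^ 2 := by nlinarith
        rw [show S ε (tj j) ^ 4 = |S ε (tj j)| ^ 4 by
          rw [← abs_pow, abs_of_nonneg (by positivity)]]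
        nlinarith [sq_nonneg (|S ε (tj j)|)]
      · rw [abs_zero, zero_pow two_ne_zero]
        positivity
    have e6 : ∑ j ∈ Finset.range (m + 1), |v ε j| ^ 2 ≤
        ∑ j ∈ Finset.range (m + 1), (4 / lam ^ 2 * S ε (tj j) ^ 4) :=
      Finset.sum_le_sum fun j _ => e5 j
    have e7 : (∑ j ∈ Finset.range (m + 1), |v ε j|) ^ 2 ≤
        (m + 1) * ∑ j ∈ Finset.range (m + 1), (4 / lam ^ 2 * S ε (tj j) ^ 4) :=
      e4.trans (by gcongr)
    gcongr
  have hsum : ∑ ε : Fin n → ℤˣ, kk N (∑ i, sg (ε i) • u i) ^ 2 ≤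
      2 ^ n * lam ^ 2 + 4 / N ^ 2 * ((m + 1) * ((m + 1) * (4 / lam ^ 2 * (3 * 2 ^ n * Q ^ 2)))) := by
    refine (Finset.sum_le_sum fun ε _ => hkk ε).trans ?_
    rw [Finset.sum_add_distrib, Finset.sum_const, Finset.card_univ, nsmul_eq_mul, card_signs,
      ← Finset.mul_sum, ← Finset.mul_sum, Finset.sum_comm]
    have e1 : ∀ j ∈ Finset.range (m + 1), ∑ ε : Fin n → ℤˣ, 4 / lam ^ 2 * S ε (tj j) ^ 4 ≤
        4 / lam ^ 2 * (3 * 2 ^ n * Q ^ 2) := by
      intro j _
      rw [← Finset.mul_sum]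
      have e2 := sum_signs_four n (fun i => u i (tj j))
      have e3 : ∑ i, u i (tj j) ^ 2 ≤ Q := by
        rw [hQ]
        refine Finset.sum_le_sum fun i _ => ?_
        rw [← sq_abs]
        have := hu i (tj j)
        gcongr
      have e4 : 0 ≤ ∑ i, u i (tj j) ^ 2 := Finset.sum_nonneg fun i _ => sq_nonneg _
      gcongr
      exact e2.trans (by gcongr)
    have e5 := Finset.sum_le_sum e1
    rw [Finset.sum_const, Finset.card_range, nsmul_eq_mul] at e5
    push_cast at e5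
    gcongr
  refine hsum.trans ?_
  have hN0 : 0 < N := by linarith
  have hm1 : (m : ℝ) + 1 ≤ 3 * B * N / η := by
    have e1 : (m : ℝ) ≤ B * N * A / τ := Nat.floor_le (by positivity)
    have e2 : B * N * A / τ ≤ 2 * B * N / η := by
      rw [hτ, hlam, div_le_div_iff₀ (by positivity) hη]
      have : B * N * A * η ≤ B * N * R * η := by gcongr
      nlinarith
    have e3 : 1 ≤ B * N / η := by
      rw [le_div_iff₀ hη]
      nlinarith
    have e4 : 3 * B * N / η = 2 * B * N / η + B * N / η := by ring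
    linarith
  have hm0 : (0 : ℝ) ≤ (m : ℝ) + 1 := by positivity
  calc 2 ^ n * lam ^ 2 + 4 / N ^ 2 * ((m + 1) * ((m + 1) * (4 / lam ^ 2 * (3 * 2 ^ n * Q ^ 2))))
      ≤ 2 ^ n * lam ^ 2 + 4 / N ^ 2 * ((3 * B * N / η) * ((3 * B * N / η) *
        (4 / lam ^ 2 * (3 * 2 ^ n * Q ^ 2)))) := by gcongr
    _ = 2 ^ n * ((η ^ 2 * ν + 432 * B ^ 2 / (η ^ 4 * ν)) * Q) := by
        have e1 : lam ^ 2 = η ^ 2 * (ν * Q) := by rw [hlam, mul_pow, hR2]
        rw [e1]
        field_simp
        ring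

end Typ

end Pool.Agent.F896b9
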