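import Pool.Agent.Work.MP_f896b9_an.Typ2

open Set

namespace Pool.Agent.F896b9

namespace Typ

/-- the terms of the square of the `W` norm -/
noncomputable def ss (x : ℚ → ℝ) (m : ℕ) : ℝ := 4 ^ m * kk (4 ^ m) x ^ 2

/-- the square of the `W` norm -/
noncomputable def Wq (x : ℚ → ℝ) : ℝ := ∑' m, ss x m

theorem ss_nonneg (x : ℚ → ℝ) (m : ℕ) : 0 ≤ ss x m := by
  unfold ss
  positivity

theorem ss_le {c : ℝ} {x : ℚ → ℝ} (h : VB c x) (m : ℕ) : ss x m ≤ c ^ 2 * (1 / 4) ^ m := by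
  unfold ss
  have h1 := kk_le_of_VB (N := 4 ^ m) (by positivity) h
  have h2 := kk_nonneg (4 ^ m) x
  calc (4 : ℝ) ^ m * kk (4 ^ m) x ^ 2 ≤ 4 ^ m * (c / 4 ^ m) ^ 2 := by gcongr
    _ = c ^ 2 * (1 / 4) ^ m := by
      rw [one_div_pow]
      field_simp

theorem ss_summable {x : ℚ → ℝ} (h : ∃ c, VB c x) : Summable (ss x) := by
  obtain ⟨c, hc⟩ := h
  refine Summable.of_nonneg_of_le (ss_nonneg x) (ss_le hc) ?_
  exact (summable_geometric_of_lt_one (by norm_num) (by norm_num)).mul_left _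

theorem Wq_nonneg (x : ℚ → ℝ) : 0 ≤ Wq x := tsum_nonneg (ss_nonneg x)

theorem sum_shift_up {f : ℕ → ℝ} {C : ℝ} (hC : ∀ F : Finset ℕ, ∑ m ∈ F, f m ≤ C) (d M : ℕ) :
    ∑ m ∈ Finset.range M, f (m + d) ≤ C := by
  have := hC ((Finset.range M).map (addRightEmbedding d))
  rwa [Finset.sum_map] at this

theorem sum_shift_down {f : ℕ → ℝ} (hf : ∀ m, 0 ≤ f m) {C : ℝ}
    (hC : ∀ F : Finset ℕ, ∑ m ∈ F, f m ≤ C) (d M : ℕ) :
    ∑ m ∈ Finset.range M, (if d ≤ m then f (m - d) else 0) ≤ C := by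
  have h1 : ∑ m ∈ Finset.range M, (if d ≤ m then f (m - d) else 0) ≤
      ∑ m ∈ Finset.range (d + M), (if d ≤ m then f (m - d) else 0) := by
    refine Finset.sum_le_sum_of_subset_of_nonneg (Finset.range_mono (by omega)) ?_
    intro m _ _
    split_ifs
    · exact hf _
    · exact le_rfl
  refine h1.trans ?_
  rw [Finset.sum_range_add]
  have h2 : ∑ m ∈ Finset.range d, (if d ≤ m then f (m - d) else 0) = 0 := by
    refine Finset.sum_eq_zero fun m hm => ?_
    rw [if_neg (not_le.2 (Finset.mem_range.1 hm))]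
  rw [h2, zero_add]
  refine le_trans (le_of_eq ?_) (hC (Finset.range M))
  refine Finset.sum_congr rfl fun m _ => ?_
  rw [if_pos (by omega)]
  congr 1
  omega

/-- The main estimate. -/
theorem W_est {n : ℕ} (x : Fin n → ℚ → ℝ) (hx : ∀ i, ∃ c, VB c (x i)) (G : Finset (Fin n))
    (hG : ∀ i, i ∉ G → x i = 0) {h : ℝ} (hW : ∀ i, Wq (x i) ≤ h ^ 2) (d : ℕ) :
    ∑ ε : Fin n → ℤˣ, Wq (∑ i, sg (ε i) • x i) ≤
      2 ^ n * ((105 * (G.card : ℝ) ^ 2 / 4 ^ d + 34992 * 4 ^ (7 * d)) * h ^ 2) := by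
  classical
  have hsgabs : ∀ e : ℤˣ, |sg e| = 1 := by
    intro e
    rcases Int.units_eq_one_or e with rfl | rfl <;> simp [sg]
  rcases Nat.eq_zero_or_pos G.card with hcard | hcard
  · have hG0 : G = ∅ := Finset.card_eq_zero.1 hcard
    have hx0 : ∀ i, x i = 0 := fun i => hG i (by rw [hG0]; exact Finset.notMem_empty i)
    have : ∀ ε : Fin n → ℤˣ, Wq (∑ i, sg (ε i) • x i) = 0 := by
      intro ε
      have : ∑ i, sg (ε i) • x i = 0 := Finset.sum_eq_zero fun i _ => by rw [hx0, smul_zero]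
      rw [this]
      unfold Wq ss
      simp [kk_zero]
    rw [Finset.sum_congr rfl (fun ε _ => this ε), Finset.sum_const_zero]
    positivity
  have hν : (0 : ℝ) < G.card := by exact_mod_cast hcard
  set ν : ℝ := (G.card : ℝ) with hνdef
  have hBd : ∀ i, Bd (x i) := fun i => (hx i).elim fun c hc => hc.bd
  obtain ⟨l, hl⟩ : ∃ l : Fin n → ℕ → ℝ, ∀ i m, l i m = 2 * kk (4 ^ m) (x i) :=
    ⟨_, fun _ _ => rfl⟩
  have hl0 : ∀ i m, 0 ≤ l i m := fun i m => by
    rw [hl]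
    exact mul_nonneg zero_le_two (kk_nonneg _ _)
  have hlG : ∀ i, i ∉ G → ∀ m, l i m = 0 := fun i hi m => by
    rw [hl, hG i hi, kk_zero, mul_zero]
  -- summability in the level
  have hlsum : ∀ i, ∀ F : Finset ℕ, ∑ m ∈ F, 4 ^ m * l i m ^ 2 ≤ 4 * h ^ 2 := by
    intro i F
    have h1 := (ss_summable (hx i)).sum_le_tsum F (fun m _ => ss_nonneg (x i) m)
    have h2 : ∑ m ∈ F, 4 ^ m * l i m ^ 2 = 4 * ∑ m ∈ F, ss (x i) m := by
      rw [Finset.mul_sum]
      refine Finset.sum_congr rfl fun m _ => ?_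
      rw [hl]
      simp only [ss]
      ring
    rw [h2]
    have h3 := hW i
    unfold Wq at h3
    linarith
  -- decompositions
  have hup : ∀ i m, ∃ z, VB (l i (m + d) * 4 ^ (m + d)) z ∧ ∀ t, |x i t - z t| ≤ l i (m + d) :=
    fun i m => by
      rw [hl]
      exact dec_two_kk (by positivity) (hBd i)
  choose zu hzu1 hzu2 using hup
  let lo : Fin n → ℕ → ℝ := fun i m => if d ≤ m then l i (m - d) else 2 * l i 0
  let vo : Fin n → ℕ → ℝ := fun i m => if d ≤ m then l i (m - d) * 4 ^ (m - d) else 0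
  have hlow : ∀ i m, ∃ z, VB (vo i m) z ∧ ∀ t, |x i t - z t| ≤ lo i m := by
    intro i m
    simp only [lo, vo]
    split_ifs with hdm
    · rw [hl]
      exact dec_two_kk (by positivity) (hBd i)
    · refine ⟨0, VB.zero le_rfl, fun t => ?_⟩
      have h1 := (dec_two_kk (N := 4 ^ 0) (by positivity) (hBd i)).abs_le t
      rw [hl]
      simp only [Pi.zero_apply, sub_zero]
      refine h1.trans (le_of_eq ?_)
      norm_num
  choose zl hzl1 hzl2 using hlow
  have hlo0 : ∀ i m, 0 ≤ lo i m := fun i m => (abs_nonneg _).trans (hzl2 i m 0)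
  let κ : Fin n → ℕ → ℝ := fun i m => l i (m + d) + lo i m
  have hκ0 : ∀ i m, 0 ≤ κ i m := fun i m => add_nonneg (hl0 _ _) (hlo0 _ _)
  let u : Fin n → ℕ → ℚ → ℝ := fun i m => zu i m - zl i m
  have hu1 : ∀ i m t, |u i m t| ≤ κ i m := by
    intro i m t
    have e1 := hzu2 i m t
    have e2 := hzl2 i m t
    simp only [u, κ, Pi.sub_apply]
    rw [abs_le] at e1 e2 ⊢
    constructor <;> linarith [e1.1, e1.2, e2.1, e2.2]
  have hu2 : ∀ i m, VB (4 ^ d * 4 ^ m * κ i m) (u i m) := by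
    intro i m
    have h1 : VB (vo i m) (-zl i m) := by
      have := (hzl1 i m).smul (-1)
      simpa using this
    have h2 := (hzu1 i m).add h1
    rw [← sub_eq_add_neg] at h2
    refine h2.mono ?_
    simp only [κ]
    have h3 : vo i m ≤ 4 ^ d * 4 ^ m * lo i m := by
      simp only [vo, lo]
      split_ifs with hdm
      · rw [mul_comm (l i (m - d))]
        refine mul_le_mul_of_nonneg_right ?_ (hl0 _ _)
        rw [← pow_add]
        exact pow_le_pow_right₀ (by norm_num) (by omega)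
      · have := hl0 i 0
        positivity
    rw [mul_add]
    refine add_le_add (le_of_eq ?_) h3
    rw [pow_add]
    ring
  -- vanishing outside G
  have hloG : ∀ i, i ∉ G → ∀ m, lo i m = 0 := fun i hi m => by
    simp only [lo]
    split_ifs
    · exact hlG i hi _
    · rw [hlG i hi, mul_zero]
  have hvoG : ∀ i, i ∉ G → ∀ m, vo i m = 0 := fun i hi m => by
    simp only [vo]
    split_ifs
    · rw [hlG i hi, zero_mul]
    · rfl
  have hCS : ∀ a : Fin n → ℝ, (∀ i, i ∉ G → a i = 0) → (∑ i, a i) ^ 2 ≤ ν * ∑ i, a i ^ 2 := by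
    intro a ha
    have h1 : ∑ i, a i = ∑ i ∈ G, a i :=
      (Finset.sum_subset (Finset.subset_univ G) fun i _ hi => ha i hi).symm
    have h2 : ∑ i, a i ^ 2 = ∑ i ∈ G, a i ^ 2 :=
      (Finset.sum_subset (Finset.subset_univ G) fun i _ hi => by rw [ha i hi]; norm_num).symm
    rw [h1, h2]
    exact sq_sum_le_card_mul_sum_sq
  -- the three sums over the levels
  have hd4 : (0 : ℝ) < 4 ^ d := by positivity
  have hd4' : (1 : ℝ) ≤ 4 ^ d := one_le_pow₀ (by norm_num)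
  have A1 : ∀ M i, ∑ m ∈ Finset.range M, 4 ^ m * l i (m + d) ^ 2 ≤ 4 * h ^ 2 / 4 ^ d := by
    intro M i
    have h1 := sum_shift_up (hlsum i) d M
    rw [le_div_iff₀ hd4, Finset.sum_mul]
    refine le_trans (le_of_eq ?_) h1
    refine Finset.sum_congr rfl fun m _ => ?_
    rw [pow_add]
    ring
  have hdown : ∀ M i, ∑ m ∈ Finset.range M, (if d ≤ m then 4 ^ (m - d) * l i (m - d) ^ 2 else 0) ≤
      4 * h ^ 2 := fun M i =>
    sum_shift_down (f := fun m => 4 ^ m * l i m ^ 2) (fun m => by positivity) (hlsum i) d M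
  have A2 : ∀ M i, ∑ m ∈ Finset.range M, 4 ^ m * (vo i m / 4 ^ m) ^ 2 ≤ 4 * h ^ 2 / 4 ^ d := by
    intro M i
    rw [le_div_iff₀ hd4, Finset.sum_mul]
    refine le_trans (le_of_eq ?_) (hdown M i)
    refine Finset.sum_congr rfl fun m _ => ?_
    simp only [vo]
    split_ifs with hdm
    · obtain ⟨k, rfl⟩ := Nat.exists_eq_add_of_le hdm
      rw [Nat.add_sub_cancel_left, pow_add]
      field_simp
    · simp
  have A3 : ∀ M i, ∑ m ∈ Finset.range M, 4 ^ m * κ i m ^ 2 ≤ 27 * 4 ^ d * h ^ 2 := by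
    intro M i
    have h1 : ∑ m ∈ Finset.range M, 4 ^ m * κ i m ^ 2 ≤
        ∑ m ∈ Finset.range M, (2 * (4 ^ m * l i (m + d) ^ 2) + 2 * 4 ^ d *
          (if d ≤ m then 4 ^ (m - d) * l i (m - d) ^ 2 else 0) +
          8 * l i 0 ^ 2 * (if d ≤ m then 0 else 4 ^ m)) := by
      refine Finset.sum_le_sum fun m _ => ?_
      have h2 : κ i m ^ 2 ≤ 2 * l i (m + d) ^ 2 + 2 * lo i m ^ 2 := by
        simp only [κ]
        nlinarith [sq_nonneg (l i (m + d) - lo i m)]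
      have h3 : 4 ^ m * (2 * lo i m ^ 2) = 2 * 4 ^ d *
          (if d ≤ m then 4 ^ (m - d) * l i (m - d) ^ 2 else 0) +
          8 * l i 0 ^ 2 * (if d ≤ m then 0 else 4 ^ m) := by
        simp only [lo]
        split_ifs with hdm
        · obtain ⟨k, rfl⟩ := Nat.exists_eq_add_of_le hdm
          rw [Nat.add_sub_cancel_left, pow_add]
          ring
        · ring
      calc 4 ^ m * κ i m ^ 2 ≤ 4 ^ m * (2 * l i (m + d) ^ 2 + 2 * lo i m ^ 2) := by gcongr
        _ = 2 * (4 ^ m * l i (m + d) ^ 2) + 4 ^ m * (2 * lo i m ^ 2) := by ring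
        _ = _ := by rw [h3]; ring
    refine h1.trans ?_
    rw [Finset.sum_add_distrib, Finset.sum_add_distrib, ← Finset.mul_sum, ← Finset.mul_sum,
      ← Finset.mul_sum]
    have h2 := A1 M i
    have h3 := hdown M i
    have h4 : ∑ m ∈ Finset.range M, (if d ≤ m then (0 : ℝ) else 4 ^ m) ≤ 4 ^ d / 3 := by
      have e1 : ∑ m ∈ Finset.range M, (if d ≤ m then (0 : ℝ) else 4 ^ m) ≤
          ∑ m ∈ Finset.range d, (4 : ℝ) ^ m := by
        have e0 : ∀ m, (if d ≤ m then (0 : ℝ) else 4 ^ m) = if m < d then 4 ^ m else 0 := by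
          intro m
          by_cases hm : d ≤ m
          · rw [if_pos hm, if_neg (not_lt.2 hm)]
          · rw [if_neg hm, if_pos (not_le.1 hm)]
        rw [Finset.sum_congr rfl (fun m _ => e0 m), ← Finset.sum_filter]
        refine Finset.sum_le_sum_of_subset_of_nonneg ?_ (fun _ _ _ => by positivity)
        intro m hm
        simp only [Finset.mem_filter, Finset.mem_range] at hm ⊢
        exact hm.2
      have e2 := geom_sum_eq (show (4 : ℝ) ≠ 1 by norm_num) d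
      rw [e2] at e1
      refine e1.trans ?_
      rw [div_le_div_iff₀ (by norm_num) (by norm_num)]
      linarith
    have h5 : l i 0 ^ 2 ≤ 4 * h ^ 2 := by
      have := hlsum i {0}
      simpa using this
    have h6 : 4 * h ^ 2 / 4 ^ d ≤ 4 * h ^ 2 * 4 ^ d := by
      rw [div_le_iff₀ hd4, mul_assoc]
      exact le_mul_of_one_le_right (by positivity) (one_le_mul_of_one_le_of_one_le hd4' hd4')
    have h7 : 8 * l i 0 ^ 2 * ∑ m ∈ Finset.range M, (if d ≤ m then (0 : ℝ) else 4 ^ m) ≤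
        8 * (4 * h ^ 2) * (4 ^ d / 3) := by
      gcongr
    have h8 : 0 ≤ 4 ^ d * h ^ 2 := by positivity
    have h9 : 2 * 4 ^ d * ∑ m ∈ Finset.range M,
        (if d ≤ m then 4 ^ (m - d) * l i (m - d) ^ 2 else 0) ≤ 2 * 4 ^ d * (4 * h ^ 2) := by
      gcongr
    nlinarith
  -- totals over `i`
  have tot : ∀ (a : Fin n → ℝ) (c : ℝ), (∀ i, i ∉ G → a i = 0) → (∀ i, a i ≤ c) →
      ∑ i, a i ≤ ν * c := by
    intro a c ha hac
    have h1 : ∑ i, a i = ∑ i ∈ G, a i :=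
      (Finset.sum_subset (Finset.subset_univ G) fun i _ hi => ha i hi).symm
    rw [h1, hνdef, ← nsmul_eq_mul, ← Finset.sum_const]
    exact Finset.sum_le_sum fun i _ => hac i
  -- pointwise in the level
  set K : ℝ := (1 / 4 ^ d) ^ 2 * ν + 432 * (4 ^ d) ^ 2 / ((1 / 4 ^ d) ^ 4 * ν) with hK
  have hlev : ∀ m, ∑ ε : Fin n → ℤˣ, ss (∑ i, sg (ε i) • x i) m ≤
      2 ^ n * (3 * (ν * ∑ i, 4 ^ m * l i (m + d) ^ 2) +
        3 * (ν * ∑ i, 4 ^ m * (vo i m / 4 ^ m) ^ 2) +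
        3 * (K * ∑ i, 4 ^ m * κ i m ^ 2)) := by
    intro m
    have h4m : (0 : ℝ) < 4 ^ m := by positivity
    have hpt : ∀ ε : Fin n → ℤˣ, ss (∑ i, sg (ε i) • x i) m ≤
        3 * (4 ^ m * (∑ i, l i (m + d)) ^ 2) + 3 * (4 ^ m * ((∑ i, vo i m) / 4 ^ m) ^ 2) +
          3 * (4 ^ m * kk (4 ^ m) (∑ i, sg (ε i) • u i m) ^ 2) := by
      intro ε
      have b1 : ∀ t, |(∑ i, sg (ε i) • (x i - zu i m)) t| ≤ ∑ i, l i (m + d) := by
        intro t
        rw [Finset.sum_apply]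
        refine (Finset.abs_sum_le_sum_abs _ _).trans (Finset.sum_le_sum fun i _ => ?_)
        rw [Pi.smul_apply, smul_eq_mul, abs_mul, hsgabs, one_mul]
        exact hzu2 i m t
      have b2 : VB (∑ i, vo i m) (∑ i, sg (ε i) • zl i m) := by
        refine VB.sum _ fun i _ => ?_
        have := (hzl1 i m).smul (sg (ε i))
        rwa [hsgabs, one_mul] at this
      have b3 : VB (∑ i, 4 ^ d * 4 ^ m * κ i m) (∑ i, sg (ε i) • u i m) := by
        refine VB.sum _ fun i _ => ?_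
        have := (hu2 i m).smul (sg (ε i))
        rwa [hsgabs, one_mul] at this
      have hdecomp : ∑ i, sg (ε i) • x i = (∑ i, sg (ε i) • (x i - zu i m)) +
          ((∑ i, sg (ε i) • zl i m) + ∑ i, sg (ε i) • u i m) := by
        rw [← Finset.sum_add_distrib, ← Finset.sum_add_distrib]
        refine Finset.sum_congr rfl fun i _ => ?_
        simp only [u]
        rw [← smul_add, ← smul_add]
        congr 1
        abel
      have k1 := kk_le_of_bound (N := 4 ^ m) h4m.le b1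
      have k2 := kk_le_of_VB h4m b2
      have k12 : kk (4 ^ m) (∑ i, sg (ε i) • x i) ≤ (∑ i, l i (m + d)) + ((∑ i, vo i m) / 4 ^ m +
          kk (4 ^ m) (∑ i, sg (ε i) • u i m)) := by
        rw [hdecomp]
        refine (kk_add h4m.le ⟨_, b1⟩ (b2.bd.add b3.bd)).trans ?_
        exact add_le_add k1 ((kk_add h4m.le b2.bd b3.bd).trans (add_le_add k2 le_rfl))
      unfold ss
      have k0 := kk_nonneg (4 ^ m) (∑ i, sg (ε i) • x i)
      have hsq : ∀ a b c : ℝ, (a + (b + c)) ^ 2 ≤ 3 * a ^ 2 + 3 * b ^ 2 + 3 * c ^ 2 := by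
        intro a b c
        nlinarith [sq_nonneg (a - b), sq_nonneg (b - c), sq_nonneg (a - c)]
      calc 4 ^ m * kk (4 ^ m) (∑ i, sg (ε i) • x i) ^ 2 ≤
          4 ^ m * ((∑ i, l i (m + d)) + ((∑ i, vo i m) / 4 ^ m +
          kk (4 ^ m) (∑ i, sg (ε i) • u i m))) ^ 2 := by gcongr
        _ ≤ 4 ^ m * (3 * (∑ i, l i (m + d)) ^ 2 + 3 * ((∑ i, vo i m) / 4 ^ m) ^ 2 +
          3 * kk (4 ^ m) (∑ i, sg (ε i) • u i m) ^ 2) := by gcongr; exact hsq _ _ _
        _ = _ := by ring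
    refine (Finset.sum_le_sum fun ε _ => hpt ε).trans ?_
    rw [Finset.sum_add_distrib, Finset.sum_const, Finset.card_univ, nsmul_eq_mul, card_signs,
      show ∑ ε : Fin n → ℤˣ, 3 * (4 ^ m * kk (4 ^ m) (∑ i, sg (ε i) • u i m) ^ 2) =
        3 * (4 ^ m * ∑ ε : Fin n → ℤˣ, kk (4 ^ m) (∑ i, sg (ε i) • u i m) ^ 2) by
        rw [Finset.mul_sum, Finset.mul_sum]]
    have hkey := key (fun i => u i m) (fun i => κ i m) (N := 4 ^ m) (B := 4 ^ d)
      (η := 1 / 4 ^ d) (ν := ν) (one_le_pow₀ (by norm_num)) hd4' (by positivity)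
      (by rw [div_le_one hd4]; exact hd4') hν (fun i => hκ0 i m) (fun i t => hu1 i m t)
      (fun i => hu2 i m) (hCS _ (fun i hi => by simp only [κ]; rw [hlG i hi, hloG i hi, add_zero]))
    have c1 : (∑ i, l i (m + d)) ^ 2 ≤ ν * ∑ i, l i (m + d) ^ 2 :=
      hCS _ (fun i hi => hlG i hi _)
    have c2 : ((∑ i, vo i m) / 4 ^ m) ^ 2 ≤ ν * ∑ i, (vo i m / 4 ^ m) ^ 2 := by
      rw [Finset.sum_div]
      exact hCS _ (fun i hi => by rw [hvoG i hi, zero_div])
    rw [← hK] at hkey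
    have e1 : ν * ∑ i, 4 ^ m * l i (m + d) ^ 2 = 4 ^ m * (ν * ∑ i, l i (m + d) ^ 2) := by
      rw [← Finset.mul_sum]; ring
    have e2 : ν * ∑ i, 4 ^ m * (vo i m / 4 ^ m) ^ 2 =
        4 ^ m * (ν * ∑ i, (vo i m / 4 ^ m) ^ 2) := by
      rw [← Finset.mul_sum]; ring
    have e3 : K * ∑ i, 4 ^ m * κ i m ^ 2 = 4 ^ m * (K * ∑ i, κ i m ^ 2) := by
      rw [← Finset.mul_sum]; ring
    rw [e1, e2, e3]
    have f1 : 2 ^ n * (3 * (4 ^ m * (∑ i, l i (m + d)) ^ 2) +
        3 * (4 ^ m * ((∑ i, vo i m) / 4 ^ m) ^ 2)) ≤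
        2 ^ n * (3 * (4 ^ m * (ν * ∑ i, l i (m + d) ^ 2)) +
        3 * (4 ^ m * (ν * ∑ i, (vo i m / 4 ^ m) ^ 2))) := by gcongr
    have f2 : 3 * (4 ^ m * ∑ ε : Fin n → ℤˣ, kk (4 ^ m) (∑ i, sg (ε i) • u i m) ^ 2) ≤
        3 * (4 ^ m * (2 ^ n * (K * ∑ i, κ i m ^ 2))) := by gcongr
    calc _ ≤ 2 ^ n * (3 * (4 ^ m * (ν * ∑ i, l i (m + d) ^ 2)) +
        3 * (4 ^ m * (ν * ∑ i, (vo i m / 4 ^ m) ^ 2))) +
        3 * (4 ^ m * (2 ^ n * (K * ∑ i, κ i m ^ 2))) := add_le_add f1 f2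
      _ = _ := by ring
  -- summation over the levels
  have hSs : ∀ ε : Fin n → ℤˣ, Summable (ss (∑ i, sg (ε i) • x i)) := by
    intro ε
    refine ss_summable ?_
    choose c hc using hx
    exact ⟨∑ i, |sg (ε i)| * c i, VB.sum _ fun i _ => (hc i).smul _⟩
  have hKpos : 0 ≤ K := by positivity
  have hfinal : ∀ M, ∑ m ∈ Finset.range M, ∑ ε : Fin n → ℤˣ, ss (∑ i, sg (ε i) • x i) m ≤
      2 ^ n * ((105 * ν ^ 2 / 4 ^ d + 34992 * 4 ^ (7 * d)) * h ^ 2) := by
    intro M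
    refine (Finset.sum_le_sum fun m _ => hlev m).trans ?_
    rw [← Finset.mul_sum]
    refine mul_le_mul_of_nonneg_left ?_ (by positivity)
    rw [Finset.sum_add_distrib, Finset.sum_add_distrib, ← Finset.mul_sum, ← Finset.mul_sum,
      ← Finset.mul_sum, ← Finset.mul_sum, ← Finset.mul_sum, ← Finset.mul_sum,
      Finset.sum_comm (s := Finset.range M), Finset.sum_comm (s := Finset.range M),
      Finset.sum_comm (s := Finset.range M)]
    have t1 := tot (fun i => ∑ m ∈ Finset.range M, 4 ^ m * l i (m + d) ^ 2) _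
      (fun i hi => Finset.sum_eq_zero fun m _ => by rw [hlG i hi]; ring) (A1 M)
    have t2 := tot (fun i => ∑ m ∈ Finset.range M, 4 ^ m * (vo i m / 4 ^ m) ^ 2) _
      (fun i hi => Finset.sum_eq_zero fun m _ => by rw [hvoG i hi]; ring) (A2 M)
    have t3 := tot (fun i => ∑ m ∈ Finset.range M, 4 ^ m * κ i m ^ 2) _
      (fun i hi => Finset.sum_eq_zero fun m _ => by
        simp only [κ]; rw [hlG i hi, hloG i hi]; ring) (A3 M)
    calc _ ≤ 3 * (ν * (ν * (4 * h ^ 2 / 4 ^ d))) + 3 * (ν * (ν * (4 * h ^ 2 / 4 ^ d))) +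
          3 * (K * (ν * (27 * 4 ^ d * h ^ 2))) := by gcongr
      _ = (105 * ν ^ 2 / 4 ^ d + 34992 * 4 ^ (7 * d)) * h ^ 2 := by
          rw [hK, show (4 : ℝ) ^ (7 * d) = (4 ^ d) ^ 7 by rw [← pow_mul, mul_comm]]
          field_simp
          ring
  unfold Wq
  rw [← Summable.tsum_finsetSum (fun ε _ => hSs ε)]
  exact Real.tsum_le_of_sum_range_le
    (fun m => Finset.sum_nonneg fun ε _ => ss_nonneg _ _) hfinal

end Typ

end Pool.Agent.F896b9
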