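import Pool.Agent.Work.MP_f896b9_an.Defs

open Filter Topology

namespace Pool.Agent.F896b9

/-- limit of a real function along an ultrafilter -/
noncomputable def ulim {ι : Type*} (𝒰 : Ultrafilter ι) (f : ι → ℝ) : ℝ := limUnder (𝒰 : Filter ι) f

theorem tendsto_ulim {ι : Type*} {𝒰 : Ultrafilter ι} {f : ι → ℝ} {C : ℝ}
    (h : ∀ᶠ i in (𝒰 : Filter ι), |f i| ≤ C) : Tendsto f 𝒰 (𝓝 (ulim 𝒰 f)) := by
  have h1 : Set.Icc (-C) C ∈ 𝒰.map f := by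
    rw [Ultrafilter.mem_map]
    filter_upwards [h] with i hi
    exact abs_le.1 hi
  obtain ⟨x, -, hx⟩ := (isCompact_Icc (a := -C) (b := C)).ultrafilter_le_nhds' _ h1
  exact tendsto_nhds_limUnder ⟨x, hx⟩

theorem ulim_eq {ι : Type*} {𝒰 : Ultrafilter ι} {f : ι → ℝ} {a : ℝ}
    (h : Tendsto f 𝒰 (𝓝 a)) : ulim 𝒰 f = a := h.limUnder_eq

end Pool.Agent.F896b9
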